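import Pool.Agent.C8.X6

set_option autoImplicit false
set_option linter.unusedSectionVars false

namespace Pool.Agent.C8

open Finset

noncomputable section

lemma K_congr (n : ℕ) (f f' g g' : ℕ → ℝ) (z : ℕ) (hf : ∀ x, x < n → f x = f' x) (hg : ∀ x, x < n → g x = g' x) :
    K n f g z = K n f' g' z := by
  unfold K
  refine Finset.sum_congr rfl fun x hx => Finset.sum_congr rfl fun y hy => ?_
  rw [mem_range] at hx hy
  rw [hf x hx, hg y hy]

lemma conv_add_left (N : ℕ) (u u' v : ℤ → ℝ) (k : ℤ) :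
    conv N (fun x => u x + u' x) v k = conv N u v k + conv N u' v k := by
  unfold conv
  rw [← Finset.sum_add_distrib]
  refine Finset.sum_congr rfl fun y _ => by ring

lemma conv_add_right (N : ℕ) (u v v' : ℤ → ℝ) (k : ℤ) :
    conv N u (fun x => v x + v' x) k = conv N u v k + conv N u v' k := by
  unfold conv
  rw [← Finset.sum_add_distrib]
  refine Finset.sum_congr rfl fun y _ => by ring

namespace Par
variable (P : Par)

lemma s_abs (x : ℤ) : |P.s x| ≤ 1 / (2 * P.K0) := sF_bound P.K0 P.T P.hK P.hT x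

lemma gA_abs (x : ℤ) : |P.gA x| ≤ 1 / P.K0 := by
  have hK := P.Kr
  rw [gA_eq]
  have h1 := P.s_abs x
  have h2 := P.s_abs (P.N - 1 - x)
  have h3 := abs_add_le (P.s x) (P.s (P.N - 1 - x))
  have e : 1 / (P.K0:ℝ) = 1 / (2 * P.K0) + 1 / (2 * P.K0) := by field_simp; norm_num
  rw [e]; linarith

lemma gA_sum (m : ℕ) (φ : ℕ → ℤ) (hφ : Function.Injective φ) :
    ∑ k ∈ range m, |P.gA (φ k)| ≤ P.T := by
  have hK := P.Kr
  have hT := P.Tr
  have key : ∀ φ : ℕ → ℤ, Function.Injective φ →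
      ∑ k ∈ range m, |P.s (φ k)| ≤ ((P.K0 * P.T : ℕ) : ℝ) * (1 / (2 * P.K0)) := by
    intro φ hφ
    apply supp_sum φ hφ (fun x => |P.s x|) _ (by positivity) (P.K0 * P.T)
    · intro x; exact P.s_abs x
    · intro x hx
      rw [P.s_supp x hx]; simp
  have k1 := key φ hφ
  have k2 := key (fun k => P.N - 1 - φ k) (fun x y h => hφ (by simp only at h; omega))
  have h1 : ∀ k ∈ range m, |P.gA (φ k)| ≤ |P.s (φ k)| + |P.s (P.N - 1 - φ k)| := by
    intro k _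
    rw [gA_eq]; exact abs_add_le _ _
  refine (Finset.sum_le_sum h1).trans ?_
  rw [Finset.sum_add_distrib]
  have e : (P.T:ℝ) = 2 * (((P.K0 * P.T : ℕ) : ℝ) * (1 / (2 * P.K0))) := by
    push_cast; field_simp
  rw [e]; linarith

lemma gA_sum8 : ∑ y ∈ range (8 * P.N), |P.gA ((y / 8 : ℕ) : ℤ)| ≤ 8 * P.T := by
  have hK := P.Kr
  have hT := P.Tr
  have key : ∀ φ : ℕ → ℤ, Function.Injective φ →
      ∑ k ∈ range (8 * P.N), |P.s (φ k / 8)| ≤ ((8 * (P.K0 * P.T) : ℕ) : ℝ) * (1 / (2 * P.K0)) := by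
    intro φ hφ
    apply supp_sum φ hφ (fun x => |P.s (x / 8)|) _ (by positivity) (8 * (P.K0 * P.T))
    · intro x; exact P.s_abs _
    · intro x hx
      rw [P.s_supp (x / 8) (by push_cast at *; omega)]; simp
  have k1 := key (fun y => (y:ℤ)) (fun x y h => by simpa using h)
  have k2 := key (fun k => 8 * P.N - 1 - (k:ℤ)) (fun x y h => by simp only at h; omega)
  have h1 : ∀ k ∈ range (8 * P.N), |P.gA ((k / 8 : ℕ) : ℤ)| ≤ |P.s ((k:ℤ) / 8)| + |P.s ((8 * P.N - 1 - (k:ℤ)) / 8)| := by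
    intro k _
    rw [gA_eq]
    have e1 : ((k / 8 : ℕ) : ℤ) = (k:ℤ) / 8 := by simp
    have e2 : (P.N:ℤ) - 1 - (k:ℤ) / 8 = (8 * P.N - 1 - (k:ℤ)) / 8 := by omega
    rw [e1, e2]; exact abs_add_le _ _
  refine (Finset.sum_le_sum h1).trans ?_
  rw [Finset.sum_add_distrib]
  have e : 8 * (P.T:ℝ) = 2 * (((8 * (P.K0 * P.T) : ℕ) : ℝ) * (1 / (2 * P.K0))) := by
    push_cast; field_simp
  rw [e]; linarith

lemma X3_sum (m : ℕ) : ∑ k ∈ range m, (conv P.N P.gA P.gA k)^2 ≤ 8 * (P.T:ℝ)^3 / P.K0 := by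
  have hK := P.Kr
  have hT := P.Tr
  have h1 : ∀ k : ℕ, |conv P.N P.gA P.gA k| ≤ P.T / P.K0 := by
    intro k
    unfold conv
    refine (Finset.abs_sum_le_sum_abs _ _).trans ?_
    have h2 : ∀ y ∈ range (8 * P.N), |P.gA ((k:ℤ) - y) * P.gA ((y / 8 : ℕ) : ℤ)| ≤ |P.gA ((k:ℤ) - y)| * (1 / P.K0) := by
      intro y _
      rw [abs_mul]
      exact mul_le_mul_of_nonneg_left (P.gA_abs _) (abs_nonneg _)
    refine (Finset.sum_le_sum h2).trans ?_
    rw [← Finset.sum_mul]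
    have := P.gA_sum (8 * P.N) (fun y => (k:ℤ) - y) (fun x y h => by simp only at h; omega)
    have h3 := mul_le_mul_of_nonneg_right this (by positivity : (0:ℝ) ≤ 1 / P.K0)
    refine h3.trans (le_of_eq (by ring))
  have h2 : ∑ k ∈ range m, |conv P.N P.gA P.gA k| ≤ 8 * (P.T:ℝ)^2 := by
    have h3 : ∀ k ∈ range m, |conv P.N P.gA P.gA k| ≤ ∑ y ∈ range (8 * P.N), |P.gA ((k:ℤ) - y)| * |P.gA ((y / 8 : ℕ) : ℤ)| := by
      intro k _
      unfold conv
      refine (Finset.abs_sum_le_sum_abs _ _).trans (le_of_eq ?_)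
      refine Finset.sum_congr rfl fun y _ => abs_mul _ _
    refine (Finset.sum_le_sum h3).trans ?_
    rw [Finset.sum_comm]
    have h4 : ∀ y ∈ range (8 * P.N), ∑ k ∈ range m, |P.gA ((k:ℤ) - y)| * |P.gA ((y / 8 : ℕ) : ℤ)| ≤ P.T * |P.gA ((y / 8 : ℕ) : ℤ)| := by
      intro y _
      rw [← Finset.sum_mul]
      exact mul_le_mul_of_nonneg_right (P.gA_sum m (fun k => (k:ℤ) - y) (fun x y h => by simp only at h; omega)) (abs_nonneg _)
    refine (Finset.sum_le_sum h4).trans ?_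
    rw [← Finset.mul_sum]
    have := mul_le_mul_of_nonneg_left P.gA_sum8 hT.le
    refine this.trans (le_of_eq (by ring))
  have h3 : ∀ k ∈ range m, (conv P.N P.gA P.gA k)^2 ≤ (P.T / P.K0) * |conv P.N P.gA P.gA k| := by
    intro k _
    rw [← sq_abs, sq]
    exact mul_le_mul_of_nonneg_right (h1 k) (abs_nonneg _)
  refine (Finset.sum_le_sum h3).trans ?_
  rw [← Finset.mul_sum]
  have := mul_le_mul_of_nonneg_left h2 (by positivity : (0:ℝ) ≤ P.T / P.K0)
  refine this.trans (le_of_eq (by ring))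

/-! ### assembly of the square term -/

def n : ℕ := 8 * P.N
def G (x : ℕ) : ℝ := P.g ((x / 8 : ℕ) : ℤ)
def X (z : ℕ) : ℝ := K P.n P.G (fun _ => 1) z + K P.n (fun _ => 1) P.G z + K P.n P.G P.G z

lemma g_zero (x : ℤ) (hx : x < 0 ∨ (P.N:ℤ) ≤ x) : P.g x = 0 := by
  unfold g
  have h := P.Nz
  have h2 := P.Lz
  rw [P.gA_zero x hx, P.gb_zero x (by omega)]; ring

lemma G_zero (x : ℕ) (hx : P.n ≤ x) : P.G x = 0 := by
  unfold G
  apply P.g_zero
  right
  unfold n at hx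
  omega

lemma X_eq (k r : ℕ) (hr : r < 8) : P.X (8 * k + r) =
    conv P.N P.gA P.one k + conv P.N P.one P.gA k + conv P.N P.gA P.gA k
    + conv P.N P.hz P.gb k + conv P.N P.gb P.hz k + conv P.N P.gb P.gb k := by
  unfold X n
  have hone : ∀ x, x < 8 * P.N → (fun _ : ℕ => (1:ℝ)) x = (fun x : ℕ => P.one ((x / 8 : ℕ) : ℤ)) x := by
    intro x hx
    simp only
    unfold one
    rw [if_pos (by omega)]
  have hG : ∀ x, x < 8 * P.N → P.G x = (fun x : ℕ => P.g ((x / 8 : ℕ) : ℤ)) x := fun x _ => rfl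
  rw [K_congr (8 * P.N) P.G _ (fun _ => 1) _ (8 * k + r) hG hone,
    K_congr (8 * P.N) (fun _ => 1) _ P.G _ (8 * k + r) hone hG,
    K_congr (8 * P.N) P.G _ P.G _ (8 * k + r) hG hG,
    conv_K P.N P.g P.one (fun x hx => P.g_zero x hx) k r hr,
    conv_K P.N P.one P.g (fun x hx => P.one_zero x hx) k r hr,
    conv_K P.N P.g P.g (fun x hx => P.g_zero x hx) k r hr]
  have e1 : P.g = fun x => P.gA x + P.gb x := rfl
  have e2 : P.hz = fun x => P.one x + P.gA x := rfl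
  rw [e1, e2]
  simp only [conv_add_left, conv_add_right]
  ring

lemma sq6 (a b c d e f : ℝ) : (a + b + c + d + e + f)^2 ≤ 6 * (a^2 + b^2 + c^2 + d^2 + e^2 + f^2) := by
  nlinarith [sq_nonneg (a - b), sq_nonneg (a - c), sq_nonneg (a - d), sq_nonneg (a - e), sq_nonneg (a - f),
    sq_nonneg (b - c), sq_nonneg (b - d), sq_nonneg (b - e), sq_nonneg (b - f),
    sq_nonneg (c - d), sq_nonneg (c - e), sq_nonneg (c - f), sq_nonneg (d - e), sq_nonneg (d - f), sq_nonneg (e - f)]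

lemma S2_bound : ∑ z ∈ range (9 * P.n), (P.X z)^2 ≤
    48 * ((P.T:ℝ)^3 / (4 * P.K0) + 128 * (P.T:ℝ)^3 / P.K0 + 8 * (P.T:ℝ)^3 / P.K0
      + (9 * P.N) * ((1536 * P.K0 * P.σ / (P.M:ℝ)^3)^2 + (12288 * P.K0 * P.σ / (P.M:ℝ)^3)^2
        + (147456 * P.σ / (P.M:ℝ)^2)^2)) := by
  have hn : 9 * P.n = 8 * (9 * P.N) := by unfold n; ring
  rw [hn, sum_blocks8]
  have h1 : ∀ k ∈ range (9 * P.N), ∑ i ∈ range 8, (P.X (8 * k + i))^2 ≤
      48 * ((conv P.N P.gA P.one k)^2 + (conv P.N P.one P.gA k)^2 + (conv P.N P.gA P.gA k)^2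
        + ((1536 * P.K0 * P.σ / (P.M:ℝ)^3)^2 + (12288 * P.K0 * P.σ / (P.M:ℝ)^3)^2
        + (147456 * P.σ / (P.M:ℝ)^2)^2)) := by
    intro k _
    have h2 : ∀ i ∈ range 8, (P.X (8 * k + i))^2 ≤ 6 * ((conv P.N P.gA P.one k)^2 + (conv P.N P.one P.gA k)^2 + (conv P.N P.gA P.gA k)^2
        + ((1536 * P.K0 * P.σ / (P.M:ℝ)^3)^2 + (12288 * P.K0 * P.σ / (P.M:ℝ)^3)^2
        + (147456 * P.σ / (P.M:ℝ)^2)^2)) := by
      intro i hi
      rw [mem_range] at hi
      rw [P.X_eq k i hi]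
      refine (sq6 _ _ _ _ _ _).trans ?_
      have b4 := sq_le_sq' (abs_le.mp (P.X4_bound k)).1 (abs_le.mp (P.X4_bound k)).2
      have b5 := sq_le_sq' (abs_le.mp (P.X5_bound k)).1 (abs_le.mp (P.X5_bound k)).2
      have b6 := sq_le_sq' (abs_le.mp (P.X6_bound k)).1 (abs_le.mp (P.X6_bound k)).2
      linarith
    refine (Finset.sum_le_sum h2).trans (le_of_eq ?_)
    rw [Finset.sum_const, card_range, nsmul_eq_mul]; push_cast; ring
  refine (Finset.sum_le_sum h1).trans ?_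
  rw [← Finset.mul_sum, Finset.sum_add_distrib, Finset.sum_add_distrib, Finset.sum_add_distrib,
    Finset.sum_const, card_range, nsmul_eq_mul]
  have b1 := P.X1_sum (9 * P.N)
  have b2 := P.X2_sum (9 * P.N)
  have b3 := P.X3_sum (9 * P.N)
  push_cast
  linarith

end Par

end

end Pool.Agent.C8
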