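import Mathlib

set_option autoImplicit false

namespace Pool.Agent.C8

open Finset

noncomputable section

/-- coefficients of the equation `x + 8 y = x' + 8 y'` -/
def coef : Fin 4 → ℤ := ![1, 8, -1, -8]

/-- `K n f g z = ∑_{x + 8 y = z, x,y < n} f x g y`. -/
def K (n : ℕ) (f g : ℕ → ℝ) (z : ℕ) : ℝ :=
  ∑ x ∈ range n, ∑ y ∈ range n, if x + 8 * y = z then f x * g y else 0

def sol (n : ℕ) : Finset (Fin 4 → Fin n) :=
  Finset.univ.filter (fun x : Fin 4 → Fin n => ∑ i, coef i * (((x i : ℕ) : ℤ) + 1) = 0)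

lemma mem_sol {n : ℕ} (x : Fin 4 → Fin n) :
    x ∈ sol n ↔ (x 0 : ℕ) + 8 * (x 1 : ℕ) = (x 2 : ℕ) + 8 * (x 3 : ℕ) := by
  simp only [sol, mem_filter, mem_univ, true_and, Fin.sum_univ_four, coef]
  simp
  omega

def e4 (n : ℕ) : (Fin 4 → Fin n) ≃ Fin n × Fin n × Fin n × Fin n where
  toFun x := (x 0, x 1, x 2, x 3)
  invFun p := ![p.1, p.2.1, p.2.2.1, p.2.2.2]
  left_inv x := by ext i; fin_cases i <;> rfl
  right_inv p := by rcases p with ⟨a, b, c, d⟩; rfl

lemma sum_e4 {n : ℕ} (F : Fin n → Fin n → Fin n → Fin n → ℝ) :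
    ∑ x : Fin 4 → Fin n, F (x 0) (x 1) (x 2) (x 3) = ∑ a, ∑ b, ∑ c, ∑ d, F a b c d := by
  rw [← (e4 n).symm.sum_comp]
  simp only [Fintype.sum_prod_type]
  rfl

lemma sum_sol (n : ℕ) (f0 f1 f2 f3 : ℕ → ℝ) :
    ∑ x ∈ sol n, f0 (x 0) * f1 (x 1) * f2 (x 2) * f3 (x 3)
      = ∑ z ∈ range (9 * n), K n f0 f1 z * K n f2 f3 z := by
  have h1 : ∑ x ∈ sol n, f0 (x 0) * f1 (x 1) * f2 (x 2) * f3 (x 3)
      = ∑ x : Fin 4 → Fin n, (fun a b c d : Fin n =>
          if (a : ℕ) + 8 * (b : ℕ) = (c : ℕ) + 8 * (d : ℕ) then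
            f0 a * f1 b * f2 c * f3 d else 0) (x 0) (x 1) (x 2) (x 3) := by
    rw [← Finset.sum_filter]
    apply Finset.sum_congr
    · ext x; rw [mem_sol]; simp
    · intro x _; rfl
  refine h1.trans ((sum_e4 (n := n) (fun a b c d : Fin n =>
          if (a : ℕ) + 8 * (b : ℕ) = (c : ℕ) + 8 * (d : ℕ) then
            f0 a * f1 b * f2 c * f3 d else 0)).trans ?_)
  simp only [K]
  have h2 : ∀ z ∈ range (9 * n),
      (∑ x ∈ range n, ∑ y ∈ range n, if x + 8 * y = z then f0 x * f1 y else 0) *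
        (∑ x ∈ range n, ∑ y ∈ range n, if x + 8 * y = z then f2 x * f3 y else 0)
      = ∑ a ∈ range n, ∑ b ∈ range n, ∑ c ∈ range n, ∑ d ∈ range n,
        (if a + 8 * b = z then f0 a * f1 b else 0) * (if c + 8 * d = z then f2 c * f3 d else 0) := by
    intro z _
    rw [Finset.sum_mul]
    refine Finset.sum_congr rfl fun a _ => ?_
    rw [Finset.sum_mul]
    refine Finset.sum_congr rfl fun b _ => ?_
    rw [Finset.mul_sum]
    refine Finset.sum_congr rfl fun c _ => ?_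
    rw [Finset.mul_sum]
  have h3 : ∑ z ∈ range (9 * n), ∑ a ∈ range n, ∑ b ∈ range n, ∑ c ∈ range n, ∑ d ∈ range n,
        ((if a + 8 * b = z then f0 a * f1 b else 0) * (if c + 8 * d = z then f2 c * f3 d else 0))
      = ∑ a ∈ range n, ∑ b ∈ range n, ∑ c ∈ range n, ∑ d ∈ range n,
        (if a + 8 * b = c + 8 * d then f0 a * f1 b * f2 c * f3 d else 0) := by
    rw [Finset.sum_comm]
    refine Finset.sum_congr rfl fun a ha => ?_
    rw [Finset.sum_comm]
    refine Finset.sum_congr rfl fun b hb => ?_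
    rw [Finset.sum_comm]
    refine Finset.sum_congr rfl fun c hc => ?_
    rw [Finset.sum_comm]
    refine Finset.sum_congr rfl fun d hd => ?_
    rw [mem_range] at ha hb
    have hmem : a + 8 * b ∈ range (9 * n) := by
      rw [mem_range]; omega
    rw [Finset.sum_eq_single_of_mem (a + 8 * b) hmem]
    · by_cases h : a + 8 * b = c + 8 * d
      · rw [if_pos h, if_pos rfl, if_pos h.symm]; ring
      · have h'' : ¬ (c + 8 * d = a + 8 * b) := fun h' => h h'.symm
        rw [if_neg h, if_neg h'']; ring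
    · intro z _ hz
      have h'' : ¬ (a + 8 * b = z) := fun h' => hz h'.symm
      rw [if_neg h'']; ring
  rw [Finset.sum_congr rfl h2, h3]
  simp only [Finset.sum_range]

end

end Pool.Agent.C8
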