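import Mathlib

set_option autoImplicit false

namespace Pool.Agent.C8

open Finset

noncomputable section

lemma abel_T (φ : ℕ → ℝ) (T : ℝ) (M : ℕ) :
    ∑ y ∈ range M, (2 * (y:ℝ) + 1 - T) * (φ y - φ (y + 1))
      = 2 * ∑ y ∈ range M, φ y - (1 + T) * φ 0 - (2 * M - 1 - T) * φ M := by
  induction M with
  | zero => simp; ring
  | succ k ih =>
    rw [Finset.sum_range_succ, ih, Finset.sum_range_succ]
    push_cast; ring

lemma sum_range_mul_blocks (F : ℕ → ℝ) (A B : ℕ) :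
    ∑ x ∈ range (A * B), F x = ∑ m ∈ range A, ∑ y ∈ range B, F (m * B + y) := by
  induction A with
  | zero => simp
  | succ k ih =>
    rw [Finset.sum_range_succ, ← ih, show (k + 1) * B = k * B + B by ring, Finset.sum_range_add]

lemma window_bound (ψ : ℤ → ℝ) (S : ℕ) (η : ℝ) (h : ∀ x, |ψ x + ψ (x + S)| ≤ η) (q : ℕ) (x : ℤ) :
    |∑ y ∈ range (q * (2 * S)), ψ (x + y)| ≤ q * S * η := by
  have h1 : ∀ x : ℤ, |∑ y ∈ range (2 * S), ψ (x + y)| ≤ S * η := by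
    intro x
    rw [two_mul, Finset.sum_range_add, ← Finset.sum_add_distrib]
    calc |∑ i ∈ range S, (ψ (x + i) + ψ (x + ((S + i : ℕ) : ℤ)))|
        ≤ ∑ i ∈ range S, |ψ (x + i) + ψ (x + ((S + i : ℕ) : ℤ))| := Finset.abs_sum_le_sum_abs _ _
      _ ≤ ∑ i ∈ range S, η := by
        apply Finset.sum_le_sum
        intro i _
        have := h (x + i)
        have e : x + ((S + i : ℕ) : ℤ) = x + i + S := by push_cast; ring
        rw [e]; exact this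
      _ = S * η := by simp
  rw [sum_range_mul_blocks (fun y => ψ (x + y))]
  calc |∑ m ∈ range q, ∑ y ∈ range (2 * S), ψ (x + ((m * (2 * S) + y : ℕ) : ℤ))|
      ≤ ∑ m ∈ range q, |∑ y ∈ range (2 * S), ψ (x + ((m * (2 * S) + y : ℕ) : ℤ))| :=
        Finset.abs_sum_le_sum_abs _ _
    _ ≤ ∑ m ∈ range q, (S * η) := by
      apply Finset.sum_le_sum
      intro m _
      have := h1 (x + ((m * (2 * S) : ℕ) : ℤ))
      refine le_trans (le_of_eq ?_) this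
      congr 1
      refine Finset.sum_congr rfl fun y _ => ?_
      congr 1; push_cast; ring
    _ = q * S * η := by simp; ring

lemma shift_bound (ψ : ℤ → ℝ) (S : ℕ) (η : ℝ) (h : ∀ x, |ψ x + ψ (x + S)| ≤ η) (j : ℕ) (x : ℤ) :
    |ψ x - ψ (x + j * (2 * S))| ≤ 2 * j * η := by
  induction j with
  | zero => simp
  | succ k ih =>
    have h1 := h (x + k * (2 * S))
    have h2 := h (x + k * (2 * S) + S)
    have e : ψ x - ψ (x + ((k + 1 : ℕ) : ℤ) * (2 * S)) = (ψ x - ψ (x + k * (2 * S)))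
        + (ψ (x + k * (2 * S)) + ψ (x + k * (2 * S) + S))
        - (ψ (x + k * (2 * S) + S) + ψ (x + k * (2 * S) + S + S)) := by
      have e2 : x + ((k + 1 : ℕ) : ℤ) * (2 * S) = x + k * (2 * S) + S + S := by push_cast; ring
      rw [e2]; ring
    rw [e]
    have h3 := abs_sub ((ψ x - ψ (x + k * (2 * S)))
        + (ψ (x + k * (2 * S)) + ψ (x + k * (2 * S) + S))) (ψ (x + k * (2 * S) + S) + ψ (x + k * (2 * S) + S + S))
    have h4 := abs_add_le (ψ x - ψ (x + k * (2 * S))) (ψ (x + k * (2 * S)) + ψ (x + k * (2 * S) + S))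
    push_cast
    linarith

lemma kill_bound (K0 S q T : ℕ) (hK : 0 < K0) (hS : 0 < S) (hq : 0 < q) (hT : T = q * (2 * S))
    (s ψ : ℤ → ℝ) (η : ℝ) (h : ∀ x, |ψ x + ψ (x + S)| ≤ η)
    (hs : ∀ m, m < K0 → ∀ y, y < T → s ((m * T + y : ℕ) : ℤ) = (2 * (y:ℝ) + 1 - T) / (2 * K0 * T)) :
    |ψ 0 + ∑ x ∈ range (K0 * T), s (x : ℤ) * (ψ (x : ℤ) - ψ ((x : ℤ) + 1))| ≤ 3 * K0 * q * η := by
  have hη0 : 0 ≤ η := (abs_nonneg _).trans (h 0)
  have hTpos : 0 < T := by rw [hT]; positivity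
  have hTr : (0:ℝ) < T := by exact_mod_cast hTpos
  have hKr : (0:ℝ) < K0 := by exact_mod_cast hK
  have hTr1 : (1:ℝ) ≤ T := by exact_mod_cast hTpos
  have hqr : (1:ℝ) ≤ q := by exact_mod_cast hq
  have hKr1 : (1:ℝ) ≤ K0 := by exact_mod_cast hK
  rw [sum_range_mul_blocks (fun x => s (x : ℤ) * (ψ (x : ℤ) - ψ ((x : ℤ) + 1)))]
  have h1 : ∀ m ∈ range K0, ∑ y ∈ range T, s ((m * T + y : ℕ) : ℤ) *
      (ψ ((m * T + y : ℕ) : ℤ) - ψ (((m * T + y : ℕ) : ℤ) + 1))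
      = (1 / (2 * K0 * T)) * (2 * ∑ y ∈ range T, ψ ((m * T : ℕ) + (y : ℤ)) - (1 + T) * ψ ((m * T : ℕ) : ℤ)
        - (T - 1) * ψ (((m + 1) * T : ℕ) : ℤ)) := by
    intro m hm
    rw [mem_range] at hm
    have h2 := abel_T (fun y => ψ ((m * T : ℕ) + (y : ℤ))) T T
    simp only [Nat.cast_zero, add_zero] at h2
    have e3 : (((m * T : ℕ) : ℤ) + ((T : ℕ) : ℤ)) = (((m + 1) * T : ℕ) : ℤ) := by push_cast; ring
    rw [e3] at h2
    have e4 : (2 * (T:ℝ) - 1 - T) = T - 1 := by ring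
    rw [e4] at h2
    rw [← h2, Finset.mul_sum]
    refine Finset.sum_congr rfl fun y hy => ?_
    rw [mem_range] at hy
    rw [hs m hm y hy]
    have e5 : ((m * T + y : ℕ) : ℤ) = ((m * T : ℕ) : ℤ) + (y : ℤ) := by push_cast; ring
    have e6 : ((m * T + y : ℕ) : ℤ) + 1 = ((m * T : ℕ) : ℤ) + ((y + 1 : ℕ) : ℤ) := by push_cast; ring
    rw [e6, e5]
    ring
  rw [Finset.sum_congr rfl h1]
  have h0 : ψ 0 = ∑ m ∈ range K0, (1 / (2 * K0 * T)) * (2 * T * ψ 0) := by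
    rw [Finset.sum_const, card_range, nsmul_eq_mul]
    field_simp
  conv_lhs => rw [h0, ← Finset.sum_add_distrib]
  have h5 : ∀ m ∈ range K0, |(1 / (2 * K0 * T)) * (2 * T * ψ 0) + (1 / (2 * K0 * T)) *
      (2 * ∑ y ∈ range T, ψ ((m * T : ℕ) + (y : ℤ)) - (1 + T) * ψ ((m * T : ℕ) : ℤ)
        - (T - 1) * ψ (((m + 1) * T : ℕ) : ℤ))| ≤ (1 / (2 * K0 * T)) * (6 * T * K0 * q * η) := by
    intro m hm
    rw [mem_range] at hm
    rw [← mul_add, abs_mul, abs_of_nonneg (by positivity : (0:ℝ) ≤ 1 / (2 * K0 * T))]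
    apply mul_le_mul_of_nonneg_left _ (by positivity)
    have hW := window_bound ψ S η h q ((m * T : ℕ) : ℤ)
    rw [← hT] at hW
    have hA := shift_bound ψ S η h (m * q) 0
    have hB := shift_bound ψ S η h ((m + 1) * q) 0
    have eA : (0:ℤ) + ((m * q : ℕ) : ℤ) * (2 * S) = ((m * T : ℕ) : ℤ) := by
      rw [hT]; push_cast; ring
    have eB : (0:ℤ) + (((m + 1) * q : ℕ) : ℤ) * (2 * S) = (((m + 1) * T : ℕ) : ℤ) := by
      rw [hT]; push_cast; ring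
    rw [eA] at hA
    rw [eB] at hB
    have hmK : (m:ℝ) + 1 ≤ K0 := by exact_mod_cast hm
    have hm0 : (0:ℝ) ≤ m := by positivity
    have hA' : |ψ 0 - ψ ((m * T : ℕ) : ℤ)| ≤ 2 * K0 * q * η := by
      refine hA.trans ?_
      push_cast
      have : (m:ℝ) * q ≤ K0 * q := by nlinarith
      nlinarith
    have hB' : |ψ 0 - ψ (((m + 1) * T : ℕ) : ℤ)| ≤ 2 * K0 * q * η := by
      refine hB.trans ?_
      push_cast
      have : ((m:ℝ) + 1) * q ≤ K0 * q := by nlinarith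
      nlinarith
    have e7 : 2 * (T:ℝ) * ψ 0 + (2 * ∑ y ∈ range T, ψ ((m * T : ℕ) + (y : ℤ)) - (1 + T) * ψ ((m * T : ℕ) : ℤ)
        - (T - 1) * ψ (((m + 1) * T : ℕ) : ℤ))
        = 2 * ∑ y ∈ range T, ψ ((m * T : ℕ) + (y : ℤ)) + (1 + T) * (ψ 0 - ψ ((m * T : ℕ) : ℤ))
          + (T - 1) * (ψ 0 - ψ (((m + 1) * T : ℕ) : ℤ)) := by ring
    rw [e7]
    have b1 := abs_add_le (2 * ∑ y ∈ range T, ψ ((m * T : ℕ) + (y : ℤ)) + (1 + T) * (ψ 0 - ψ ((m * T : ℕ) : ℤ)))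
      ((T - 1) * (ψ 0 - ψ (((m + 1) * T : ℕ) : ℤ)))
    have b2 := abs_add_le (2 * ∑ y ∈ range T, ψ ((m * T : ℕ) + (y : ℤ))) ((1 + T) * (ψ 0 - ψ ((m * T : ℕ) : ℤ)))
    rw [abs_mul, abs_two, abs_mul, abs_of_nonneg (by linarith : (0:ℝ) ≤ 1 + T)] at b2
    rw [abs_mul, abs_of_nonneg (by linarith : (0:ℝ) ≤ T - 1)] at b1
    have c1 : (1 + (T:ℝ)) * |ψ 0 - ψ ((m * T : ℕ) : ℤ)| ≤ (1 + T) * (2 * K0 * q * η) :=
      mul_le_mul_of_nonneg_left hA' (by linarith)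
    have c2 : ((T:ℝ) - 1) * |ψ 0 - ψ (((m + 1) * T : ℕ) : ℤ)| ≤ (T - 1) * (2 * K0 * q * η) :=
      mul_le_mul_of_nonneg_left hB' (by linarith)
    have hTS : (T:ℝ) = q * (2 * S) := by rw [hT]; push_cast; ring
    have c3 : 2 * ((q:ℝ) * S * η) = T * η := by rw [hTS]; ring
    have c4 : (T:ℝ) * η ≤ 2 * T * K0 * q * η := by
      have : (1:ℝ) ≤ 2 * K0 * q := by nlinarith
      have : (T:ℝ) * η * 1 ≤ T * η * (2 * K0 * q) := mul_le_mul_of_nonneg_left this (by positivity)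
      linarith
    linarith
  calc _ ≤ ∑ m ∈ range K0, (1 / (2 * K0 * T)) * (6 * T * K0 * q * η) :=
        (Finset.abs_sum_le_sum_abs _ _).trans (Finset.sum_le_sum h5)
    _ = 3 * K0 * q * η := by
      rw [Finset.sum_const, card_range, nsmul_eq_mul]
      field_simp
      ring

end

end Pool.Agent.C8
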