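import Mathlib

set_option autoImplicit false

namespace Pool.Agent.C8

open Finset

noncomputable section

lemma sum_Icc_reflect' (a b : ℕ) (f : ℕ → ℝ) :
    ∑ k ∈ Icc a b, f k = ∑ k ∈ Icc a b, f (a + b - k) := by
  apply Finset.sum_nbij' (fun k => a + b - k) (fun k => a + b - k)
  · intro k hk; simp only [mem_Icc] at *; omega
  · intro k hk; simp only [mem_Icc] at *; omega
  · intro k hk; simp only [mem_Icc] at *; omega
  · intro k hk; simp only [mem_Icc] at *; omega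
  · intro k hk
    simp only [mem_Icc] at hk
    congr 1; omega

lemma sum_Ico_one_reflect (N : ℕ) (f : ℕ → ℝ) :
    ∑ k ∈ Ico 1 N, f k = ∑ k ∈ Ico 1 N, f (N - k) := by
  apply Finset.sum_nbij' (fun k => N - k) (fun k => N - k)
  · intro k hk; simp only [mem_Ico] at *; omega
  · intro k hk; simp only [mem_Ico] at *; omega
  · intro k hk; simp only [mem_Ico] at *; omega
  · intro k hk; simp only [mem_Ico] at *; omega
  · intro k hk
    simp only [mem_Ico] at hk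
    congr 1; omega

lemma chain (r0 r1 r2 r3 r4 r5 r6 r7 : ℝ) :
    0 ≤ 8 * ((r1 - r0)^2 + (r2 - r1)^2 + (r3 - r2)^2 + (r4 - r3)^2 + (r5 - r4)^2 + (r6 - r5)^2
        + (r7 - r6)^2) + (681/200) * (r0^2 + r7^2)
        - (15/32) * (r0^2 + r1^2 + r2^2 + r3^2 + r4^2 + r5^2 + r6^2 + r7^2) := by
  nlinarith [sq_nonneg (130 * r1 - 163 * r0), sq_nonneg (163 * r2 - 186 * r1),
    sq_nonneg (186 * r3 - 198 * r2), sq_nonneg (r4 - r3), sq_nonneg (186 * r4 - 198 * r5),
    sq_nonneg (163 * r5 - 186 * r6), sq_nonneg (130 * r6 - 163 * r7),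
    sq_nonneg r0, sq_nonneg r1, sq_nonneg r2, sq_nonneg r3, sq_nonneg r4, sq_nonneg r5,
    sq_nonneg r6, sq_nonneg r7]

lemma core (N : ℕ) (P : ℕ → ℝ) (hP0 : P 0 = 0) (hlip : ∀ k, |P (k + 1) - P k| ≤ 1) :
    -(400 * (N : ℝ)^2) ≤
    ∑ d ∈ Ico 1 N, ((1/8) * (P (8 * d) + 8 * P d)^2
      + (1/8) * ((P (8 * N) - P (8 * N - 8 * d)) + 8 * (P (8 * N) - P (8 * N - d)))^2
      + 2 * ((P (8 * N) - P (8 * d)) * P (8 * N - d)
          + P (8 * N - 8 * d) * (P (8 * N) - P d)))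
    + 2 * (P (8 * N))^2
    + ∑ k ∈ Icc N (8 * N), (1/8) * (P (8 * N) + 8 * (P k - P (k - N)))^2 := by
  rcases Nat.eq_zero_or_pos N with hN0 | hN
  · subst hN0
    simp [hP0]
  set m : ℝ := P (8 * N) with hm
  set ρ : ℕ → ℝ := fun j => (P j - P (8 * N - j)) / 2 with hρ
  -- basic bounds
  have hPabs : ∀ j, |P j| ≤ j := by
    intro j
    induction j with
    | zero => simp [hP0]
    | succ k ih =>
      have := hlip k
      have h2 : |P (k + 1)| ≤ |P (k+1) - P k| + |P k| := by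
        have := abs_add_le (P (k+1) - P k) (P k)
        simpa using this
      push_cast
      linarith
  have hρabs : ∀ j, j ≤ 8 * N → |ρ j| ≤ 4 * N := by
    intro j hj
    have h1 := hPabs j
    have h2 := hPabs (8 * N - j)
    have h3 : ((8 * N - j : ℕ) : ℝ) = 8 * N - j := by
      rw [Nat.cast_sub hj]; push_cast; ring
    rw [h3] at h2
    simp only [hρ]
    rw [abs_div, abs_two]
    have := abs_sub (P j) (P (8 * N - j))
    rw [div_le_iff₀ (by norm_num)]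
    linarith
  have hρanti : ∀ j, j ≤ 8 * N → ρ (8 * N - j) = - ρ j := by
    intro j hj
    simp only [hρ]
    have : 8 * N - (8 * N - j) = j := by omega
    rw [this]; ring
  have hρlip : ∀ j, j < 8 * N → |ρ (j + 1) - ρ j| ≤ 1 := by
    intro j hj
    have h1 := hlip j
    have h2 := hlip (8 * N - (j + 1))
    have h3 : 8 * N - (j + 1) + 1 = 8 * N - j := by omega
    rw [h3] at h2
    simp only [hρ]
    have : (P (j + 1) - P (8 * N - (j + 1))) / 2 - (P j - P (8 * N - j)) / 2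
        = ((P (j+1) - P j) + (P (8 * N - j) - P (8 * N - (j + 1)))) / 2 := by ring
    rw [this, abs_div, abs_two, div_le_iff₀ (by norm_num)]
    have := abs_add_le (P (j+1) - P j) (P (8 * N - j) - P (8 * N - (j + 1)))
    linarith
  have hρ0 : ρ 0 = - m / 2 := by
    simp only [hρ, hP0]; simp [hm]
  -- step 1
  have step1 : ∀ d ∈ Ico 1 N, (97/16) * m^2 + m * (ρ (8 * d) / 4 + 16 * ρ d) + ρ (8*d)^2 / 4
        + 16 * ρ d ^2 + 8 * ρ (8 * d) * ρ d
      ≤ ((1/8) * (P (8 * d) + 8 * P d)^2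
      + (1/8) * ((m - P (8 * N - 8 * d)) + 8 * (m - P (8 * N - d)))^2
      + 2 * ((m - P (8 * d)) * P (8 * N - d)
          + P (8 * N - 8 * d) * (m - P d))) := by
    intro d _
    simp only [hρ]
    nlinarith [sq_nonneg (P (8 * d) + P (8 * N - 8 * d) - m), sq_nonneg (P d + P (8 * N - d) - m)]
  -- step 2
  have step2 : ∑ k ∈ Icc N (8 * N), (1/8) * (m + 8 * (ρ k - ρ (k - N)))^2
      ≤ ∑ k ∈ Icc N (8 * N), (1/8) * (m + 8 * (P k - P (k - N)))^2 := by
    have h1 := sum_Icc_reflect' N (8 * N) (fun k => (1/8) * (m + 8 * (P k - P (k - N)))^2)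
    have h2 : ∑ k ∈ Icc N (8 * N), (1/8) * (m + 8 * (P k - P (k - N)))^2
        = ∑ k ∈ Icc N (8 * N), (((1/8) * (m + 8 * (P k - P (k - N)))^2
          + (1/8) * (m + 8 * (P (N + 8 * N - k) - P (N + 8 * N - k - N)))^2) / 2) := by
      rw [← Finset.sum_div, Finset.sum_add_distrib]
      rw [← h1]; ring
    rw [h2]
    apply Finset.sum_le_sum
    intro k hk
    rw [mem_Icc] at hk
    have e1 : N + 8 * N - k = 8 * N - (k - N) := by omega
    have e2 : N + 8 * N - k - N = 8 * N - k := by omega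
    rw [e2, e1]
    simp only [hρ]
    nlinarith [sq_nonneg ((P k - P (k - N)) - (P (8 * N - (k - N)) - P (8 * N - k)))]
  -- step 3
  have step3 : ∑ d ∈ Ico 1 N, ρ (8 * d) = 0 := by
    have h1 := sum_Ico_one_reflect N (fun d => ρ (8 * d))
    have h2 : ∑ d ∈ Ico 1 N, ρ (8 * (N - d)) = - ∑ d ∈ Ico 1 N, ρ (8 * d) := by
      rw [← Finset.sum_neg_distrib]
      refine Finset.sum_congr rfl fun d hd => ?_
      rw [mem_Ico] at hd
      have : 8 * (N - d) = 8 * N - 8 * d := by omega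
      rw [this, hρanti _ (by omega)]
    linarith
  -- step 4
  have step4 : ∑ k ∈ Icc N (8 * N), (ρ k - ρ (k - N)) = - 2 * ∑ i ∈ range N, ρ i := by
    rw [Finset.sum_sub_distrib]
    have h1 : ∑ k ∈ Icc N (8 * N), ρ k = ∑ k ∈ range (8 * N + 1), ρ k - ∑ k ∈ range N, ρ k := by
      rw [← Finset.sum_Ico_eq_sub _ (by omega)]
      rfl
    have h2 : ∑ k ∈ Icc N (8 * N), ρ (k - N) = ∑ k ∈ range (7 * N + 1), ρ k := by
      have : Icc N (8 * N) = Ico (0 + N) (7 * N + 1 + N) := by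
        ext x; simp only [mem_Icc, mem_Ico]; omega
      rw [this, ← Finset.sum_Ico_add']
      simp
    have h3 : ∑ k ∈ range (8 * N + 1), ρ k = ∑ k ∈ range (7 * N + 1), ρ k + ∑ k ∈ range N, ρ (7 * N + 1 + k) := by
      have : 8 * N + 1 = (7 * N + 1) + N := by omega
      rw [this, Finset.sum_range_add]
    have h4 : ∑ k ∈ range N, ρ (7 * N + 1 + k) = - ∑ k ∈ range N, ρ k := by
      rw [← Finset.sum_range_reflect, ← Finset.sum_neg_distrib]
      refine Finset.sum_congr rfl fun k hk => ?_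
      rw [mem_range] at hk
      have : 7 * N + 1 + (N - 1 - k) = 8 * N - k := by omega
      rw [this, hρanti _ (by omega)]
    rw [h1, h2, h3, h4]; ring
  have hS0 : ∑ i ∈ range N, ρ i = ρ 0 + ∑ d ∈ Ico 1 N, ρ d := by
    rw [Finset.range_eq_Ico, Finset.sum_eq_sum_Ico_succ_bot hN]
  -- step 5
  have hblock : ∀ f : ℕ → ℝ, ∑ k ∈ range (8 * N), f k
      = ∑ x ∈ range N, (f x + f (x + N) + f (x + 2 * N) + f (x + 3 * N) + f (x + 4 * N)
        + f (x + 5 * N) + f (x + 6 * N) + f (x + 7 * N)) := by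
    intro f
    have e : 8 * N = N + (N + (N + (N + (N + (N + (N + N)))))) := by ring
    rw [e]
    simp only [Finset.sum_range_add, Finset.sum_add_distrib]
    have key : ∀ c : ℕ, ∀ g : ℕ → ℕ, (∀ x, g x = x + c) →
        ∑ x ∈ range N, f (g x) = ∑ x ∈ range N, f (x + c) := by
      intro c g hg
      exact Finset.sum_congr rfl fun x _ => by rw [hg]
    rw [key N (fun x => N + x) (fun x => by ring),
      key (2 * N) (fun x => N + (N + x)) (fun x => by ring),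
      key (3 * N) (fun x => N + (N + (N + x))) (fun x => by ring),
      key (4 * N) (fun x => N + (N + (N + (N + x)))) (fun x => by ring),
      key (5 * N) (fun x => N + (N + (N + (N + (N + x))))) (fun x => by ring),
      key (6 * N) (fun x => N + (N + (N + (N + (N + (N + x)))))) (fun x => by ring),
      key (7 * N) (fun x => N + (N + (N + (N + (N + (N + (N + x))))))) (fun x => by ring)]
    ring
  have step5 : ∑ x ∈ range N, ((ρ (x + N) - ρ x)^2 + (ρ (x + 2 * N) - ρ (x + N))^2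
        + (ρ (x + 3 * N) - ρ (x + 2 * N))^2 + (ρ (x + 4 * N) - ρ (x + 3 * N))^2
        + (ρ (x + 5 * N) - ρ (x + 4 * N))^2 + (ρ (x + 6 * N) - ρ (x + 5 * N))^2
        + (ρ (x + 7 * N) - ρ (x + 6 * N))^2) ≤ ∑ k ∈ Icc N (8 * N), (ρ k - ρ (k - N))^2 := by
    have h1 := hblock (fun k => if N ≤ k then (ρ k - ρ (k - N))^2 else 0)
    have h2 : ∑ k ∈ range (8 * N), (if N ≤ k then (ρ k - ρ (k - N))^2 else 0)
        ≤ ∑ k ∈ Icc N (8 * N), (ρ k - ρ (k - N))^2 := by
      rw [← Finset.sum_filter]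
      apply Finset.sum_le_sum_of_subset_of_nonneg
      · intro x; simp only [mem_filter, mem_range, mem_Icc]; omega
      · intro x _ _; positivity
    refine le_trans (le_of_eq ?_) h2
    rw [h1]
    refine Finset.sum_congr rfl fun x hx => ?_
    rw [mem_range] at hx
    rw [if_neg (by omega), if_pos (by omega), if_pos (by omega), if_pos (by omega),
      if_pos (by omega), if_pos (by omega), if_pos (by omega), if_pos (by omega)]
    have e1 : x + N - N = x := by omega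
    have e2 : x + 2 * N - N = x + N := by omega
    have e3 : x + 3 * N - N = x + 2 * N := by omega
    have e4 : x + 4 * N - N = x + 3 * N := by omega
    have e5 : x + 5 * N - N = x + 4 * N := by omega
    have e6 : x + 6 * N - N = x + 5 * N := by omega
    have e7 : x + 7 * N - N = x + 6 * N := by omega
    rw [e1, e2, e3, e4, e5, e6, e7]; ring
  -- step 7
  have step7 : ∑ d ∈ Ico 1 N, ρ (8 * d)^2 ≤ (1/8) * ∑ k ∈ range (8 * N), ρ k ^2 + 56 * (N:ℝ)^2 := by
    have h1 : ∀ d, d < N → ∀ i, i < 8 → ρ (8 * d)^2 ≤ ρ (8 * d + i)^2 + 56 * N := by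
      intro d hd i hi
      have h2 : |ρ (8 * d + i) - ρ (8 * d)| ≤ i := by
        have : ∀ i, 8 * d + i ≤ 8 * N → |ρ (8 * d + i) - ρ (8 * d)| ≤ i := by
          intro i
          induction i with
          | zero => intro _; simp
          | succ k ih =>
            intro hk
            have h3 := ih (by omega)
            have h4 := hρlip (8 * d + k) (by omega)
            have h5 : ρ (8 * d + (k + 1)) - ρ (8 * d)
                = (ρ (8 * d + k + 1) - ρ (8 * d + k)) + (ρ (8 * d + k) - ρ (8 * d)) := by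
              rw [← add_assoc]; ring
            rw [h5]
            have := abs_add_le (ρ (8 * d + k + 1) - ρ (8 * d + k)) (ρ (8 * d + k) - ρ (8 * d))
            push_cast
            linarith
        exact this i (by omega)
      have h3 := hρabs (8 * d) (by omega)
      have h4 := hρabs (8 * d + i) (by omega)
      have hi7 : (i : ℝ) ≤ 7 := by exact_mod_cast (by omega : i ≤ 7)
      have hN' : (0:ℝ) ≤ N := by positivity
      have h5 : |ρ (8 * d) ^2 - ρ (8 * d + i)^2| ≤ 7 * (8 * N) := by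
        have : ρ (8 * d) ^2 - ρ (8 * d + i)^2 = - ((ρ (8 * d + i) - ρ (8 * d)) * (ρ (8 * d + i) + ρ (8 * d))) := by ring
        rw [this, abs_neg, abs_mul]
        have h6 : |ρ (8 * d + i) + ρ (8 * d)| ≤ 8 * N := by
          have := abs_add_le (ρ (8 * d + i)) (ρ (8 * d))
          linarith
        exact mul_le_mul (h2.trans hi7) h6 (abs_nonneg _) (by norm_num)
      have := le_abs_self (ρ (8 * d) ^2 - ρ (8 * d + i)^2)
      linarith
    have h2 : ∀ d ∈ range N, ρ (8 * d)^2 ≤ (1/8) * (∑ i ∈ range 8, ρ (8 * d + i)^2) + 56 * N := by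
      intro d hd
      rw [mem_range] at hd
      have h3 : ∑ i ∈ range 8, ρ (8 * d)^2 ≤ ∑ i ∈ range 8, (ρ (8 * d + i)^2 + 56 * (N:ℝ)) := by
        apply Finset.sum_le_sum
        intro i hi
        rw [mem_range] at hi
        exact h1 d hd i hi
      rw [Finset.sum_const, Finset.sum_add_distrib, Finset.sum_const] at h3
      simp only [card_range, nsmul_eq_mul] at h3
      push_cast at h3
      linarith
    have h3 : ∑ d ∈ Ico 1 N, ρ (8 * d)^2 ≤ ∑ d ∈ range N, ρ (8 * d)^2 := by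
      apply Finset.sum_le_sum_of_subset_of_nonneg
      · intro x; simp only [mem_Ico, mem_range]; omega
      · intro x _ _; positivity
    have h4 : ∀ M : ℕ, ∑ d ∈ range M, ∑ i ∈ range 8, ρ (8 * d + i)^2 = ∑ k ∈ range (8 * M), ρ k ^2 := by
      intro M
      induction M with
      | zero => simp
      | succ k ih =>
        rw [Finset.sum_range_succ, ih, show 8 * (k + 1) = 8 * k + 8 by ring, Finset.sum_range_add]
    calc ∑ d ∈ Ico 1 N, ρ (8 * d)^2 ≤ ∑ d ∈ range N, ρ (8 * d)^2 := h3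
      _ ≤ ∑ d ∈ range N, ((1/8) * (∑ i ∈ range 8, ρ (8 * d + i)^2) + 56 * N) := Finset.sum_le_sum h2
      _ = (1/8) * ∑ k ∈ range (8 * N), ρ k ^2 + 56 * (N:ℝ)^2 := by
        rw [Finset.sum_add_distrib, ← Finset.mul_sum, h4, Finset.sum_const, card_range, nsmul_eq_mul]
        ring
  -- step 9
  have hbd0 : ρ 0 ^2 ≤ 16 * (N:ℝ)^2 := by
    have := hρabs 0 (by omega)
    have h2 := abs_nonneg (ρ 0)
    rw [← sq_abs]; nlinarith
  have hbd7 : ρ (7 * N) ^2 ≤ 16 * (N:ℝ)^2 := by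
    have := hρabs (7 * N) (by omega)
    have h2 := abs_nonneg (ρ (7 * N))
    rw [← sq_abs]; nlinarith
  have step9a : ∑ x ∈ range N, ρ x ^2 = ρ 0 ^2 + ∑ d ∈ Ico 1 N, ρ d ^2 := by
    rw [Finset.range_eq_Ico, Finset.sum_eq_sum_Ico_succ_bot hN]
  have step9b : ∑ x ∈ range N, ρ (x + 7 * N)^2 = ρ (7 * N) ^2 + ∑ d ∈ Ico 1 N, ρ d ^2 := by
    rw [Finset.range_eq_Ico, Finset.sum_eq_sum_Ico_succ_bot hN]
    simp only [zero_add]
    congr 1
    rw [sum_Ico_one_reflect]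
    refine Finset.sum_congr rfl fun d hd => ?_
    rw [mem_Ico] at hd
    have : N - d + 7 * N = 8 * N - d := by omega
    rw [this, hρanti _ (by omega)]; ring
  -- chain summed
  have step10 : 0 ≤ ∑ x ∈ range N, (8 * ((ρ (x + N) - ρ x)^2 + (ρ (x + 2 * N) - ρ (x + N))^2
        + (ρ (x + 3 * N) - ρ (x + 2 * N))^2 + (ρ (x + 4 * N) - ρ (x + 3 * N))^2
        + (ρ (x + 5 * N) - ρ (x + 4 * N))^2 + (ρ (x + 6 * N) - ρ (x + 5 * N))^2
        + (ρ (x + 7 * N) - ρ (x + 6 * N))^2) + (681/200) * (ρ x^2 + ρ (x + 7 * N)^2)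
        - (15/32) * (ρ x^2 + ρ (x + N)^2 + ρ (x + 2 * N)^2 + ρ (x + 3 * N)^2 + ρ (x + 4 * N)^2
          + ρ (x + 5 * N)^2 + ρ (x + 6 * N)^2 + ρ (x + 7 * N)^2)) := by
    apply Finset.sum_nonneg
    intro x _
    exact chain _ _ _ _ _ _ _ _
  rw [Finset.sum_sub_distrib, Finset.sum_add_distrib, ← Finset.mul_sum, ← Finset.mul_sum,
    ← Finset.mul_sum, ← hblock (fun k => ρ k ^2), Finset.sum_add_distrib (f := fun x => ρ x ^2),
    step9a, step9b] at step10
  -- step 6 summed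
  have step6 : ∀ d ∈ Ico 1 N, -(15/4) * ρ (8 * d)^2 + (681/100) * ρ d^2
      ≤ (111/16) * m^2 + 12 * m * ρ d + ρ (8*d)^2 / 4 + 16 * ρ d ^2 + 8 * ρ (8 * d) * ρ d := by
    intro d _
    nlinarith [sq_nonneg (ρ (8 * d) + ρ d), sq_nonneg (111 * m + 96 * ρ d), sq_nonneg (ρ d)]
  have step6s := Finset.sum_le_sum step6
  have step1s := Finset.sum_le_sum step1
  -- expand T2
  have hT2 : ∑ k ∈ Icc N (8 * N), (1/8) * (m + 8 * (ρ k - ρ (k - N)))^2
      = (7 * N + 1) * (m^2 / 8) + 2 * m * ∑ k ∈ Icc N (8 * N), (ρ k - ρ (k - N))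
        + 8 * ∑ k ∈ Icc N (8 * N), (ρ k - ρ (k - N))^2 := by
    have : ∀ k ∈ Icc N (8 * N), (1/8) * (m + 8 * (ρ k - ρ (k - N)))^2
        = m^2 / 8 + 2 * m * (ρ k - ρ (k - N)) + 8 * (ρ k - ρ (k - N))^2 := by
      intro k _; ring
    rw [Finset.sum_congr rfl this, Finset.sum_add_distrib, Finset.sum_add_distrib,
      ← Finset.mul_sum, ← Finset.mul_sum, Finset.sum_const, Nat.card_Icc, nsmul_eq_mul]
    congr 2
    congr 1
    have : 8 * N + 1 - N = 7 * N + 1 := by omega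
    rw [this]; push_cast; ring
  -- sums in d
  have e1 : ∑ d ∈ Ico 1 N, ((97/16) * m^2 + m * (ρ (8 * d) / 4 + 16 * ρ d) + ρ (8*d)^2 / 4
        + 16 * ρ d ^2 + 8 * ρ (8 * d) * ρ d)
      = (N - 1) * ((97/16) * m^2) + 16 * m * ∑ d ∈ Ico 1 N, ρ d
        + ∑ d ∈ Ico 1 N, (ρ (8*d)^2 / 4 + 16 * ρ d ^2 + 8 * ρ (8 * d) * ρ d) := by
    have : ∀ d ∈ Ico 1 N, ((97/16) * m^2 + m * (ρ (8 * d) / 4 + 16 * ρ d) + ρ (8*d)^2 / 4
        + 16 * ρ d ^2 + 8 * ρ (8 * d) * ρ d)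
        = (97/16) * m^2 + (m/4) * ρ (8 * d) + 16 * m * ρ d + (ρ (8*d)^2 / 4 + 16 * ρ d ^2 + 8 * ρ (8 * d) * ρ d) := by
      intro d _; ring
    have hs1 : ∑ d ∈ Ico 1 N, (m/4) * ρ (8 * d) = 0 := by rw [← Finset.mul_sum, step3, mul_zero]
    have hs2 : ∑ d ∈ Ico 1 N, 16 * m * ρ d = 16 * m * ∑ d ∈ Ico 1 N, ρ d := by rw [Finset.mul_sum]
    rw [Finset.sum_congr rfl this, Finset.sum_add_distrib, Finset.sum_add_distrib,
      Finset.sum_add_distrib, hs1, hs2, Finset.sum_const,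
      Nat.card_Ico, nsmul_eq_mul, Nat.cast_sub hN]
    push_cast; ring
  have e2 : ∑ d ∈ Ico 1 N, ((111/16) * m^2 + 12 * m * ρ d + ρ (8*d)^2 / 4 + 16 * ρ d ^2 + 8 * ρ (8 * d) * ρ d)
      = (N - 1) * ((111/16) * m^2) + 12 * m * ∑ d ∈ Ico 1 N, ρ d
        + ∑ d ∈ Ico 1 N, (ρ (8*d)^2 / 4 + 16 * ρ d ^2 + 8 * ρ (8 * d) * ρ d) := by
    have : ∀ d ∈ Ico 1 N, ((111/16) * m^2 + 12 * m * ρ d + ρ (8*d)^2 / 4 + 16 * ρ d ^2 + 8 * ρ (8 * d) * ρ d)
        = (111/16) * m^2 + 12 * m * ρ d + (ρ (8*d)^2 / 4 + 16 * ρ d ^2 + 8 * ρ (8 * d) * ρ d) := by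
      intro d _; ring
    have hs2 : ∑ d ∈ Ico 1 N, 12 * m * ρ d = 12 * m * ∑ d ∈ Ico 1 N, ρ d := by rw [Finset.mul_sum]
    rw [Finset.sum_congr rfl this, Finset.sum_add_distrib, Finset.sum_add_distrib,
      hs2, Finset.sum_const, Nat.card_Ico, nsmul_eq_mul, Nat.cast_sub hN]
    push_cast; ring
  have e3 : ∑ d ∈ Ico 1 N, (-(15/4) * ρ (8 * d)^2 + (681/100) * ρ d^2)
      = -(15/4) * ∑ d ∈ Ico 1 N, ρ (8 * d)^2 + (681/100) * ∑ d ∈ Ico 1 N, ρ d^2 := by
    rw [Finset.sum_add_distrib, ← Finset.mul_sum, ← Finset.mul_sum]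
  rw [e1] at step1s
  rw [e2, e3] at step6s
  rw [hT2, step4, hS0, hρ0] at step2
  have hm2 : 0 ≤ m^2 := sq_nonneg m
  clear e1 e2 e3 hT2 step6 step1 step9a step9b hS0 step4 step3 hblock hρlip hρanti hρabs hPabs
  generalize (∑ d ∈ Ico 1 N, ρ d) = S at *
  generalize (∑ d ∈ Ico 1 N, (ρ (8 * d) ^ 2 / 4 + 16 * ρ d ^ 2 + 8 * ρ (8 * d) * ρ d)) = Q at *
  generalize (∑ d ∈ Ico 1 N, ρ (8 * d) ^ 2) = R8 at *
  generalize (∑ d ∈ Ico 1 N, ρ d ^ 2) = R1 at *
  generalize (∑ k ∈ range (8 * N), ρ k ^ 2) = RR at *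
  generalize (∑ k ∈ Icc N (8 * N), (ρ k - ρ (k - N)) ^ 2) = D at *
  generalize (∑ k ∈ Icc N (8 * N), (1 / 8 : ℝ) * (m + 8 * (P k - P (k - N))) ^ 2) = T at *
  generalize (∑ x ∈ range N, ((ρ (x + N) - ρ x)^2 + (ρ (x + 2 * N) - ρ (x + N))^2
        + (ρ (x + 3 * N) - ρ (x + 2 * N))^2 + (ρ (x + 4 * N) - ρ (x + 3 * N))^2
        + (ρ (x + 5 * N) - ρ (x + 4 * N))^2 + (ρ (x + 6 * N) - ρ (x + 5 * N))^2
        + (ρ (x + 7 * N) - ρ (x + 6 * N))^2)) = C at *
  generalize (∑ i ∈ Ico 1 N,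
      ((1 / 8 : ℝ) * (P (8 * i) + 8 * P i) ^ 2 + 1 / 8 * (m - P (8 * N - 8 * i) + 8 * (m - P (8 * N - i))) ^ 2 +
        2 * ((m - P (8 * i)) * P (8 * N - i) + P (8 * N - 8 * i) * (m - P i)))) = A at *
  generalize ρ 0 = r0 at *
  generalize ρ (7 * N) = r7 at *
  clear_value m
  nlinarith [step1s, step2, step5, step6s, step7, step10, hbd0, hbd7, hm2]

end

end Pool.Agent.C8
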