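import Pool.Agent.C8.S1
import Pool.Agent.C8.Core

set_option autoImplicit false

namespace Pool.Agent.C8

open Finset

noncomputable section

lemma sum_blocks8 (F : ℕ → ℝ) (M : ℕ) :
    ∑ k ∈ range (8 * M), F k = ∑ d ∈ range M, ∑ i ∈ range 8, F (8 * d + i) := by
  induction M with
  | zero => simp
  | succ k ih =>
    rw [Finset.sum_range_succ, ← ih, show 8 * (k + 1) = 8 * k + 8 by ring, Finset.sum_range_add]

lemma tele_if (f : ℕ → ℝ) (k M : ℕ) :
    ∑ y ∈ range M, (if y ≤ k then f (k - y + 1) - f (k - y) else 0) = f (k + 1) - f (k + 1 - M) := by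
  induction M with
  | zero => simp
  | succ M ih =>
    rw [Finset.sum_range_succ, ih]
    by_cases h : M ≤ k
    · rw [if_pos h]
      have e1 : k + 1 - M = k - M + 1 := by omega
      have e2 : k + 1 - (M + 1) = k - M := by omega
      rw [e1, e2]; ring
    · rw [if_neg h]
      have e1 : k + 1 - M = 0 := by omega
      have e2 : k + 1 - (M + 1) = 0 := by omega
      rw [e1, e2]; ring

lemma PP_block (e : ℕ → ℝ) (j : ℕ) :
    PP e (8 * (j + 1)) - PP e (8 * j) = ∑ r ∈ range 8, e (8 * j + r) := by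
  rw [PP, PP, show 8 * (j + 1) = 8 * j + 8 by ring, Finset.sum_range_add]; ring

lemma SA_eq (N : ℕ) (e : ℕ → ℝ) (he : ∀ i, 8 * N ≤ i → e i = 0) (k : ℕ) :
    ∑ r ∈ range 8, K (8 * N) e (fun _ => 1) (8 * k + r)
      = PP e (8 * (k + 1)) - PP e (8 * (k + 1 - 8 * N)) := by
  have h1 : ∀ r ∈ range 8, K (8 * N) e (fun _ => 1) (8 * k + r)
      = ∑ y ∈ range (8 * N), if y ≤ k then e (8 * (k - y) + r) else 0 := by
    intro r hr
    rw [mem_range] at hr
    rw [K_eq]
    refine Finset.sum_congr rfl fun y _ => ?_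
    by_cases hy : y ≤ k
    · rw [if_pos hy]
      by_cases h2 : k < y + N
      · rw [if_pos (by omega), mul_one]
        congr 1; omega
      · rw [if_neg (by omega), he _ (by omega)]
    · rw [if_neg hy, if_neg (by omega)]
  rw [Finset.sum_congr rfl h1, Finset.sum_comm]
  have h2 := tele_if (fun j => PP e (8 * j)) k (8 * N)
  rw [← h2]
  refine Finset.sum_congr rfl fun y _ => ?_
  split_ifs with hy
  · rw [PP_block]
  · simp

lemma SB_eq (N : ℕ) (e : ℕ → ℝ) (he : ∀ i, 8 * N ≤ i → e i = 0) (k r : ℕ) (hr : r < 8) :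
    K (8 * N) (fun _ => 1) e (8 * k + r) = PP e (k + 1) - PP e (k + 1 - N) := by
  rw [K_eq, ← sum_if_lt e (8 * N) (k + 1) he, ← sum_if_lt e (8 * N) (k + 1 - N) he,
    ← Finset.sum_sub_distrib]
  refine Finset.sum_congr rfl fun y _ => ?_
  by_cases h1 : y < k + 1
  · rw [if_pos h1]
    by_cases h2 : y < k + 1 - N
    · rw [if_pos h2, if_neg (by omega)]; ring
    · rw [if_neg h2, if_pos (by omega)]; ring
  · rw [if_neg h1, if_neg (by omega), if_neg (by omega)]; ring

lemma quad_lower (N : ℕ) (e : ℕ → ℝ) (he : ∀ i, 8 * N ≤ i → e i = 0) (hb : ∀ i, |e i| ≤ 1) :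
    -(400 * (N : ℝ)^2) ≤ ∑ z ∈ range (9 * (8 * N)),
      (2 * (K (8 * N) e e z * K (8 * N) (fun _ => 1) (fun _ => 1) z)
        + (K (8 * N) e (fun _ => 1) z + K (8 * N) (fun _ => 1) e z)^2) := by
  rcases Nat.eq_zero_or_pos N with hN0 | hN
  · subst hN0; simp
  set P := PP e with hP
  have hP0 : P 0 = 0 := PP_zero e
  have hPc : ∀ j, 8 * N ≤ j → P j = P (8 * N) := fun j hj => PP_const e _ he j hj
  have hlip : ∀ k, |P (k + 1) - P k| ≤ 1 := by
    intro k
    rw [hP, PP_succ]; simpa using hb k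
  have hcore := core N P hP0 hlip
  refine hcore.trans ?_
  have hR : ∑ z ∈ range (9 * (8 * N)),
      (2 * (K (8 * N) e e z * K (8 * N) (fun _ => 1) (fun _ => 1) z)
        + (K (8 * N) e (fun _ => 1) z + K (8 * N) (fun _ => 1) e z)^2)
      = 2 * (∑ d ∈ range (8 * N), (P (8 * N) - P (8 * d)) * P (8 * N - d)
        + ∑ d ∈ range (8 * N), P (8 * N - 8 * (d + 1)) * (P (8 * N) - P (d + 1)))
        + ∑ z ∈ range (9 * (8 * N)), (K (8 * N) e (fun _ => 1) z + K (8 * N) (fun _ => 1) e z)^2 := by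
    rw [Finset.sum_add_distrib, ← Finset.mul_sum, S1 _ e he]
  rw [hR]
  set m := P (8 * N) with hm
  -- block bound
  have hA : ∑ k ∈ range (9 * N), (1/8) * (P (8 * (k + 1)) - P (8 * (k + 1 - 8 * N))
        + 8 * (P (k + 1) - P (k + 1 - N)))^2
      ≤ ∑ z ∈ range (9 * (8 * N)), (K (8 * N) e (fun _ => 1) z + K (8 * N) (fun _ => 1) e z)^2 := by
    rw [show 9 * (8 * N) = 8 * (9 * N) by ring, sum_blocks8]
    apply Finset.sum_le_sum
    intro k _
    have h1 : ∑ r ∈ range 8, (K (8 * N) e (fun _ => 1) (8 * k + r) + K (8 * N) (fun _ => 1) e (8 * k + r))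
        = P (8 * (k + 1)) - P (8 * (k + 1 - 8 * N)) + 8 * (P (k + 1) - P (k + 1 - N)) := by
      rw [Finset.sum_add_distrib, SA_eq N e he k]
      congr 1
      have : ∀ r ∈ range 8, K (8 * N) (fun _ => 1) e (8 * k + r) = P (k + 1) - P (k + 1 - N) := by
        intro r hr
        exact SB_eq N e he k r (mem_range.mp hr)
      rw [Finset.sum_congr rfl this, Finset.sum_const, card_range, nsmul_eq_mul]
      norm_num
    have h2 := sq_sum_le_card_mul_sum_sq (s := range 8)
      (f := fun r => K (8 * N) e (fun _ => 1) (8 * k + r) + K (8 * N) (fun _ => 1) e (8 * k + r))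
    simp only [card_range] at h2
    rw [h1] at h2
    push_cast at h2
    linarith
  -- split
  have hsplit : ∑ k ∈ range (9 * N), (1/8) * (P (8 * (k + 1)) - P (8 * (k + 1 - 8 * N))
        + 8 * (P (k + 1) - P (k + 1 - N)))^2
      ≥ ∑ d ∈ Ico 1 N, (1/8) * (P (8 * d) + 8 * P d)^2
        + ∑ k ∈ Icc N (8 * N), (1/8) * (m + 8 * (P k - P (k - N)))^2
        + ∑ d ∈ Ico 1 N, (1/8) * ((m - P (8 * N - 8 * d)) + 8 * (m - P (8 * N - d)))^2 := by
    set F : ℕ → ℝ := fun k => (1/8) * (P (8 * k) - P (8 * (k - 8 * N)) + 8 * (P k - P (k - N)))^2 with hF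
    have hFnn : ∀ k, 0 ≤ F k := fun k => by simp only [hF]; positivity
    have h1 : ∑ k ∈ range (9 * N), (1/8) * (P (8 * (k + 1)) - P (8 * (k + 1 - 8 * N))
        + 8 * (P (k + 1) - P (k + 1 - N)))^2 = ∑ k ∈ Ico 1 (9 * N + 1), F k := by
      rw [Finset.sum_Ico_eq_sum_range]
      simp only [Nat.add_sub_cancel, hF]
      refine Finset.sum_congr rfl fun k _ => ?_
      rw [show 1 + k = k + 1 by ring]
    rw [h1]
    have h2 : ∑ k ∈ Ico 1 (9 * N + 1), F k = ∑ k ∈ Ico 1 N, F k + ∑ k ∈ Ico N (8 * N + 1), F k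
        + ∑ k ∈ Ico (8 * N + 1) (9 * N + 1), F k := by
      rw [Finset.sum_Ico_consecutive _ (by omega) (by omega),
        Finset.sum_Ico_consecutive _ (by omega) (by omega)]
    have h3 : ∑ k ∈ Ico 1 N, F k = ∑ d ∈ Ico 1 N, (1/8) * (P (8 * d) + 8 * P d)^2 := by
      refine Finset.sum_congr rfl fun k hk => ?_
      rw [mem_Ico] at hk
      simp only [hF]
      have e1 : k - 8 * N = 0 := by omega
      have e2 : k - N = 0 := by omega
      rw [e1, e2, mul_zero, hP0]; ring
    have h4 : ∑ k ∈ Ico N (8 * N + 1), F k = ∑ k ∈ Icc N (8 * N), (1/8) * (m + 8 * (P k - P (k - N)))^2 := by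
      refine Finset.sum_congr ?_ fun k hk => ?_
      · ext x; simp only [mem_Ico, mem_Icc]; omega
      · rw [mem_Icc] at hk
        simp only [hF]
        have e1 : k - 8 * N = 0 := by omega
        rw [e1, mul_zero, hP0, hPc (8 * k) (by omega)]; ring
    have h5 : ∑ d ∈ Ico 1 N, (1/8) * ((m - P (8 * N - 8 * d)) + 8 * (m - P (8 * N - d)))^2
        ≤ ∑ k ∈ Ico (8 * N + 1) (9 * N + 1), F k := by
      have h6 : ∑ k ∈ Ico (8 * N + 1) (9 * N + 1), F k ≥ ∑ k ∈ Ico (8 * N + 1) (9 * N), F k := by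
        apply Finset.sum_le_sum_of_subset_of_nonneg
        · intro x; simp only [mem_Ico]; omega
        · intro x _ _; exact hFnn x
      refine le_trans (le_of_eq ?_) h6
      have h7 : ∑ k ∈ Ico (8 * N + 1) (9 * N), F k = ∑ i ∈ Ico 1 N, F (i + 8 * N) := by
        have : Ico (8 * N + 1) (9 * N) = Ico (1 + 8 * N) (N + 8 * N) := by
          ext x; simp only [mem_Ico]; omega
        rw [this, ← Finset.sum_Ico_add']
      rw [h7, sum_Ico_one_reflect N (fun i => F (i + 8 * N))]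
      refine Finset.sum_congr rfl fun d hd => ?_
      rw [mem_Ico] at hd
      simp only [hF]
      have e1 : N - d + 8 * N - 8 * N = N - d := by omega
      have e2 : 8 * (N - d) = 8 * N - 8 * d := by omega
      have e3 : N - d + 8 * N - N = 8 * N - d := by omega
      rw [e1, e2, e3, hPc (8 * (N - d + 8 * N)) (by omega), hPc (N - d + 8 * N) (by omega)]
    rw [h2, h3, h4]
    linarith
  -- S1 sums
  have hs1 : ∑ d ∈ range (8 * N), (m - P (8 * d)) * P (8 * N - d)
      = m * m + ∑ d ∈ Ico 1 N, (m - P (8 * d)) * P (8 * N - d) := by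
    have h1 : ∑ d ∈ range (8 * N), (m - P (8 * d)) * P (8 * N - d)
        = ∑ d ∈ range N, (m - P (8 * d)) * P (8 * N - d) := by
      symm
      apply Finset.sum_subset
      · intro x; simp only [mem_range]; omega
      · intro d _ hd
        rw [mem_range] at hd
        rw [hPc (8 * d) (by omega)]; ring
    rw [h1, Finset.range_eq_Ico, Finset.sum_eq_sum_Ico_succ_bot hN]
    simp only [mul_zero, Nat.sub_zero, hP0, sub_zero, zero_add, ← hm]
  have hs2 : ∑ d ∈ range (8 * N), P (8 * N - 8 * (d + 1)) * (m - P (d + 1))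
      = ∑ d ∈ Ico 1 N, P (8 * N - 8 * d) * (m - P d) := by
    have h1 : ∑ d ∈ range (8 * N), P (8 * N - 8 * (d + 1)) * (m - P (d + 1))
        = ∑ d ∈ range (N - 1), P (8 * N - 8 * (d + 1)) * (m - P (d + 1)) := by
      symm
      apply Finset.sum_subset
      · intro x; simp only [mem_range]; omega
      · intro d _ hd
        rw [mem_range] at hd
        have : 8 * N - 8 * (d + 1) = 0 := by omega
        rw [this, hP0]; ring
    rw [h1, Finset.sum_Ico_eq_sum_range]
    refine Finset.sum_congr rfl fun d _ => ?_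
    rw [show 1 + d = d + 1 by ring]
  rw [hs1, hs2]
  have hfin : ∑ d ∈ Ico 1 N, ((1/8) * (P (8 * d) + 8 * P d)^2
      + (1/8) * ((m - P (8 * N - 8 * d)) + 8 * (m - P (8 * N - d)))^2
      + 2 * ((m - P (8 * d)) * P (8 * N - d) + P (8 * N - 8 * d) * (m - P d)))
      = ∑ d ∈ Ico 1 N, (1/8) * (P (8 * d) + 8 * P d)^2
        + ∑ d ∈ Ico 1 N, (1/8) * ((m - P (8 * N - 8 * d)) + 8 * (m - P (8 * N - d)))^2
        + 2 * (∑ d ∈ Ico 1 N, (m - P (8 * d)) * P (8 * N - d)
          + ∑ d ∈ Ico 1 N, P (8 * N - 8 * d) * (m - P d)) := by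
    have h8 : ∑ d ∈ Ico 1 N, 2 * ((m - P (8 * d)) * P (8 * N - d) + P (8 * N - 8 * d) * (m - P d))
        = 2 * (∑ d ∈ Ico 1 N, (m - P (8 * d)) * P (8 * N - d)
          + ∑ d ∈ Ico 1 N, P (8 * N - 8 * d) * (m - P d)) := by
      rw [← Finset.mul_sum, Finset.sum_add_distrib]
    rw [Finset.sum_add_distrib, Finset.sum_add_distrib, h8]
  rw [hfin]
  nlinarith [hA, hsplit]

end

end Pool.Agent.C8
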