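import Pool.Agent.C8.FunB
import Pool.Agent.C8.Kill
import Pool.Agent.C8.Quad

set_option autoImplicit false
set_option linter.unusedSectionVars false

namespace Pool.Agent.C8

open Finset

noncomputable section

lemma reindex (N A : ℕ) (u w : ℤ → ℝ) (hu : ∀ x : ℤ, (x < 0 ∨ (N:ℤ) ≤ x) → u x = 0)
    (hw : ∀ y : ℤ, (y < 0 ∨ (A:ℤ) ≤ y) → w y = 0) (k : ℤ) :
    ∑ y ∈ range A, u (k - y) * w y = ∑ x ∈ range N, u x * w (k - x) := by
  apply Finset.sum_bij_ne_zero (fun (y:ℕ) _ _ => (k - (y:ℤ)).toNat)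
  · intro y hy hne
    rw [mem_range] at *
    by_contra hcon
    apply hne
    by_cases h0 : k - (y:ℤ) < 0
    · rw [hu _ (Or.inl h0)]; ring
    · rw [hu (k - y) (Or.inr (by omega))]; ring
  · intro y1 h1 hn1 y2 h2 hn2 heq
    have a1 : 0 ≤ k - (y1:ℤ) := by
      by_contra hc; exact hn1 (by rw [hu _ (Or.inl (by omega))]; ring)
    have a2 : 0 ≤ k - (y2:ℤ) := by
      by_contra hc; exact hn2 (by rw [hu _ (Or.inl (by omega))]; ring)
    omega
  · intro x hx hne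
    rw [mem_range] at hx
    have a1 : 0 ≤ k - (x:ℤ) := by
      by_contra hc; exact hne (by rw [hw _ (Or.inl (by omega))]; ring)
    have a2 : k - (x:ℤ) < A := by
      by_contra hc; exact hne (by rw [hw (k - x) (Or.inr (by omega))]; ring)
    have hcast : (((k - (x:ℤ)).toNat : ℕ) : ℤ) = k - x := Int.toNat_of_nonneg a1
    refine ⟨(k - x).toNat, ?_, ?_, ?_⟩
    · rw [mem_range]; omega
    · rw [hcast]
      have : k - (k - (x:ℤ)) = x := by ring
      rw [this]; exact hne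
    · omega
  · intro y hy hne
    have a1 : 0 ≤ k - (y:ℤ) := by
      by_contra hc; exact hne (by rw [hu _ (Or.inl (by omega))]; ring)
    have hcast : (((k - (y:ℤ)).toNat : ℕ) : ℤ) = k - y := Int.toNat_of_nonneg a1
    rw [hcast]
    have : k - (k - (y:ℤ)) = y := by ring
    rw [this]

def conv (N : ℕ) (u v : ℤ → ℝ) (k : ℤ) : ℝ :=
  ∑ y ∈ range (8 * N), u (k - y) * v ((y / 8 : ℕ) : ℤ)

lemma conv_K (N : ℕ) (u v : ℤ → ℝ) (hu : ∀ x : ℤ, (x < 0 ∨ (N:ℤ) ≤ x) → u x = 0)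
    (k r : ℕ) (hr : r < 8) :
    K (8 * N) (fun x => u ((x / 8 : ℕ) : ℤ)) (fun y => v ((y / 8 : ℕ) : ℤ)) (8 * k + r)
      = conv N u v k := by
  rw [K_eq, conv]
  refine Finset.sum_congr rfl fun y _ => ?_
  split_ifs with h
  · congr 2
    omega
  · have : u ((k:ℤ) - y) = 0 := by
      apply hu; omega
    rw [this]; ring

/-- all the parameters -/
structure Par where
  C : ℕ
  M : ℕ
  σ : ℕ
  hC : 0 < C
  hM : 2 ≤ M
  hMC : 1000 * C ≤ M
  hσ : 0 < σ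

namespace Par
variable (P : Par)

def T : ℕ := 128 * P.σ
def K0 : ℕ := P.C * P.M
def N : ℕ := 128 * P.M ^ 2 * P.σ
def L : ℕ := P.M ^ 2 * P.σ

lemma hT : 0 < P.T := by unfold T; have := P.hσ; omega
lemma hK : 0 < P.K0 := by unfold K0; have := P.hC; have := P.hM; positivity
lemma hL : 0 < P.L := by
  unfold L
  have := P.hM; have h2 := P.hσ
  have : 0 < P.M := by omega
  positivity
lemma N_eq : P.N = 128 * P.L := by unfold N L; ring

lemma KT_le : 1000 * (P.K0 * P.T) ≤ 128 * P.L := by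
  unfold K0 T L
  have h := P.hMC
  calc 1000 * (P.C * P.M * (128 * P.σ)) = (1000 * P.C) * (128 * P.M * P.σ) := by ring
    _ ≤ P.M * (128 * P.M * P.σ) := Nat.mul_le_mul_right _ h
    _ = 128 * (P.M ^ 2 * P.σ) := by ring

lemma σ_le_L : 4 * P.σ ≤ P.L := by
  unfold L
  have := P.hM
  have : 4 ≤ P.M ^ 2 := by nlinarith
  exact Nat.mul_le_mul_right _ this

lemma LL_eq : LL P.M P.σ = (P.L : ℝ) := by unfold LL L; push_cast; ring

def a (x : ℤ) : ℝ := aF P.K0 P.T x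
def s (x : ℤ) : ℝ := sF P.K0 P.T x
def b (x : ℤ) : ℝ := pB P.M P.σ x
def gb (x : ℤ) : ℝ := gB P.M P.σ x
def Qb (x : ℤ) : ℝ := QB P.M P.σ x
def pA (x : ℤ) : ℝ := P.a x - P.a (P.N - x)
def gA (x : ℤ) : ℝ := P.pA (x + 1) - P.pA x
def one (x : ℤ) : ℝ := if 0 ≤ x ∧ x < P.N then 1 else 0
def hz (x : ℤ) : ℝ := P.one x + P.gA x
def g (x : ℤ) : ℝ := P.gA x + P.gb x

lemma a_left (x : ℤ) (hx : x ≤ 0) : P.a x = 0 := aF_zero_left _ _ P.hK P.hT x hx
lemma a_right (x : ℤ) (hx : (P.K0 : ℤ) * P.T ≤ x) : P.a x = 0 := aF_zero_right _ _ P.hK P.hT x hx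
lemma s_left (x : ℤ) (hx : x < 0) : P.s x = 0 := sF_zero_left _ _ P.hK P.hT x hx
lemma s_right (x : ℤ) (hx : (P.K0 : ℤ) * P.T ≤ x) : P.s x = 0 := sF_zero_right _ _ P.hK P.hT x hx

lemma KTz : 1000 * ((P.K0:ℤ) * P.T) ≤ 128 * P.L := by exact_mod_cast P.KT_le
lemma Nz : (P.N : ℤ) = 128 * P.L := by exact_mod_cast P.N_eq
lemma Lz : (0:ℤ) < P.L := by exact_mod_cast P.hL
lemma σLz : 4 * (P.σ:ℤ) ≤ P.L := by exact_mod_cast P.σ_le_L

lemma b_zero (x : ℤ) (hx : x ≤ 15 * P.L ∨ 17 * P.L ≤ x) : P.b x = 0 := by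
  apply pB_zero P.M P.σ P.hM P.hσ
  rw [P.LL_eq]
  have h : (P.L : ℤ) ≤ |x - 16 * P.L| := by
    rcases hx with h | h
    · rw [abs_of_nonpos (by have := P.Lz; omega)]; omega
    · rw [abs_of_nonneg (by have := P.Lz; omega)]; omega
  exact_mod_cast h

lemma gb_zero (x : ℤ) (hx : x < 15 * P.L ∨ 17 * P.L ≤ x) : P.gb x = 0 := by
  have h1 : P.b (x + 1) = 0 := P.b_zero _ (by omega)
  have h2 : P.b x = 0 := P.b_zero _ (by omega)
  show pB P.M P.σ (x + 1) - pB P.M P.σ x = 0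
  unfold b at h1 h2
  rw [h1, h2]; ring

lemma gA_eq (x : ℤ) : P.gA x = P.s x + P.s (P.N - 1 - x) := by
  unfold gA pA s sF a
  have e1 : (P.N:ℤ) - 1 - x + 1 = P.N - x := by ring
  have e2 : (P.N:ℤ) - (x + 1) = P.N - 1 - x := by ring
  rw [e1, e2]; ring

lemma gA_zero (x : ℤ) (hx : x < 0 ∨ (P.N:ℤ) ≤ x) : P.gA x = 0 := by
  have h := P.KTz
  have h2 := P.Nz
  have h3 := P.Lz
  rw [gA_eq]
  rcases hx with hx | hx
  · rw [P.s_left x hx, P.s_right _ (by omega)]; ring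
  · rw [P.s_right x (by omega), P.s_left _ (by omega)]; ring

lemma one_zero (x : ℤ) (hx : x < 0 ∨ (P.N:ℤ) ≤ x) : P.one x = 0 := by
  unfold one; rw [if_neg (by omega)]

lemma hz_zero (x : ℤ) (hx : x < 0 ∨ (P.N:ℤ) ≤ x) : P.hz x = 0 := by
  unfold hz; rw [P.one_zero x hx, P.gA_zero x hx]; ring

/-- kill functional -/
def κ (ψ : ℤ → ℝ) : ℝ := ψ 0 + ∑ x ∈ range (P.K0 * P.T), P.s (x : ℤ) * (ψ (x : ℤ) - ψ ((x : ℤ) + 1))

lemma Lpsi (ψ : ℤ → ℝ) :
    ∑ x ∈ range P.N, P.hz x * (ψ x - ψ (x + 1)) = P.κ ψ - P.κ (fun x => ψ (P.N - x)) := by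
  have hKN : P.K0 * P.T ≤ P.N := by
    have h := P.KT_le
    have h2 := P.N_eq
    omega
  have h1 : ∀ x ∈ range P.N, P.hz x * (ψ x - ψ (x + 1))
      = (ψ x - ψ (x + 1)) + P.s x * (ψ x - ψ (x + 1)) + P.s (P.N - 1 - x) * (ψ x - ψ (x + 1)) := by
    intro x hx
    rw [mem_range] at hx
    unfold hz
    rw [gA_eq]
    unfold one
    rw [if_pos (by omega)]; ring
  rw [Finset.sum_congr rfl h1, Finset.sum_add_distrib, Finset.sum_add_distrib]
  have h2 : ∑ x ∈ range P.N, (ψ x - ψ (x + 1)) = ψ 0 - ψ P.N := by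
    have := Finset.sum_range_sub' (fun x : ℕ => ψ (x : ℤ)) P.N
    simpa using this
  have h3 : ∑ x ∈ range P.N, P.s x * (ψ x - ψ (x + 1))
      = ∑ x ∈ range (P.K0 * P.T), P.s (x : ℤ) * (ψ (x : ℤ) - ψ ((x : ℤ) + 1)) := by
    symm
    apply Finset.sum_subset
    · intro x; simp only [mem_range]; omega
    · intro x _ hx
      rw [mem_range] at hx
      rw [P.s_right x (by exact_mod_cast (not_lt.mp hx))]; ring
  have h4 : ∑ x ∈ range P.N, P.s (P.N - 1 - x) * (ψ x - ψ (x + 1))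
      = - ∑ x ∈ range (P.K0 * P.T), P.s (x : ℤ) * (ψ (P.N - x) - ψ (P.N - ((x : ℤ) + 1))) := by
    rw [← Finset.sum_range_reflect]
    have h5 : ∑ j ∈ range P.N, P.s ((P.N:ℤ) - 1 - ((P.N - 1 - j : ℕ) : ℤ)) * (ψ ((P.N - 1 - j : ℕ) : ℤ) - ψ (((P.N - 1 - j : ℕ) : ℤ) + 1))
        = ∑ j ∈ range P.N, -(P.s (j : ℤ) * (ψ (P.N - j) - ψ (P.N - ((j : ℤ) + 1)))) := by
      refine Finset.sum_congr rfl fun j hj => ?_
      rw [mem_range] at hj
      have e1 : ((P.N - 1 - j : ℕ) : ℤ) = P.N - 1 - j := by omega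
      rw [e1]
      have e2 : (P.N:ℤ) - 1 - (P.N - 1 - j) = j := by ring
      have e3 : (P.N:ℤ) - 1 - j + 1 = P.N - j := by ring
      have e4 : (P.N:ℤ) - (j + 1) = P.N - 1 - j := by ring
      rw [e2, e3, e4]; ring
    rw [h5, Finset.sum_neg_distrib]
    congr 1
    symm
    apply Finset.sum_subset
    · intro x; simp only [mem_range]; omega
    · intro x _ hx
      rw [mem_range] at hx
      rw [P.s_right x (by exact_mod_cast (not_lt.mp hx))]; ring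
  rw [h2, h3, h4]
  unfold κ
  simp only [sub_zero]
  ring

lemma κ_bound (S q : ℕ) (hS : 0 < S) (hq : 0 < q) (hTq : P.T = q * (2 * S)) (ψ : ℤ → ℝ) (η : ℝ)
    (h : ∀ x, |ψ x + ψ (x + S)| ≤ η) : |P.κ ψ| ≤ 3 * P.K0 * q * η := by
  unfold κ
  apply kill_bound P.K0 S q P.T P.hK hS hq hTq (P.s) ψ η h
  intro m hm y hy
  exact sF_val P.K0 P.T P.hK P.hT m y hm hy

lemma L_bound (S q : ℕ) (hS : 0 < S) (hq : 0 < q) (hTq : P.T = q * (2 * S)) (ψ : ℤ → ℝ) (η : ℝ)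
    (h : ∀ x, |ψ x + ψ (x + S)| ≤ η) :
    |∑ x ∈ range P.N, P.hz x * (ψ x - ψ (x + 1))| ≤ 6 * P.K0 * q * η := by
  rw [P.Lpsi]
  have h1 := P.κ_bound S q hS hq hTq ψ η h
  have h2 := P.κ_bound S q hS hq hTq (fun x => ψ (P.N - x)) η (by
    intro x
    have := h (P.N - x - S)
    have e : (P.N:ℤ) - x - S + S = P.N - x := by ring
    rw [e] at this
    have e2 : (P.N:ℤ) - (x + S) = P.N - x - S := by ring
    rw [e2, add_comm]; exact this)
  have := abs_sub (P.κ ψ) (P.κ (fun x => ψ (P.N - x)))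
  linarith

lemma X4_bound (k : ℕ) : |conv P.N P.hz P.gb k| ≤ 1536 * P.K0 * P.σ / (P.M:ℝ)^3 := by
  have h1 : conv P.N P.hz P.gb k = ∑ x ∈ range P.N, P.hz x *
      ((fun x : ℤ => P.Qb (k + 1 - x)) x - (fun x : ℤ => P.Qb (k + 1 - x)) (x + 1)) := by
    have h2 := reindex P.N (8 * P.N) P.hz (fun y => P.gb (y / 8)) (fun x hx => P.hz_zero x hx)
      (by
        intro y hy
        apply P.gb_zero
        have h2 := P.Nz
        have h3 := P.Lz
        push_cast at hy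
        omega) k
    have h3 : conv P.N P.hz P.gb k = ∑ y ∈ range (8 * P.N), P.hz ((k:ℤ) - y) * (fun y => P.gb (y / 8)) (y:ℤ) := by
      unfold conv
      refine Finset.sum_congr rfl fun y _ => ?_
      simp
    rw [h3, h2]
    refine Finset.sum_congr rfl fun x _ => ?_
    simp only
    congr 1
    have e := QB_step P.M P.σ ((k:ℤ) - x)
    have e1 : (k:ℤ) - x + 1 = k + 1 - x := by ring
    have e2 : (k:ℤ) + 1 - (x + 1) = k - x := by ring
    rw [e1] at e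
    unfold gb Qb
    rw [e2, ← e]
  rw [h1]
  have hσ := P.hσ
  refine (P.L_bound (64 * P.σ) 1 (by omega) (by norm_num) (by unfold T; ring) (fun x : ℤ => P.Qb (k + 1 - x)) (256 * P.σ / (P.M:ℝ)^3) ?_).trans (le_of_eq ?_)
  · intro x
    have h := QB_anti P.M P.σ P.hM P.hσ (k + 1 - (x + 64 * P.σ))
    have e : (k:ℤ) + 1 - (x + 64 * P.σ) + 64 * P.σ = k + 1 - x := by ring
    rw [e] at h
    unfold Qb
    push_cast
    rw [add_comm]; exact h
  · push_cast; ring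

lemma X5_bound (k : ℕ) : |conv P.N P.gb P.hz k| ≤ 12288 * P.K0 * P.σ / (P.M:ℝ)^3 := by
  have h1 : conv P.N P.gb P.hz k = ∑ x ∈ range P.N, P.hz x *
      ((fun x : ℤ => P.b (k + 1 - 8 * x)) x - (fun x : ℤ => P.b (k + 1 - 8 * x)) (x + 1)) := by
    unfold conv
    rw [sum_blocks8 (fun y => P.gb ((k:ℤ) - y) * P.hz ((y / 8 : ℕ) : ℤ))]
    refine Finset.sum_congr rfl fun j _ => ?_
    have h2 : ∀ r ∈ range 8, P.gb ((k:ℤ) - ((8 * j + r : ℕ) : ℤ)) * P.hz (((8 * j + r) / 8 : ℕ) : ℤ)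
        = P.hz (j:ℤ) * P.gb ((k:ℤ) - 8 * j - r) := by
      intro r hr
      rw [mem_range] at hr
      have e1 : (8 * j + r) / 8 = j := by omega
      have e2 : (k:ℤ) - ((8 * j + r : ℕ) : ℤ) = (k:ℤ) - 8 * j - r := by push_cast; ring
      rw [e1, e2]; ring
    rw [Finset.sum_congr rfl h2, ← Finset.mul_sum]
    congr 1
    have h3 : ∀ r ∈ range 8, P.gb ((k:ℤ) - 8 * j - r)
        = (fun r : ℕ => P.b ((k:ℤ) + 1 - 8 * j - r)) r - (fun r : ℕ => P.b ((k:ℤ) + 1 - 8 * j - r)) (r + 1) := by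
      intro r _
      simp only
      unfold gb gB b
      have e1 : (k:ℤ) - 8 * j - r + 1 = k + 1 - 8 * j - r := by ring
      have e2 : (k:ℤ) + 1 - 8 * j - ((r + 1 : ℕ) : ℤ) = k - 8 * j - r := by push_cast; ring
      rw [e1, e2]
    rw [Finset.sum_congr rfl h3, Finset.sum_range_sub']
    simp only
    congr 2
    · push_cast; ring
    · push_cast; ring
  rw [h1]
  have hσ := P.hσ
  refine (P.L_bound P.σ 64 (by omega) (by norm_num) (by unfold T; ring) (fun x : ℤ => P.b (k + 1 - 8 * x)) (32 * P.σ / (P.M:ℝ)^3) ?_).trans (le_of_eq ?_)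
  · intro x
    have h := pB_anti P.M P.σ P.hM P.hσ (k + 1 - 8 * (x + P.σ))
    have e : (k:ℤ) + 1 - 8 * (x + P.σ) + 8 * P.σ = k + 1 - 8 * x := by ring
    rw [e] at h
    unfold b
    rw [add_comm]; exact h
  · push_cast; ring

end Par

end

end Pool.Agent.C8
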