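import Pool.Agent.C8.Asm

set_option autoImplicit false
set_option linter.unusedSectionVars false

namespace Pool.Agent.C8

open Finset

noncomputable section

namespace Par
variable (P : Par)

def Qp (x : ℤ) : ℝ := P.QA x + P.Qb x
def p (x : ℤ) : ℝ := P.pA x + P.b x

lemma a_right' (x : ℤ) (hx : P.L ≤ x) : P.a x = 0 := by
  apply P.a_right
  have := P.KTz
  have := P.Lz
  omega

lemma Qa_right' (x : ℤ) (hx : 2 * P.L ≤ x) : P.Qa x = 0 := by
  apply P.Qa_supp
  right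
  have := P.KTz
  have := P.Lz
  push_cast
  omega

lemma Qb_zero (x : ℤ) (hx : x ≤ 120 * P.L ∨ 136 * P.L ≤ x) : P.Qb x = 0 := by
  have h3 := P.Lz
  have e1 : P.b (x / 8) = pB P.M P.σ (x / 8) := rfl
  have e2 : P.b (x / 8 + 1) = pB P.M P.σ (x / 8 + 1) := rfl
  unfold Qb QB
  rw [← e1, ← e2]
  rcases hx with h | h
  · by_cases h8 : x % 8 = 0
    · rw [h8, P.b_zero (x / 8) (by omega)]; simp
    · rw [P.b_zero (x / 8) (by omega), P.b_zero (x / 8 + 1) (by omega)]; ring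
  · rw [P.b_zero (x / 8) (by omega), P.b_zero (x / 8 + 1) (by omega)]; ring

lemma Qp_8 (j : ℤ) : P.Qp (8 * j) = 8 * P.p j := by
  unfold Qp p
  rw [P.QA_eq]
  have h1 : (8 * j) % 8 = 0 := by omega
  have h2 : (8 * j) / 8 = j := by omega
  have h3 := QB_8 P.M P.σ j
  unfold Qb b
  rw [h3, h1, h2]; push_cast; ring

lemma p_right (x : ℤ) (hx : (P.N:ℤ) ≤ x) : P.p x = 0 := by
  have := P.Nz
  have := P.Lz
  unfold p pA
  rw [P.a_right' x (by omega), P.a_left _ (by omega), P.b_zero x (by omega)]; ring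

lemma p_left (x : ℤ) (hx : x ≤ 0) : P.p x = 0 := by
  have := P.Nz
  have := P.Lz
  unfold p pA
  rw [P.a_left x (by omega), P.a_right' _ (by omega), P.b_zero x (by omega)]; ring

lemma PP_G (x : ℕ) : PP P.G x = P.Qp x := by
  induction x with
  | zero =>
    rw [PP_zero]
    have := P.Qp_8 0
    rw [P.p_left 0 (le_refl _)] at this
    simpa using this.symm
  | succ k ih =>
    rw [PP_succ, ih]
    unfold Qp G g
    have h1 := P.QA_step (k:ℤ)
    have h2 := QB_step P.M P.σ (k:ℤ)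
    have e1 : ((k / 8 : ℕ) : ℤ) = (k:ℤ) / 8 := by simp
    have e2 : ((k + 1 : ℕ) : ℤ) = k + 1 := by push_cast; ring
    rw [e1, e2]
    unfold Qb gb
    linarith

def Sg : ℝ := ∑ i ∈ range P.N, P.a i * P.Qb (P.N - i)

lemma first_sum : ∑ d ∈ range P.n, (PP P.G P.n - PP P.G (8 * d)) * PP P.G (P.n - d)
    = 8 * ∑ d ∈ range P.n, P.a d * P.Qa d := by
  have hN := P.Nz
  have hL := P.Lz
  have hm : PP P.G P.n = 0 := by
    rw [PP_G]
    have : ((P.n : ℕ) : ℤ) = 8 * P.N := by unfold n; push_cast; ring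
    rw [this, Qp_8, P.p_right _ (le_refl _)]; ring
  rw [hm, Finset.mul_sum]
  refine Finset.sum_congr rfl fun d hd => ?_
  rw [mem_range] at hd
  have hnn : P.n = 8 * P.N := rfl
  rw [PP_G, PP_G]
  have e1 : ((8 * d : ℕ) : ℤ) = 8 * (d:ℤ) := by push_cast; ring
  have e2 : ((P.n - d : ℕ) : ℤ) = 8 * P.N - d := by omega
  rw [e1, e2, Qp_8]
  by_cases h : P.N ≤ d
  · rw [P.p_right d (by omega), P.a_right' d (by omega)]; ring
  · have e3 : P.Qp (8 * P.N - d) = - P.Qa d := by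
      unfold Qp QA
      have e4 : 8 * (P.N:ℤ) - (8 * P.N - d) = d := by ring
      rw [e4, P.Qa_right' _ (by omega), P.Qb_zero _ (by omega)]; ring
    rw [e3]
    by_cases h2 : 2 * (P.L:ℤ) ≤ d
    · rw [P.Qa_right' d h2]; ring
    · unfold p pA
      rw [P.a_right' (P.N - d) (by omega), P.b_zero d (by omega)]; ring

lemma second_sum : ∑ d ∈ range P.n, PP P.G (P.n - 8 * (d + 1)) * (PP P.G P.n - PP P.G (d + 1))
    = - 8 * P.Sg + 8 * ∑ i ∈ range P.N, P.a (P.N - i) * P.Qa (P.N - i) := by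
  have hN := P.Nz
  have hL := P.Lz
  have hnn : P.n = 8 * P.N := rfl
  have hm : PP P.G P.n = 0 := by
    rw [PP_G]
    have : ((P.n : ℕ) : ℤ) = 8 * P.N := by unfold n; push_cast; ring
    rw [this, Qp_8, P.p_right _ (le_refl _)]; ring
  have hsub : ∑ d ∈ range P.N, PP P.G (P.n - 8 * (d + 1)) * (PP P.G P.n - PP P.G (d + 1))
      = ∑ d ∈ range P.n, PP P.G (P.n - 8 * (d + 1)) * (PP P.G P.n - PP P.G (d + 1)) := by
    apply Finset.sum_subset
    · intro x; simp only [mem_range]; omega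
    · intro x _ hx
      rw [mem_range] at hx
      have : P.n - 8 * (x + 1) = 0 := by omega
      rw [this, PP_zero]; ring
  rw [← hsub, hm, ← Finset.sum_range_reflect]
  unfold Sg
  rw [Finset.mul_sum, Finset.mul_sum, ← Finset.sum_add_distrib]
  refine Finset.sum_congr rfl fun i hi => ?_
  rw [mem_range] at hi
  rw [PP_G, PP_G]
  have e1 : ((P.n - 8 * (P.N - 1 - i + 1) : ℕ) : ℤ) = 8 * (i:ℤ) := by omega
  have e2 : ((P.N - 1 - i + 1 : ℕ) : ℤ) = P.N - i := by omega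
  rw [e1, e2, Qp_8]
  have e3 : P.Qp (P.N - i) = P.Qa (P.N - i) + P.Qb (P.N - i) := by
    unfold Qp QA
    rw [P.Qa_right' (8 * P.N - (P.N - i)) (by omega)]; ring
  rw [e3]
  unfold p pA
  have z1 : P.a i * P.Qa (P.N - i) = 0 := by
    by_cases h : (P.L:ℤ) ≤ i
    · rw [P.a_right' i h]; ring
    · rw [P.Qa_right' _ (by omega)]; ring
  have z2 : P.a (P.N - i) * P.Qb (P.N - i) = 0 := by
    by_cases h : (P.L:ℤ) ≤ P.N - i
    · rw [P.a_right' _ h]; ring
    · rw [P.Qb_zero _ (by omega)]; ring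
  have z3 : P.b i * P.Qa (P.N - i) = 0 := by
    by_cases h : 17 * (P.L:ℤ) ≤ i
    · rw [P.b_zero i (by omega)]; ring
    · rw [P.Qa_right' _ (by omega)]; ring
  have z4 : P.b i * P.Qb (P.N - i) = 0 := by
    by_cases h : 15 * (P.L:ℤ) ≤ i
    · rw [P.Qb_zero _ (by omega)]; ring
    · rw [P.b_zero i (by omega)]; ring
  linear_combination (-8) * z1 + 8 * z2 - 8 * z3 - 8 * z4

lemma aQa_sum (m : ℕ) (φ : ℕ → ℤ) (hφ : Function.Injective φ) :
    ∑ k ∈ range m, P.a (φ k) * P.Qa (φ k) ≤ (P.T:ℝ)^3 / (8 * P.K0) := by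
  have hK := P.Kr
  have hT := P.Tr
  have h := supp_sum φ hφ (fun x => P.a x * P.Qa x) ((P.T / (8 * P.K0)) * (P.T / P.K0)) (by positivity) (P.K0 * P.T)
    (by
      intro x
      refine (le_abs_self _).trans ?_
      rw [abs_mul]
      exact mul_le_mul (P.a_abs x) (P.Qa_abs x) (abs_nonneg _) (by positivity))
    (by
      intro x hx
      rw [P.a_supp x hx]; ring) m
  refine h.trans (le_of_eq ?_)
  push_cast; field_simp

lemma cross_bound : ∑ z ∈ range (9 * P.n), 2 * (K P.n (fun _ => 1) (fun _ => 1) z * K P.n P.G P.G z)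
    ≤ 4 * (P.T:ℝ)^3 / P.K0 - 16 * P.Sg := by
  have hK := P.Kr
  have h := S1 P.n P.G (fun i hi => P.G_zero i hi)
  rw [first_sum, second_sum] at h
  have h1 : ∑ z ∈ range (9 * P.n), 2 * (K P.n (fun _ => 1) (fun _ => 1) z * K P.n P.G P.G z)
      = 2 * ∑ z ∈ range (9 * P.n), K P.n P.G P.G z * K P.n (fun _ => 1) (fun _ => 1) z := by
    rw [Finset.mul_sum]
    refine Finset.sum_congr rfl fun z _ => by ring
  rw [h1, h]
  have b1 := P.aQa_sum P.n (fun k => (k:ℤ)) (fun x y h => by simpa using h)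
  have b2 := P.aQa_sum P.N (fun k => (P.N:ℤ) - k) (fun x y h => by simp only at h; omega)
  have e : 4 * (P.T:ℝ)^3 / P.K0 = 32 * ((P.T:ℝ)^3 / (8 * P.K0)) := by field_simp; ring
  rw [e]
  linarith

end Par

end

end Pool.Agent.C8
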