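import Pool.Agent.C8.Two

set_option autoImplicit false
set_option linter.unusedSectionVars false

namespace Pool.Agent.C8

open Finset

noncomputable section

lemma exists_le_avg {α : Type*} [Fintype α] (W : α → ℝ) (hW : ∀ a, 0 ≤ W a) (hsum : ∑ a, W a = 1)
    (m : α → ℝ) (B : ℝ) (h : ∑ a, W a * m a ≤ B) : ∃ a, m a ≤ B := by
  by_contra hcon
  push Not at hcon
  have h1 : ∑ a, W a * (m a - B) = (∑ a, W a * m a) - B := by
    simp only [mul_sub]
    rw [Finset.sum_sub_distrib, ← Finset.sum_mul, hsum, one_mul]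
  have h2 : ∀ a ∈ (Finset.univ : Finset α), 0 ≤ W a * (m a - B) := by
    intro a _
    exact mul_nonneg (hW a) (by linarith [hcon a])
  have h3 : ∑ a, W a * (m a - B) = 0 := le_antisymm (by linarith) (Finset.sum_nonneg h2)
  have h4 := (Finset.sum_eq_zero_iff_of_nonneg h2).mp h3
  have h5 : ∑ a, W a = 0 := by
    apply Finset.sum_eq_zero
    intro a ha
    have := h4 a ha
    rcases mul_eq_zero.mp this with h | h
    · exact h
    · have := hcon a; linarith
  rw [hsum] at h5
  norm_num at h5

section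
variable (n r : ℕ) (w : Fin n → Fin r → ℝ) (hw0 : ∀ x i, 0 ≤ w x i) (hw1 : ∀ x, ∑ i, w x i = 1)

def Wt (c : Fin n → Fin r) : ℝ := ∏ x, w x (c x)

include hw0 in
lemma Wt_nonneg (c : Fin n → Fin r) : 0 ≤ Wt n r w c := Finset.prod_nonneg fun x _ => hw0 x _

include hw1 in
lemma Wt_sum : ∑ c : Fin n → Fin r, Wt n r w c = 1 := by
  have h := Finset.prod_univ_sum (fun _ : Fin n => (Finset.univ : Finset (Fin r))) (fun x i => w x i)
  rw [Fintype.piFinset_univ] at h
  unfold Wt
  rw [← h]
  exact Finset.prod_eq_one fun x _ => hw1 x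

include hw1 in
lemma Wt_event (S : Finset (Fin n)) (i : Fin r) :
    ∑ c : Fin n → Fin r, Wt n r w c * (if ∀ x ∈ S, c x = i then 1 else 0) = ∏ x ∈ S, w x i := by
  have h := Finset.prod_univ_sum (fun _ : Fin n => (Finset.univ : Finset (Fin r)))
    (fun x l => w x l * (if x ∈ S then (if l = i then 1 else 0) else 1))
  rw [Fintype.piFinset_univ] at h
  have h1 : ∀ c : Fin n → Fin r, Wt n r w c * (if ∀ x ∈ S, c x = i then 1 else 0)
      = ∏ x, w x (c x) * (if x ∈ S then (if c x = i then 1 else 0) else 1) := by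
    intro c
    rw [Finset.prod_mul_distrib]
    unfold Wt
    congr 1
    rw [Finset.prod_ite_mem, Finset.univ_inter]
    split_ifs with hc
    · symm
      apply Finset.prod_eq_one
      intro x hx
      rw [if_pos (hc x hx)]
    · push Not at hc
      obtain ⟨x, hx, hne⟩ := hc
      symm
      apply Finset.prod_eq_zero hx
      rw [if_neg hne]
  rw [Finset.sum_congr rfl fun c _ => h1 c, ← h]
  have h2 : ∀ x : Fin n, ∑ l, w x l * (if x ∈ S then (if l = i then 1 else 0) else 1)
      = if x ∈ S then w x i else 1 := by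
    intro x
    split_ifs with hx
    · simp
    · simp only [mul_one]; exact hw1 x
  rw [Finset.prod_congr rfl fun x _ => h2 x, Finset.prod_ite_mem, Finset.univ_inter]

include hw1 in
lemma Wt_mono_inj (x : Fin 4 → Fin n) (hx : Function.Injective x) :
    ∑ c : Fin n → Fin r, Wt n r w c * (if ∀ i j : Fin 4, c (x i) = c (x j) then 1 else 0)
      = ∑ i, ∏ j, w (x j) i := by
  have h1 : ∀ c : Fin n → Fin r, (if ∀ i j : Fin 4, c (x i) = c (x j) then (1:ℝ) else 0)
      = ∑ i, (if ∀ y ∈ Finset.univ.image x, c y = i then 1 else 0) := by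
    intro c
    by_cases h : ∀ i j : Fin 4, c (x i) = c (x j)
    · rw [if_pos h, Finset.sum_eq_single (c (x 0))]
      · rw [if_pos]
        intro y hy
        simp only [mem_image, mem_univ, true_and] at hy
        obtain ⟨j, rfl⟩ := hy
        exact h j 0
      · intro i _ hi
        rw [if_neg]
        intro hcon
        exact hi (hcon (x 0) (by simp)).symm
      · intro h; exact absurd (mem_univ _) h
    · rw [if_neg h]
      symm
      apply Finset.sum_eq_zero
      intro i _
      rw [if_neg]
      intro hcon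
      apply h
      intro a b
      rw [hcon (x a) (by simp), hcon (x b) (by simp)]
  have h2 : ∑ c : Fin n → Fin r, Wt n r w c * (if ∀ i j : Fin 4, c (x i) = c (x j) then 1 else 0)
      = ∑ i, ∑ c : Fin n → Fin r, Wt n r w c * (if ∀ y ∈ Finset.univ.image x, c y = i then 1 else 0) := by
    rw [Finset.sum_comm]
    refine Finset.sum_congr rfl fun c _ => ?_
    rw [h1 c, Finset.mul_sum]
  rw [h2]
  refine Finset.sum_congr rfl fun i _ => ?_
  rw [Wt_event n r w hw1, Finset.prod_image (fun a _ b _ h => hx h)]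

include hw0 hw1 in
lemma Wt_mono_le_one (x : Fin 4 → Fin n) :
    ∑ c : Fin n → Fin r, Wt n r w c * (if ∀ i j : Fin 4, c (x i) = c (x j) then 1 else 0) ≤ 1 := by
  refine le_trans (Finset.sum_le_sum (g := fun c => Wt n r w c) ?_) (le_of_eq (Wt_sum n r w hw1))
  intro c _
  have := Wt_nonneg n r w hw0 c
  split_ifs <;> linarith

end

lemma card_le_sq (n : ℕ) (D : Finset (Fin 4 → Fin n)) (a b : Fin 4)
    (h : ∀ x ∈ D, ∀ y ∈ D, x a = y a → x b = y b → x = y) : D.card ≤ n ^ 2 := by
  have : D.card ≤ (Finset.univ : Finset (Fin n × Fin n)).card := by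
    apply Finset.card_le_card_of_injOn (fun x => (x a, x b))
    · intro x _; simp
    · intro x hx y hy hxy
      simp only [Prod.mk.injEq] at hxy
      exact h x hx y hy hxy.1 hxy.2
  rw [Finset.card_univ, Fintype.card_prod, Fintype.card_fin] at this
  rw [sq]; exact this

lemma ext4 {n : ℕ} (x y : Fin 4 → Fin n) (h0 : (x 0 : ℕ) = y 0) (h1 : (x 1 : ℕ) = y 1)
    (h2 : (x 2 : ℕ) = y 2) (h3 : (x 3 : ℕ) = y 3) : x = y := by
  funext j
  fin_cases j
  · exact Fin.ext h0
  · exact Fin.ext h1
  · exact Fin.ext h2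
  · exact Fin.ext h3

lemma card_noninj (n : ℕ) : ((sol n).filter (fun x => ¬ Function.Injective x)).card ≤ 6 * n ^ 2 := by
  classical
  have hsub : (sol n).filter (fun x => ¬ Function.Injective x) ⊆
      ((sol n).filter (fun x => x 0 = x 1)) ∪ (((sol n).filter (fun x => x 0 = x 2)) ∪
      (((sol n).filter (fun x => x 0 = x 3)) ∪ (((sol n).filter (fun x => x 1 = x 2)) ∪
      (((sol n).filter (fun x => x 1 = x 3)) ∪ ((sol n).filter (fun x => x 2 = x 3)))))) := by
    intro x hx
    rw [mem_filter] at hx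
    obtain ⟨hs, hni⟩ := hx
    simp only [mem_union, mem_filter, hs, true_and]
    by_contra hcon
    push Not at hcon
    obtain ⟨h01, h02, h03, h12, h13, h23⟩ := hcon
    apply hni
    intro a b hab
    fin_cases a <;> fin_cases b <;> simp_all
  refine (Finset.card_le_card hsub).trans ?_
  have c01 : ((sol n).filter (fun x => x 0 = x 1)).card ≤ n ^ 2 := by
    apply card_le_sq n _ 2 3
    intro x hx y hy h1 h2
    rw [mem_filter, mem_sol] at hx hy
    have a1 := congrArg Fin.val hx.2
    have a2 := congrArg Fin.val hy.2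
    have a3 := congrArg Fin.val h1
    have a4 := congrArg Fin.val h2
    have b1 := hx.1
    have b2 := hy.1
    apply ext4 <;> omega
  have c02 : ((sol n).filter (fun x => x 0 = x 2)).card ≤ n ^ 2 := by
    apply card_le_sq n _ 0 1
    intro x hx y hy h1 h2
    rw [mem_filter, mem_sol] at hx hy
    have a1 := congrArg Fin.val hx.2
    have a2 := congrArg Fin.val hy.2
    have a3 := congrArg Fin.val h1
    have a4 := congrArg Fin.val h2
    have b1 := hx.1
    have b2 := hy.1
    apply ext4 <;> omega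
  have c03 : ((sol n).filter (fun x => x 0 = x 3)).card ≤ n ^ 2 := by
    apply card_le_sq n _ 0 2
    intro x hx y hy h1 h2
    rw [mem_filter, mem_sol] at hx hy
    have a1 := congrArg Fin.val hx.2
    have a2 := congrArg Fin.val hy.2
    have a3 := congrArg Fin.val h1
    have a4 := congrArg Fin.val h2
    have b1 := hx.1
    have b2 := hy.1
    apply ext4 <;> omega
  have c12 : ((sol n).filter (fun x => x 1 = x 2)).card ≤ n ^ 2 := by
    apply card_le_sq n _ 0 1
    intro x hx y hy h1 h2
    rw [mem_filter, mem_sol] at hx hy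
    have a1 := congrArg Fin.val hx.2
    have a2 := congrArg Fin.val hy.2
    have a3 := congrArg Fin.val h1
    have a4 := congrArg Fin.val h2
    have b1 := hx.1
    have b2 := hy.1
    apply ext4 <;> omega
  have c13 : ((sol n).filter (fun x => x 1 = x 3)).card ≤ n ^ 2 := by
    apply card_le_sq n _ 0 1
    intro x hx y hy h1 h2
    rw [mem_filter, mem_sol] at hx hy
    have a1 := congrArg Fin.val hx.2
    have a2 := congrArg Fin.val hy.2
    have a3 := congrArg Fin.val h1
    have a4 := congrArg Fin.val h2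
    have b1 := hx.1
    have b2 := hy.1
    apply ext4 <;> omega
  have c23 : ((sol n).filter (fun x => x 2 = x 3)).card ≤ n ^ 2 := by
    apply card_le_sq n _ 0 1
    intro x hx y hy h1 h2
    rw [mem_filter, mem_sol] at hx hy
    have a1 := congrArg Fin.val hx.2
    have a2 := congrArg Fin.val hy.2
    have a3 := congrArg Fin.val h1
    have a4 := congrArg Fin.val h2
    have b1 := hx.1
    have b2 := hy.1
    apply ext4 <;> omega
  have u1 := Finset.card_union_le ((sol n).filter (fun x => x 0 = x 1)) (((sol n).filter (fun x => x 0 = x 2)) ∪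
      (((sol n).filter (fun x => x 0 = x 3)) ∪ (((sol n).filter (fun x => x 1 = x 2)) ∪
      (((sol n).filter (fun x => x 1 = x 3)) ∪ ((sol n).filter (fun x => x 2 = x 3))))))
  have u2 := Finset.card_union_le ((sol n).filter (fun x => x 0 = x 2))
      (((sol n).filter (fun x => x 0 = x 3)) ∪ (((sol n).filter (fun x => x 1 = x 2)) ∪
      (((sol n).filter (fun x => x 1 = x 3)) ∪ ((sol n).filter (fun x => x 2 = x 3)))))
  have u3 := Finset.card_union_le ((sol n).filter (fun x => x 0 = x 3)) (((sol n).filter (fun x => x 1 = x 2)) ∪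
      (((sol n).filter (fun x => x 1 = x 3)) ∪ ((sol n).filter (fun x => x 2 = x 3))))
  have u4 := Finset.card_union_le ((sol n).filter (fun x => x 1 = x 2))
      (((sol n).filter (fun x => x 1 = x 3)) ∪ ((sol n).filter (fun x => x 2 = x 3)))
  have u5 := Finset.card_union_le ((sol n).filter (fun x => x 1 = x 3)) ((sol n).filter (fun x => x 2 = x 3))
  omega

theorem exists_colouring (n r : ℕ) (w : Fin n → Fin r → ℝ) (hw0 : ∀ x i, 0 ≤ w x i) (hw1 : ∀ x, ∑ i, w x i = 1) :
    ∃ c : Fin n → Fin r, ((mono n r c).card : ℝ) ≤ ∑ i, ∑ x ∈ sol n, ∏ j, w (x j) i + 6 * (n:ℝ)^2 := by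
  classical
  apply exists_le_avg (Wt n r w) (Wt_nonneg n r w hw0) (Wt_sum n r w hw1) (fun c => ((mono n r c).card : ℝ))
  have h1 : ∀ c : Fin n → Fin r, ((mono n r c).card : ℝ)
      = ∑ x ∈ sol n, (if ∀ i j : Fin 4, c (x i) = c (x j) then (1:ℝ) else 0) := by
    intro c
    rw [← Finset.sum_filter, Finset.sum_const, nsmul_eq_mul, mul_one]
    congr 2
    unfold mono sol
    rw [Finset.filter_filter]
  have h2 : ∑ c, Wt n r w c * ((mono n r c).card : ℝ)
      = ∑ x ∈ sol n, ∑ c, Wt n r w c * (if ∀ i j : Fin 4, c (x i) = c (x j) then (1:ℝ) else 0) := by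
    rw [Finset.sum_comm]
    refine Finset.sum_congr rfl fun c _ => ?_
    rw [h1 c, Finset.mul_sum]
  rw [h2]
  have h3 : ∀ x ∈ sol n, ∑ c, Wt n r w c * (if ∀ i j : Fin 4, c (x i) = c (x j) then (1:ℝ) else 0)
      ≤ ∑ i, ∏ j, w (x j) i + (if ¬ Function.Injective x then 1 else 0) := by
    intro x _
    by_cases hx : Function.Injective x
    · rw [Wt_mono_inj n r w hw1 x hx, if_neg (not_not.mpr hx), add_zero]
    · rw [if_pos hx]
      have b1 := Wt_mono_le_one n r w hw0 hw1 x
      have b2 : 0 ≤ ∑ i, ∏ j, w (x j) i := Finset.sum_nonneg fun i _ => Finset.prod_nonneg fun j _ => hw0 _ _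
      linarith
  refine (Finset.sum_le_sum h3).trans ?_
  rw [Finset.sum_add_distrib, Finset.sum_comm]
  apply add_le_add_right
  rw [← Finset.sum_filter, Finset.sum_const, nsmul_eq_mul, mul_one]
  exact_mod_cast card_noninj n

end

end Pool.Agent.C8
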