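import Pool.Agent.C8.Sg

set_option autoImplicit false
set_option linter.unusedSectionVars false

namespace Pool.Agent.C8

open Finset

noncomputable section

namespace Par
variable (P : Par)

lemma G_abs (hC : 2 ^ 20 ≤ P.C) (hM : 2 ^ 30 * P.C ^ 2 ≤ P.M) (x : ℕ) : |P.G x| ≤ 1 := by
  unfold G g
  have h1 := P.gA_abs ((x / 8 : ℕ) : ℤ)
  have h2 : |P.gb ((x / 8 : ℕ) : ℤ)| ≤ 2 / P.M := gB_bound P.M P.σ P.hM P.hσ _
  have h3 := abs_add_le (P.gA ((x / 8 : ℕ) : ℤ)) (P.gb ((x / 8 : ℕ) : ℤ))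
  have hMr := Mpos P.M P.σ P.hM P.hσ
  have hM4 : 4 ≤ P.M := by
    have : 1 ≤ P.C ^ 2 := Nat.one_le_pow _ _ P.hC
    omega
  have hK2 : 2 ≤ P.K0 := by
    unfold K0
    have h1 := P.hC
    nlinarith
  have hM4r : (4:ℝ) ≤ P.M := by exact_mod_cast hM4
  have hK2r : (2:ℝ) ≤ P.K0 := by exact_mod_cast hK2
  have b1 : 1 / (P.K0:ℝ) ≤ 1 / 2 := by
    rw [div_le_div_iff₀ (by linarith) (by norm_num)]; linarith
  have b2 : 2 / (P.M:ℝ) ≤ 1 / 2 := by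
    rw [div_le_div_iff₀ (by linarith) (by norm_num)]; linarith
  linarith

lemma F_bound (hC : 2 ^ 20 ≤ P.C) (hM : 2 ^ 30 * P.C ^ 2 ≤ P.M) :
    ∑ z ∈ range (9 * P.n), ((P.X z)^2 + 2 * (K P.n (fun _ => 1) (fun _ => 1) z * K P.n P.G P.G z))
      ≤ -((P.n:ℝ)^3 / (16384 * (P.M:ℝ)^7)) := by
  rw [Finset.sum_add_distrib]
  have h1 := P.S2_bound
  have h2 := P.cross_bound
  have h3 := P.Sg_lower
  have hMr := Mpos P.M P.σ P.hM P.hσ
  have hσr : (0:ℝ) < P.σ := by exact_mod_cast P.hσ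
  have hCr : (0:ℝ) < P.C := by exact_mod_cast P.hC
  have hC20 : (2:ℝ)^20 ≤ P.C := by exact_mod_cast hC
  have hM30 : (2:ℝ)^30 * (P.C:ℝ)^2 ≤ P.M := by exact_mod_cast hM
  have hTr : (P.T:ℝ) = 128 * P.σ := by unfold T; push_cast; ring
  have hKr : (P.K0:ℝ) = P.C * P.M := by unfold K0; push_cast; ring
  have hNr : (P.N:ℝ) = 128 * (P.M:ℝ)^2 * P.σ := by unfold N; push_cast; ring
  have hnr : (P.n:ℝ) = 1024 * (P.M:ℝ)^2 * P.σ := by unfold n N; push_cast; ring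
  rw [hTr] at h1 h2 h3
  rw [hKr] at h1 h2
  rw [hNr] at h1
  set s : ℝ := (P.σ:ℝ)^3 / P.M with hs
  have hspos : 0 < s := by positivity
  -- rewriting
  have e1 : 48 * ((128 * (P.σ:ℝ))^3 / (4 * (P.C * P.M)) + 128 * (128 * (P.σ:ℝ))^3 / (P.C * P.M) + 8 * (128 * (P.σ:ℝ))^3 / (P.C * P.M)
      + (9 * (128 * (P.M:ℝ)^2 * P.σ)) * ((1536 * (P.C * P.M) * P.σ / (P.M:ℝ)^3)^2 + (12288 * (P.C * P.M) * P.σ / (P.M:ℝ)^3)^2
        + (147456 * P.σ / (P.M:ℝ)^2)^2))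
      = 13715374080 * (s / P.C) + 8479876055040 * (s * ((P.C:ℝ)^2 / P.M)) + 1202315964973056 * (s * (1 / P.M)) := by
    rw [hs]; field_simp; ring
  have e2 : 4 * (128 * (P.σ:ℝ))^3 / (P.C * P.M) = 8388608 * (s / P.C) := by
    rw [hs]; field_simp; ring
  have e3 : (128 * (P.σ:ℝ))^3 / (192 * P.M) = (32768 / 3) * s := by
    rw [hs]; field_simp; ring
  have e4 : 1114112 * P.C * (P.σ:ℝ)^3 / (P.M:ℝ)^2 = 1114112 * (s * (P.C / P.M)) := by
    rw [hs]; field_simp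
  have e5 : (P.n:ℝ)^3 / (16384 * (P.M:ℝ)^7) = 65536 * s := by
    rw [hs, hnr]; field_simp; ring
  rw [e1] at h1
  rw [e2] at h2
  rw [e3, e4] at h3
  rw [e5]
  have c1 : s / P.C ≤ s * (1 / 2^20) := by
    rw [div_eq_mul_one_div]
    apply mul_le_mul_of_nonneg_left _ hspos.le
    exact one_div_le_one_div_of_le (by positivity) hC20
  have c2 : s * ((P.C:ℝ)^2 / P.M) ≤ s * (1 / 2^30) := by
    apply mul_le_mul_of_nonneg_left _ hspos.le
    rw [div_le_div_iff₀ hMr (by positivity)]; linarith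
  have hC2 : (2:ℝ)^40 ≤ (P.C:ℝ)^2 := by
    have := pow_le_pow_left₀ (by positivity) hC20 2
    calc (2:ℝ)^40 = (2^20)^2 := by norm_num
      _ ≤ _ := this
  have hM70 : (2:ℝ)^70 ≤ P.M := by
    have : (2:ℝ)^30 * 2^40 ≤ 2^30 * (P.C:ℝ)^2 := mul_le_mul_of_nonneg_left hC2 (by positivity)
    calc (2:ℝ)^70 = 2^30 * 2^40 := by norm_num
      _ ≤ _ := this.trans hM30
  have c3 : s * (1 / P.M) ≤ s * (1 / 2^70) := by
    apply mul_le_mul_of_nonneg_left _ hspos.le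
    exact one_div_le_one_div_of_le (by positivity) hM70
  have c4 : s * (P.C / P.M) ≤ s * (1 / 2^30) := by
    apply mul_le_mul_of_nonneg_left _ hspos.le
    rw [div_le_div_iff₀ hMr (by positivity)]
    have hC1 : (1:ℝ) ≤ P.C := by exact_mod_cast P.hC
    have : (P.C:ℝ) * 1 ≤ P.C * P.C := mul_le_mul_of_nonneg_left hC1 hCr.le
    nlinarith
  norm_num at c1 c2 c3 c4
  simp only [one_div] at h1
  linarith

end Par

end

end Pool.Agent.C8
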