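import Pool.Agent.C8.Fb
import Pool.Agent.C8.Der

set_option autoImplicit false
set_option linter.unusedSectionVars false

namespace Pool.Agent.C8

open Finset

noncomputable section

lemma K_expand (n : ℕ) (G : ℕ → ℝ) (t : ℝ) (z : ℕ) :
    K n (fun x => 1 + t * G x) (fun x => 1 + t * G x) z
      = K n (fun _ => 1) (fun _ => 1) z + t * (K n G (fun _ => 1) z + K n (fun _ => 1) G z)
        + t ^ 2 * K n G G z := by
  unfold K
  rw [← Finset.sum_add_distrib, Finset.mul_sum, Finset.mul_sum, ← Finset.sum_add_distrib, ← Finset.sum_add_distrib]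
  refine Finset.sum_congr rfl fun x _ => ?_
  rw [← Finset.sum_add_distrib, Finset.mul_sum, Finset.mul_sum, ← Finset.sum_add_distrib, ← Finset.sum_add_distrib]
  refine Finset.sum_congr rfl fun y _ => ?_
  split_ifs <;> ring

lemma K_abs (n : ℕ) (f g : ℕ → ℝ) (hf : ∀ x, |f x| ≤ 1) (hg : ∀ x, |g x| ≤ 1) (z : ℕ) : |K n f g z| ≤ n := by
  rw [K_eq]
  refine (Finset.abs_sum_le_sum_abs _ _).trans ?_
  calc _ ≤ ∑ y ∈ range n, (1:ℝ) := by
        apply Finset.sum_le_sum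
        intro y _
        split_ifs
        · rw [abs_mul]
          exact mul_le_one₀ (hf _) (abs_nonneg _) (hg _)
        · simp
    _ = n := by simp

lemma card_sol_upper (n : ℕ) : ((sol n).card : ℝ) ≤ (n:ℝ)^3 := by
  rw [card_sol]
  have h1 : ∀ z ∈ range (9 * n), K n (fun _ => 1) (fun _ => 1) z ^ 2 ≤ n * K n (fun _ => 1) (fun _ => 1) z := by
    intro z _
    rw [sq]
    apply mul_le_mul_of_nonneg_right _ (K_one_nonneg n z)
    have := K_abs n (fun _ => 1) (fun _ => 1) (by simp) (by simp) z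
    exact (le_abs_self _).trans this
  refine (Finset.sum_le_sum h1).trans ?_
  rw [← Finset.mul_sum, sum_K_one]
  exact le_of_eq (by ring)

/-- value of the fractional colouring -/
lemma Phi_total (n R : ℕ) (hR : 0 < R) (G : ℕ → ℝ) (hG : ∀ x, |G x| ≤ 1) :
    ∑ z ∈ range (9 * n), (K n (fun x => 1 + 1 * G x) (fun x => 1 + 1 * G x) z) ^ 2
      + R * ∑ z ∈ range (9 * n), (K n (fun x => 1 + (-(1 / (R:ℝ))) * G x) (fun x => 1 + (-(1 / (R:ℝ))) * G x) z) ^ 2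
    ≤ (R + 1) * (sol n).card
      + ∑ z ∈ range (9 * n), ((K n G (fun _ => 1) z + K n (fun _ => 1) G z + K n G G z)^2
          + 2 * (K n (fun _ => 1) (fun _ => 1) z * K n G G z))
      + 99 * (n:ℝ)^3 / R := by
  have hRr : (0:ℝ) < R := by exact_mod_cast hR
  have hR1 : (1:ℝ) ≤ R := by exact_mod_cast hR
  rw [card_sol]
  have hpt : ∀ z ∈ range (9 * n),
      (K n (fun x => 1 + 1 * G x) (fun x => 1 + 1 * G x) z) ^ 2
      + R * (K n (fun x => 1 + (-(1 / (R:ℝ))) * G x) (fun x => 1 + (-(1 / (R:ℝ))) * G x) z) ^ 2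
      ≤ (R + 1) * (K n (fun _ => 1) (fun _ => 1) z ^ 2)
        + ((K n G (fun _ => 1) z + K n (fun _ => 1) G z + K n G G z)^2
          + 2 * (K n (fun _ => 1) (fun _ => 1) z * K n G G z)) + 11 * (n:ℝ)^2 / R := by
    intro z _
    rw [K_expand, K_expand]
    have hA := K_abs n (fun _ => 1) (fun _ => 1) (by simp) (by simp) z
    have hB1 := K_abs n G (fun _ => 1) hG (by simp) z
    have hB2 := K_abs n (fun _ => 1) G (by simp) hG z
    have hD := K_abs n G G hG hG z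
    set A := K n (fun _ => 1) (fun _ => 1) z
    set B1 := K n G (fun _ => 1) z
    set B2 := K n (fun _ => 1) G z
    set D := K n G G z
    set τ : ℝ := 1 / (R:ℝ) with hτ
    have hτ0 : 0 ≤ τ := by positivity
    have hτ1 : τ ≤ 1 := by rw [hτ, div_le_one hRr]; exact hR1
    have hRτ : (R:ℝ) * τ = 1 := by rw [hτ]; field_simp
    have hn0 : (0:ℝ) ≤ n := by positivity
    have h1 : 2 * (A * D) + (B1 + B2 - τ * D)^2 ≤ 11 * (n:ℝ)^2 := by
      have a1 : A * D ≤ (n:ℝ)^2 := by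
        have : |A * D| ≤ n * n := by rw [abs_mul]; exact mul_le_mul hA hD (abs_nonneg _) hn0
        have := (le_abs_self (A * D)).trans this
        linarith [sq (n:ℝ)]
      have a2 : |B1 + B2 - τ * D| ≤ 3 * n := by
        have b1 := abs_sub (B1 + B2) (τ * D)
        have b2 := abs_add_le B1 B2
        have b3 : |τ * D| ≤ 1 * n := by
          rw [abs_mul, abs_of_nonneg hτ0]
          exact mul_le_mul hτ1 hD (abs_nonneg _) (by norm_num)
        linarith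
      have a3 : (B1 + B2 - τ * D)^2 ≤ (3 * n)^2 := sq_le_sq' (abs_le.mp a2).1 (abs_le.mp a2).2
      nlinarith
    have h2 : 11 * (n:ℝ)^2 / R = τ * (11 * (n:ℝ)^2) := by rw [hτ]; ring
    rw [h2]
    have h3 := mul_le_mul_of_nonneg_left h1 hτ0
    have e : (A + 1 * (B1 + B2) + 1 ^ 2 * D)^2 + R * (A + (-τ) * (B1 + B2) + (-τ)^2 * D)^2
        = (R + 1) * A^2 + ((B1 + B2 + D)^2 + 2 * (A * D)) + τ * (2 * (A * D) + (B1 + B2 - τ * D)^2)
          + (1 - R * τ) * (2 * A * (B1 + B2) - τ * (2 * (A * D) + (B1 + B2 - τ * D)^2)) := by ring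
    rw [e, hRτ]
    linarith
  have hsum := Finset.sum_le_sum hpt
  rw [Finset.sum_add_distrib, Finset.sum_add_distrib, Finset.sum_add_distrib, ← Finset.mul_sum, ← Finset.mul_sum,
    Finset.sum_const, card_range, nsmul_eq_mul] at hsum
  refine hsum.trans (le_of_eq ?_)
  push_cast; ring

lemma frac_bound (n R : ℕ) (hR : 0 < R) (G : ℕ → ℝ) (hG : ∀ x, |G x| ≤ 1) :
    ∃ c : Fin n → Fin (R + 1), ((mono n (R + 1) c).card : ℝ) ≤
      ((R + 1) * (sol n).card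
      + ∑ z ∈ range (9 * n), ((K n G (fun _ => 1) z + K n (fun _ => 1) G z + K n G G z)^2
          + 2 * (K n (fun _ => 1) (fun _ => 1) z * K n G G z))
      + 99 * (n:ℝ)^3 / R) / ((R:ℝ) + 1)^4 + 6 * (n:ℝ)^2 := by
  have hRr : (0:ℝ) < R := by exact_mod_cast hR
  have hR1 : (1:ℝ) ≤ R := by exact_mod_cast hR
  have hτ0 : (0:ℝ) ≤ 1 / (R:ℝ) := by positivity
  have hτ1 : 1 / (R:ℝ) ≤ 1 := by rw [div_le_one hRr]; exact hR1
  obtain ⟨c, hc⟩ := exists_colouring n (R + 1)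
    (fun x i => if i = 0 then (1 + 1 * G x) / ((R:ℝ) + 1) else (1 + (-(1 / (R:ℝ))) * G x) / ((R:ℝ) + 1))
    (by
      intro x i
      have hg := abs_le.mp (hG x)
      split_ifs
      · apply div_nonneg _ (by positivity)
        linarith [hg.1]
      · apply div_nonneg _ (by positivity)
        have : |(-(1 / (R:ℝ))) * G x| ≤ 1 * 1 := by
          rw [abs_mul, abs_neg, abs_of_nonneg hτ0]
          exact mul_le_mul hτ1 (hG x) (abs_nonneg _) (by norm_num)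
        linarith [(abs_le.mp this).1])
    (by
      intro x
      rw [Fin.sum_univ_succ]
      simp only [if_true, Fin.succ_ne_zero, if_false, Finset.sum_const, Finset.card_univ, Fintype.card_fin, nsmul_eq_mul]
      field_simp
      ring)
  refine ⟨c, hc.trans ?_⟩
  have hT := Phi_total n R hR G hG
  have hphi : ∀ t : ℝ, ∑ x ∈ sol n, ∏ j : Fin 4, (1 + t * G (x j)) / ((R:ℝ) + 1)
      = (∑ z ∈ range (9 * n), (K n (fun x => 1 + t * G x) (fun x => 1 + t * G x) z) ^ 2) / ((R:ℝ) + 1)^4 := by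
    intro t
    have h := sum_sol n (fun x => 1 + t * G x) (fun x => 1 + t * G x) (fun x => 1 + t * G x) (fun x => 1 + t * G x)
    have h2 : ∑ z ∈ range (9 * n), (K n (fun x => 1 + t * G x) (fun x => 1 + t * G x) z) ^ 2
        = ∑ z ∈ range (9 * n), K n (fun x => 1 + t * G x) (fun x => 1 + t * G x) z
            * K n (fun x => 1 + t * G x) (fun x => 1 + t * G x) z :=
      Finset.sum_congr rfl fun z _ => sq _
    rw [h2, ← h, Finset.sum_div]
    refine Finset.sum_congr rfl fun x _ => ?_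
    rw [Fin.prod_univ_four]
    field_simp
  rw [Fin.sum_univ_succ]
  simp only [if_true, Fin.succ_ne_zero, if_false, Finset.sum_const, Finset.card_univ, Fintype.card_fin, nsmul_eq_mul]
  rw [hphi 1, hphi (-(1 / (R:ℝ)))]
  have h5 : ∀ a b : ℝ, a / ((R:ℝ) + 1)^4 + R * (b / ((R:ℝ) + 1)^4) = (a + R * b) / ((R:ℝ) + 1)^4 := by
    intro a b; ring
  rw [h5]
  have := div_le_div_of_nonneg_right hT (by positivity : (0:ℝ) ≤ ((R:ℝ) + 1)^4)
  linarith

theorem r_uncommon : ∃ r : ℕ, 3 ≤ r ∧ ∃ ε : ℝ, 0 < ε ∧ ∀ N0 : ℕ, ∃ n : ℕ, N0 ≤ n ∧ ∃ c : Fin n → Fin r,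
    ((mono n r c).card : ℝ) < (((r : ℝ) ^ (4 - 1))⁻¹ - ε) * ((sol n).card : ℝ) := by
  obtain ⟨C, hC⟩ : ∃ C : ℕ, 2 ^ 20 ≤ C := ⟨_, le_refl _⟩
  obtain ⟨M, hM⟩ : ∃ M : ℕ, 2 ^ 30 * C ^ 2 ≤ M := ⟨_, le_refl _⟩
  have hC0 : 0 < C := by omega
  have hCC : C ≤ C ^ 2 := by nlinarith
  have hM2 : 2 ≤ M := by omega
  have hMC : 1000 * C ≤ M := by omega
  obtain ⟨R, hRdef⟩ : ∃ R : ℕ, R = 198 * 16384 * M ^ 7 := ⟨_, rfl⟩
  have hM7 : 1 ≤ M ^ 7 := Nat.one_le_pow _ _ (by omega)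
  have hR2 : 2 ≤ R := by omega
  have hMr : (0:ℝ) < M := by
    have : 0 < M := by omega
    exact_mod_cast this
  have hRr : (0:ℝ) < R := by
    have : 0 < R := by omega
    exact_mod_cast this
  have hRR : (R:ℝ) = 198 * 16384 * (M:ℝ)^7 := by rw [hRdef]; push_cast; ring
  refine ⟨R + 1, by omega, 1 / (4 * 16384 * (M:ℝ)^7 * ((R:ℝ) + 1)^4), by positivity, ?_⟩
  intro N0
  obtain ⟨σ, hσdef⟩ : ∃ σ : ℕ, σ = N0 + 24 * 16384 * M ^ 7 * (R + 1) ^ 4 + 1 := ⟨_, rfl⟩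
  have hσ0 : 0 < σ := by omega
  let P : Par := ⟨C, M, σ, hC0, hM2, hMC, hσ0⟩
  have hnσ : σ ≤ P.n := by
    show σ ≤ 8 * (128 * M ^ 2 * σ)
    have : 1 ≤ M ^ 2 := Nat.one_le_pow _ _ (by omega)
    nlinarith
  obtain ⟨c, hc⟩ := frac_bound P.n R (by omega) P.G (P.G_abs hC hM)
  have hF := P.F_bound hC hM
  refine ⟨P.n, by omega, c, ?_⟩
  have hPM : (P.M : ℝ) = M := rfl
  rw [hPM] at hF
  have hF' : ∑ z ∈ range (9 * P.n), ((K P.n P.G (fun _ => 1) z + K P.n (fun _ => 1) P.G z + K P.n P.G P.G z)^2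
          + 2 * (K P.n (fun _ => 1) (fun _ => 1) z * K P.n P.G P.G z)) ≤ -((P.n:ℝ)^3 / (16384 * (M:ℝ)^7)) := hF
  have hsol := card_sol_upper P.n
  have hnbig : (24 * 16384 * (M:ℝ)^7 * ((R:ℝ) + 1)^4) < P.n := by
    have h1 : 24 * 16384 * M ^ 7 * (R + 1) ^ 4 < P.n := by omega
    exact_mod_cast h1
  generalize P.n = n at *
  have hnpos : (0:ℝ) < n := lt_of_le_of_lt (by positivity) hnbig
  set S : ℝ := ((sol n).card : ℝ) with hS
  have hS0 : 0 ≤ S := by positivity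
  set q : ℝ := 1 / (16384 * (M:ℝ)^7) with hq
  have hqpos : 0 < q := by positivity
  have e1 : (n:ℝ)^3 / (16384 * (M:ℝ)^7) = q * (n:ℝ)^3 := by rw [hq]; ring
  rw [e1] at hF'
  have e2 : 99 * (n:ℝ)^3 / R = (q / 2) * (n:ℝ)^3 := by rw [hRR, hq]; field_simp; norm_num
  rw [e2] at hc
  have e3 : 1 / (4 * 16384 * (M:ℝ)^7 * ((R:ℝ) + 1)^4) = (q / 4) / ((R:ℝ) + 1)^4 := by rw [hq]; field_simp
  rw [e3]
  set ρ : ℝ := (R:ℝ) + 1 with hρ
  have hρpos : 0 < ρ := by positivity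
  have h6 : ((mono n (R + 1) c).card : ℝ) ≤ (ρ * S - (q / 2) * (n:ℝ)^3) / ρ^4 + 6 * (n:ℝ)^2 := by
    refine hc.trans ?_
    have : (ρ * S + ∑ z ∈ range (9 * n), ((K n P.G (fun _ => 1) z + K n (fun _ => 1) P.G z + K n P.G P.G z)^2
          + 2 * (K n (fun _ => 1) (fun _ => 1) z * K n P.G P.G z)) + (q / 2) * (n:ℝ)^3) / ρ^4
        ≤ (ρ * S - (q / 2) * (n:ℝ)^3) / ρ^4 := by
      apply div_le_div_of_nonneg_right _ (by positivity)
      linarith
    linarith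
  have hcast : (((R + 1 : ℕ) : ℝ)) = ρ := by rw [hρ]; push_cast; ring
  rw [hcast]
  refine lt_of_le_of_lt h6 ?_
  have e4 : ((ρ ^ (4 - 1))⁻¹ - (q / 4) / ρ^4) * S = (ρ * S - (q / 4) * S) / ρ^4 := by
    norm_num; field_simp
  rw [e4]
  have h7 : (q / 4) * S ≤ (q / 4) * (n:ℝ)^3 := mul_le_mul_of_nonneg_left hsol (by positivity)
  have h8 : 6 * (n:ℝ)^2 < ((q / 4) * (n:ℝ)^3) / ρ^4 := by
    rw [lt_div_iff₀ (by positivity)]
    have h9 : 24 * ρ^4 < q * n := by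
      have : q * (24 * 16384 * (M:ℝ)^7 * ρ^4) < q * n := mul_lt_mul_of_pos_left hnbig hqpos
      have e5 : q * (24 * 16384 * (M:ℝ)^7 * ρ^4) = 24 * ρ^4 := by rw [hq]; field_simp
      rw [e5] at this; exact this
    have h10 : (n:ℝ)^2 * (24 * ρ^4) < (n:ℝ)^2 * (q * n) := mul_lt_mul_of_pos_left h9 (by positivity)
    nlinarith
  have h11 : (ρ * S - (q / 2) * (n:ℝ)^3) / ρ^4 + ((q / 4) * (n:ℝ)^3) / ρ^4 ≤ (ρ * S - (q / 4) * S) / ρ^4 := by
    rw [← add_div]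
    apply div_le_div_of_nonneg_right _ (by positivity)
    linarith
  linarith

end

end Pool.Agent.C8
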