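import Mathlib

set_option autoImplicit false

namespace Pool.Agent.C8

open Finset

noncomputable section

lemma emod_add_cases (T c x : ℤ) (hT : 0 < T) (hc : 0 ≤ c) (hcT : c ≤ T) :
    (x % T + c < T ∧ (x + c) % T = x % T + c) ∨ (T ≤ x % T + c ∧ (x + c) % T = x % T + c - T) := by
  have h0 := Int.emod_nonneg x hT.ne'
  have h1 := Int.emod_lt_of_pos x hT
  have h2 : x + c = (x % T + c) + T * (x / T) := by
    have := Int.emod_add_mul_ediv x T
    linarith
  by_cases h : x % T + c < T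
  · left
    refine ⟨h, ?_⟩
    calc (x + c) % T = ((x % T + c) + T * (x / T)) % T := by rw [← h2]
      _ = (x % T + c) % T := Int.add_mul_emod_self_left _ _ _
      _ = x % T + c := Int.emod_eq_of_lt (by omega) h
  · right
    refine ⟨by omega, ?_⟩
    have h3 : x + c = (x % T + c - T) + T * (x / T + 1) := by rw [mul_add]; linarith
    calc (x + c) % T = ((x % T + c - T) + T * (x / T + 1)) % T := by rw [← h3]
      _ = (x % T + c - T) % T := Int.add_mul_emod_self_left _ _ _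
      _ = x % T + c - T := Int.emod_eq_of_lt (by omega) (by omega)

/-! ### the layer function `a` -/

def aF (K0 T : ℕ) (x : ℤ) : ℝ :=
  if 0 ≤ x ∧ x ≤ K0 * T then
    -((((x % T : ℤ) : ℝ)) * (T - ((x % T : ℤ) : ℝ))) / (2 * K0 * T) else 0

def sF (K0 T : ℕ) (x : ℤ) : ℝ := aF K0 T (x + 1) - aF K0 T x

section aF
variable (K0 T : ℕ) (hK : 0 < K0) (hT : 0 < T)
include hK hT

lemma aF_zero_left (x : ℤ) (hx : x ≤ 0) : aF K0 T x = 0 := by
  unfold aF
  split_ifs with h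
  · have : x = 0 := by omega
    subst this; simp
  · rfl

lemma aF_zero_right (x : ℤ) (hx : (K0 : ℤ) * T ≤ x) : aF K0 T x = 0 := by
  unfold aF
  split_ifs with h
  · have : x = (K0 : ℤ) * T := by omega
    subst this; simp
  · rfl

lemma aF_nonpos (x : ℤ) : aF K0 T x ≤ 0 := by
  have hTz : (0:ℤ) < T := by exact_mod_cast hT
  unfold aF
  split_ifs with h
  · have h0 := Int.emod_nonneg x hTz.ne'
    have h1 := Int.emod_lt_of_pos x hTz
    have h0' : (0:ℝ) ≤ ((x % T : ℤ) : ℝ) := by exact_mod_cast h0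
    have h1' : ((x % T : ℤ) : ℝ) ≤ T := by exact_mod_cast h1.le
    apply div_nonpos_of_nonpos_of_nonneg
    · have : 0 ≤ ((x % T : ℤ) : ℝ) * (T - ((x % T : ℤ) : ℝ)) := mul_nonneg h0' (by linarith)
      linarith
    · positivity
  · exact le_refl _

lemma aF_bound (x : ℤ) : |aF K0 T x| ≤ T / (8 * K0) := by
  have hTz : (0:ℤ) < T := by exact_mod_cast hT
  have hTr : (0:ℝ) < T := by exact_mod_cast hT
  have hKr : (0:ℝ) < K0 := by exact_mod_cast hK
  rw [abs_of_nonpos (aF_nonpos K0 T hK hT x)]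
  unfold aF
  split_ifs with h
  · rw [neg_div, neg_neg, div_le_div_iff₀ (by positivity) (by positivity)]
    nlinarith [sq_nonneg (((x % T : ℤ) : ℝ) - T / 2), mul_pos hKr hTr]
  · simp; positivity

lemma sF_val (m y : ℕ) (hm : m < K0) (hy : y < T) :
    sF K0 T ((m * T + y : ℕ) : ℤ) = (2 * (y:ℝ) + 1 - T) / (2 * K0 * T) := by
  have hTz : (0:ℤ) < T := by exact_mod_cast hT
  have hTr : (0:ℝ) < T := by exact_mod_cast hT
  have hKr : (0:ℝ) < K0 := by exact_mod_cast hK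
  have hx0 : (0:ℤ) ≤ ((m * T + y : ℕ) : ℤ) := by positivity
  have hxN : m * T + y + 1 ≤ K0 * T := by
    have : (m + 1) * T ≤ K0 * T := Nat.mul_le_mul_right T hm
    nlinarith
  have hx1 : ((m * T + y : ℕ) : ℤ) + 1 ≤ (K0 : ℤ) * T := by exact_mod_cast hxN
  have hmod : ((m * T + y : ℕ) : ℤ) % T = y := by
    push_cast
    rw [add_comm, Int.add_mul_emod_self_right]
    exact Int.emod_eq_of_lt (by positivity) (by exact_mod_cast hy)
  unfold sF aF
  rw [if_pos ⟨by omega, hx1⟩, if_pos ⟨hx0, by omega⟩, hmod]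
  rcases emod_add_cases T 1 ((m * T + y : ℕ) : ℤ) hTz (by norm_num) (by omega) with ⟨h1, h2⟩ | ⟨h1, h2⟩
  · rw [h2, hmod]; push_cast; field_simp; ring
  · rw [hmod] at h1
    rw [h2, hmod]
    have hyT : (y:ℤ) + 1 = T := by omega
    have hyTr : (y:ℝ) = T - 1 := by
      have : (y:ℝ) + 1 = T := by exact_mod_cast hyT
      linarith
    push_cast
    rw [hyTr]; field_simp; ring

lemma sF_zero_left (x : ℤ) (hx : x < 0) : sF K0 T x = 0 := by
  unfold sF
  rw [aF_zero_left K0 T hK hT _ (by omega), aF_zero_left K0 T hK hT _ (by omega)]; ring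

lemma sF_zero_right (x : ℤ) (hx : (K0 : ℤ) * T ≤ x) : sF K0 T x = 0 := by
  unfold sF
  rw [aF_zero_right K0 T hK hT _ (by omega), aF_zero_right K0 T hK hT _ (by omega)]; ring

lemma sF_bound (x : ℤ) : |sF K0 T x| ≤ 1 / (2 * K0) := by
  have hTr : (0:ℝ) < T := by exact_mod_cast hT
  have hKr : (0:ℝ) < K0 := by exact_mod_cast hK
  by_cases h0 : x < 0
  · rw [sF_zero_left K0 T hK hT x h0]; simp
  by_cases h1 : (K0 : ℤ) * T ≤ x
  · rw [sF_zero_right K0 T hK hT x h1]; simp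
  push_neg at h0 h1
  obtain ⟨n, rfl⟩ := Int.eq_ofNat_of_zero_le h0
  have hn : n < K0 * T := by exact_mod_cast h1
  have hdm := Nat.div_add_mod n T
  have hmod := Nat.mod_lt n hT
  have hdiv : n / T < K0 := by
    rw [Nat.div_lt_iff_lt_mul hT]; exact hn
  have hrw : (n : ℤ) = (((n / T) * T + n % T : ℕ) : ℤ) := by
    have : n = (n / T) * T + n % T := by rw [mul_comm]; omega
    exact_mod_cast this
  have := sF_val K0 T hK hT (n / T) (n % T) hdiv hmod
  rw [hrw, this, abs_div, abs_of_pos (by positivity : (0:ℝ) < 2 * K0 * T), div_le_div_iff₀ (by positivity) (by positivity)]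
  have hy1 : ((n % T : ℕ) : ℝ) + 1 ≤ T := by exact_mod_cast hmod
  have hy0 : (0:ℝ) ≤ ((n % T : ℕ) : ℝ) := by positivity
  have : |2 * ((n % T : ℕ) : ℝ) + 1 - T| ≤ T := by
    rw [abs_le]; constructor <;> linarith
  nlinarith

end aF

/-! ### triangle wave -/

def wZ (σ : ℕ) (x : ℤ) : ℤ := 32 * σ - min (x % (128 * σ)) (128 * σ - x % (128 * σ))

section wZ
variable (σ : ℕ) (hσ : 0 < σ)
include hσ

lemma wZ_abs (x : ℤ) : |wZ σ x| ≤ 32 * σ := by
  have h0 := Int.emod_nonneg x (by omega : (128 * (σ:ℤ)) ≠ 0)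
  have h1 := Int.emod_lt_of_pos x (by omega : 0 < (128 * (σ:ℤ)))
  unfold wZ
  rw [abs_le]; omega

lemma wZ_anti (x : ℤ) : wZ σ (x + 64 * σ) = - wZ σ x := by
  have h0 := Int.emod_nonneg x (by omega : (128 * (σ:ℤ)) ≠ 0)
  have h1 := Int.emod_lt_of_pos x (by omega : 0 < (128 * (σ:ℤ)))
  unfold wZ
  rcases emod_add_cases (128 * σ) (64 * σ) x (by omega) (by omega) (by omega) with ⟨h2, h3⟩ | ⟨h2, h3⟩
  · rw [h3]; omega
  · rw [h3]; omega

lemma mod8 (j : ℤ) : (8 * j) % (128 * (σ:ℤ)) = 8 * (j % (16 * σ)) := by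
  have : (128 * (σ:ℤ)) = 8 * (16 * σ) := by ring
  rw [this, Int.mul_emod_mul_of_pos _ _ (by norm_num)]

lemma wZ_step (j : ℤ) : |wZ σ (8 * (j + 1)) - wZ σ (8 * j)| ≤ 8 := by
  have h0 := Int.emod_nonneg j (by omega : (16 * (σ:ℤ)) ≠ 0)
  have h1 := Int.emod_lt_of_pos j (by omega : 0 < (16 * (σ:ℤ)))
  unfold wZ
  rw [mod8 σ hσ, mod8 σ hσ]
  rcases emod_add_cases (16 * σ) 1 j (by omega) (by omega) (by omega) with ⟨h2, h3⟩ | ⟨h2, h3⟩
  · rw [h3, abs_le]; omega
  · rw [h3, abs_le]; omega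

lemma wZ_lin (j r : ℤ) (hr0 : 0 ≤ r) (hr8 : r < 8) :
    8 * wZ σ (8 * j + r) = (8 - r) * wZ σ (8 * j) + r * wZ σ (8 * (j + 1)) := by
  have h0 := Int.emod_nonneg j (by omega : (16 * (σ:ℤ)) ≠ 0)
  have h1 := Int.emod_lt_of_pos j (by omega : 0 < (16 * (σ:ℤ)))
  have h8 := mod8 σ hσ j
  have hw0 : wZ σ (8 * j) = 32 * σ - min (8 * (j % (16 * σ))) (128 * σ - 8 * (j % (16 * σ))) := by
    unfold wZ; rw [h8]
  have hwr : wZ σ (8 * j + r) = 32 * σ - min (8 * (j % (16 * σ)) + r) (128 * σ - (8 * (j % (16 * σ)) + r)) := by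
    unfold wZ
    rcases emod_add_cases (128 * σ) r (8 * j) (by omega) (by omega) (by omega) with ⟨h2, h3⟩ | ⟨h2, h3⟩
    · rw [h3, h8]
    · rw [h8] at h2; omega
  have hw8 : wZ σ (8 * (j + 1)) = 32 * σ - min (8 * (j % (16 * σ)) + 8) (128 * σ - (8 * (j % (16 * σ)) + 8)) := by
    unfold wZ
    rw [mod8 σ hσ]
    rcases emod_add_cases (16 * σ) 1 j (by omega) (by omega) (by omega) with ⟨h2, h3⟩ | ⟨h2, h3⟩
    · rw [h3]; congr 2 <;> ring
    · rw [h3]; omega
  rw [hw0, hwr, hw8]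
  generalize j % (16 * (σ:ℤ)) = u at *
  by_cases hc : 8 * u + 8 ≤ 64 * σ
  · rw [min_eq_left (by omega), min_eq_left (by omega), min_eq_left (by omega)]; ring
  · have hc' : 64 * (σ:ℤ) ≤ 8 * u := by omega
    rw [min_eq_right (by omega), min_eq_right (by omega), min_eq_right (by omega)]; ring

end wZ

end

end Pool.Agent.C8
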