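import Pool.Agent.C8.Fun

set_option autoImplicit false
set_option linter.unusedSectionVars false

namespace Pool.Agent.C8

open Finset

noncomputable section

def LL (M σ : ℕ) : ℝ := (M:ℝ)^2 * (σ:ℝ)

def env (M σ : ℕ) (x : ℤ) : ℝ := max (1 - |(x:ℝ) - 16 * LL M σ| / LL M σ) 0

def pB (M σ : ℕ) (x : ℤ) : ℝ := env M σ x * ((wZ σ (8 * x) : ℤ) : ℝ) / (8 * (M:ℝ))

def gB (M σ : ℕ) (x : ℤ) : ℝ := pB M σ (x + 1) - pB M σ x

def QB (M σ : ℕ) (x : ℤ) : ℝ :=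
  (8 - ((x % 8 : ℤ) : ℝ)) * pB M σ (x / 8) + ((x % 8 : ℤ) : ℝ) * pB M σ (x / 8 + 1)

variable (M σ : ℕ) (hM : 2 ≤ M) (hσ : 0 < σ)
include hM hσ

lemma LL_pos : 0 < LL M σ := by
  unfold LL
  have : 0 < M := by omega
  positivity

lemma env_nonneg (x : ℤ) : 0 ≤ env M σ x := le_max_right _ _

lemma env_le_one (x : ℤ) : env M σ x ≤ 1 := by
  have hL := LL_pos M σ hM hσ
  unfold env
  apply max_le _ (by norm_num)
  have : 0 ≤ |(x:ℝ) - 16 * LL M σ| / LL M σ := by positivity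
  linarith

lemma env_lip (x y : ℤ) : |env M σ x - env M σ y| ≤ |(x:ℝ) - (y:ℝ)| / LL M σ := by
  have hL := LL_pos M σ hM hσ
  unfold env
  refine (abs_max_sub_max_le_abs _ _ _).trans ?_
  have e : (1 - |(x:ℝ) - 16 * LL M σ| / LL M σ) - (1 - |(y:ℝ) - 16 * LL M σ| / LL M σ)
      = -((|(x:ℝ) - 16 * LL M σ| - |(y:ℝ) - 16 * LL M σ|) / LL M σ) := by ring
  rw [e, abs_neg, abs_div, abs_of_pos hL]
  apply div_le_div_of_nonneg_right _ hL.le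
  have := abs_abs_sub_abs_le ((x:ℝ) - 16 * LL M σ) ((y:ℝ) - 16 * LL M σ)
  refine this.trans (le_of_eq ?_)
  congr 1; ring

lemma env_zero (x : ℤ) (hx : LL M σ ≤ |(x:ℝ) - 16 * LL M σ|) : env M σ x = 0 := by
  have hL := LL_pos M σ hM hσ
  unfold env
  apply max_eq_right
  have : 1 ≤ |(x:ℝ) - 16 * LL M σ| / LL M σ := by rw [le_div_iff₀ hL]; linarith
  linarith

lemma env_one (x : ℤ) : 1 - env M σ x ≤ |(x:ℝ) - 16 * LL M σ| / LL M σ := by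
  have : 1 - |(x:ℝ) - 16 * LL M σ| / LL M σ ≤ env M σ x := le_max_left _ _
  linarith

lemma wR_abs (x : ℤ) : |((wZ σ x : ℤ) : ℝ)| ≤ 32 * σ := by
  have := wZ_abs σ hσ x
  exact_mod_cast this

lemma Mpos : (0:ℝ) < M := by
  have : 0 < M := by omega
  exact_mod_cast this

lemma pB_bound (x : ℤ) : |pB M σ x| ≤ 4 * σ / M := by
  have h1 := wR_abs M σ hM hσ (8 * x)
  have h2 := env_nonneg M σ hM hσ x
  have h3 := env_le_one M σ hM hσ x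
  have hMr := Mpos M σ hM hσ
  unfold pB
  rw [abs_div, abs_mul, abs_of_nonneg h2, abs_of_pos (by positivity : (0:ℝ) < 8 * M),
    div_le_div_iff₀ (by positivity) hMr]
  have : env M σ x * |((wZ σ (8 * x) : ℤ) : ℝ)| ≤ 1 * (32 * σ) :=
    mul_le_mul h3 h1 (abs_nonneg _) (by norm_num)
  nlinarith

lemma pB_zero (x : ℤ) (hx : LL M σ ≤ |(x:ℝ) - 16 * LL M σ|) : pB M σ x = 0 := by
  unfold pB; rw [env_zero M σ hM hσ x hx]; simp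

lemma w_anti' (x : ℤ) : ((wZ σ (8 * (x + 8 * σ)) : ℤ) : ℝ) = - ((wZ σ (8 * x) : ℤ) : ℝ) := by
  have h := wZ_anti σ hσ (8 * x)
  have e : 8 * (x + 8 * (σ:ℤ)) = 8 * x + 64 * σ := by ring
  rw [e, h]; push_cast; ring

lemma env_shift (x : ℤ) : |env M σ x - env M σ (x + 8 * σ)| ≤ 8 / (M:ℝ)^2 := by
  have hMr := Mpos M σ hM hσ
  have hσr : (0:ℝ) < σ := by exact_mod_cast hσ
  have h2 := env_lip M σ hM hσ x (x + 8 * σ)
  have h3 : |(x:ℝ) - ((x + 8 * σ : ℤ) : ℝ)| = 8 * σ := by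
    push_cast
    have : (x:ℝ) - (x + 8 * σ) = -(8 * σ) := by ring
    rw [this, abs_neg, abs_of_pos (by positivity)]
  rw [h3] at h2
  refine h2.trans (le_of_eq ?_)
  unfold LL; field_simp

lemma env_step (x : ℤ) : |env M σ (x + 1) - env M σ x| ≤ 1 / LL M σ := by
  have := env_lip M σ hM hσ (x + 1) x
  refine this.trans (le_of_eq ?_)
  congr 1
  push_cast
  have : (x:ℝ) + 1 - x = 1 := by ring
  rw [this, abs_one]

lemma pB_anti (x : ℤ) : |pB M σ x + pB M σ (x + 8 * σ)| ≤ 32 * σ / (M:ℝ)^3 := by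
  have hMr := Mpos M σ hM hσ
  have h1 := wR_abs M σ hM hσ (8 * x)
  have h2 := env_shift M σ hM hσ x
  have e : pB M σ x + pB M σ (x + 8 * σ) = (env M σ x - env M σ (x + 8 * σ)) * ((wZ σ (8 * x) : ℤ) : ℝ) / (8 * M) := by
    unfold pB; rw [w_anti' M σ hM hσ]; ring
  rw [e, abs_div, abs_mul, abs_of_pos (by positivity : (0:ℝ) < 8 * M)]
  have h4 : |env M σ x - env M σ (x + 8 * σ)| * |((wZ σ (8 * x) : ℤ) : ℝ)| ≤ (8 / (M:ℝ)^2) * (32 * σ) :=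
    mul_le_mul h2 h1 (abs_nonneg _) (by positivity)
  rw [div_le_iff₀ (by positivity)]
  refine h4.trans (le_of_eq ?_)
  field_simp

lemma wstep (x : ℤ) : |((wZ σ (8 * (x + 1)) : ℤ) : ℝ) - ((wZ σ (8 * x) : ℤ) : ℝ)| ≤ 8 := by
  have := wZ_step σ hσ x
  exact_mod_cast this

lemma gB_bound (x : ℤ) : |gB M σ x| ≤ 2 / M := by
  have hMr := Mpos M σ hM hσ
  have hM2 : (2:ℝ) ≤ M := by exact_mod_cast hM
  have hσr : (0:ℝ) < σ := by exact_mod_cast hσ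
  have h1 := wstep M σ hM hσ x
  have h2 := env_step M σ hM hσ x
  have h3 := wR_abs M σ hM hσ (8 * x)
  have h4 := env_nonneg M σ hM hσ (x + 1)
  have h5 := env_le_one M σ hM hσ (x + 1)
  have e : gB M σ x = (env M σ (x + 1) * (((wZ σ (8 * (x + 1)) : ℤ) : ℝ) - ((wZ σ (8 * x) : ℤ) : ℝ))
      + (env M σ (x + 1) - env M σ x) * ((wZ σ (8 * x) : ℤ) : ℝ)) / (8 * M) := by
    unfold gB pB; ring
  rw [e, abs_div, abs_of_pos (by positivity : (0:ℝ) < 8 * M), div_le_div_iff₀ (by positivity) hMr]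
  have b0 := abs_add_le (env M σ (x + 1) * (((wZ σ (8 * (x + 1)) : ℤ) : ℝ) - ((wZ σ (8 * x) : ℤ) : ℝ)))
    ((env M σ (x + 1) - env M σ x) * ((wZ σ (8 * x) : ℤ) : ℝ))
  rw [abs_mul, abs_mul, abs_of_nonneg h4] at b0
  have b1 : env M σ (x + 1) * |((wZ σ (8 * (x + 1)) : ℤ) : ℝ) - ((wZ σ (8 * x) : ℤ) : ℝ)| ≤ 1 * 8 :=
    mul_le_mul h5 h1 (abs_nonneg _) (by norm_num)
  have b2 : |env M σ (x + 1) - env M σ x| * |((wZ σ (8 * x) : ℤ) : ℝ)| ≤ (1 / LL M σ) * (32 * σ) :=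
    mul_le_mul h2 h3 (abs_nonneg _) (by have := LL_pos M σ hM hσ; positivity)
  have b3 : (1 / LL M σ) * (32 * σ) ≤ 8 := by
    unfold LL
    have : (1 / ((M:ℝ)^2 * σ)) * (32 * σ) = 32 / (M:ℝ)^2 := by field_simp
    rw [this, div_le_iff₀ (by positivity)]; nlinarith
  nlinarith

lemma gB_anti (x : ℤ) : |gB M σ x + gB M σ (x + 8 * σ)| ≤ 16 / (M:ℝ)^3 := by
  have hMr := Mpos M σ hM hσ
  have hσr : (0:ℝ) < σ := by exact_mod_cast hσ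
  have h1 := wstep M σ hM hσ x
  have h3 := wR_abs M σ hM hσ (8 * x)
  have h4 := env_shift M σ hM hσ (x + 1)
  have h5 := env_step M σ hM hσ x
  have h6 := env_step M σ hM hσ (x + 8 * σ)
  have e : gB M σ x + gB M σ (x + 8 * σ)
      = ((env M σ (x + 1) - env M σ (x + 1 + 8 * σ)) * (((wZ σ (8 * (x + 1)) : ℤ) : ℝ) - ((wZ σ (8 * x) : ℤ) : ℝ))
      + ((env M σ (x + 1) - env M σ x) - (env M σ (x + 8 * σ + 1) - env M σ (x + 8 * σ))) * ((wZ σ (8 * x) : ℤ) : ℝ)) / (8 * M) := by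
    have e1 : x + 8 * (σ:ℤ) + 1 = x + 1 + 8 * σ := by ring
    unfold gB pB
    rw [e1, w_anti' M σ hM hσ x, w_anti' M σ hM hσ (x + 1)]; ring
  rw [e, abs_div, abs_of_pos (by positivity : (0:ℝ) < 8 * M), div_le_iff₀ (by positivity)]
  have b0 := abs_add_le ((env M σ (x + 1) - env M σ (x + 1 + 8 * σ)) * (((wZ σ (8 * (x + 1)) : ℤ) : ℝ) - ((wZ σ (8 * x) : ℤ) : ℝ)))
      (((env M σ (x + 1) - env M σ x) - (env M σ (x + 8 * σ + 1) - env M σ (x + 8 * σ))) * ((wZ σ (8 * x) : ℤ) : ℝ))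
  rw [abs_mul, abs_mul] at b0
  have b4 := abs_sub (env M σ (x + 1) - env M σ x) (env M σ (x + 8 * σ + 1) - env M σ (x + 8 * σ))
  have b1 : |env M σ (x + 1) - env M σ (x + 1 + 8 * σ)| * |((wZ σ (8 * (x + 1)) : ℤ) : ℝ) - ((wZ σ (8 * x) : ℤ) : ℝ)|
      ≤ (8 / (M:ℝ)^2) * 8 := mul_le_mul h4 h1 (abs_nonneg _) (by positivity)
  have hL := LL_pos M σ hM hσ
  have b2 : |(env M σ (x + 1) - env M σ x) - (env M σ (x + 8 * σ + 1) - env M σ (x + 8 * σ))| * |((wZ σ (8 * x) : ℤ) : ℝ)|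
      ≤ (2 * (1 / LL M σ)) * (32 * σ) :=
    mul_le_mul (by linarith) h3 (abs_nonneg _) (by positivity)
  have b3 : (2 * (1 / LL M σ)) * (32 * σ) = 64 / (M:ℝ)^2 := by
    unfold LL; field_simp; norm_num
  have b5 : 16 / (M:ℝ)^3 * (8 * M) = 128 / (M:ℝ)^2 := by field_simp; norm_num
  rw [b5]
  have b6 : (8 / (M:ℝ)^2) * 8 = 64 / (M:ℝ)^2 := by ring
  have b7 : 128 / (M:ℝ)^2 = 64 / (M:ℝ)^2 + 64 / (M:ℝ)^2 := by ring
  linarith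

lemma gB_64 (x : ℤ) : |gB M σ x - gB M σ (x + 64 * σ)| ≤ 128 / (M:ℝ)^3 := by
  have h := fun i : ℤ => gB_anti M σ hM hσ (x + i * (8 * σ))
  have e : gB M σ x - gB M σ (x + 64 * σ)
      = (gB M σ (x + 0 * (8 * σ)) + gB M σ (x + 0 * (8 * σ) + 8 * σ))
      - (gB M σ (x + 1 * (8 * σ)) + gB M σ (x + 1 * (8 * σ) + 8 * σ))
      + (gB M σ (x + 2 * (8 * σ)) + gB M σ (x + 2 * (8 * σ) + 8 * σ))
      - (gB M σ (x + 3 * (8 * σ)) + gB M σ (x + 3 * (8 * σ) + 8 * σ))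
      + (gB M σ (x + 4 * (8 * σ)) + gB M σ (x + 4 * (8 * σ) + 8 * σ))
      - (gB M σ (x + 5 * (8 * σ)) + gB M σ (x + 5 * (8 * σ) + 8 * σ))
      + (gB M σ (x + 6 * (8 * σ)) + gB M σ (x + 6 * (8 * σ) + 8 * σ))
      - (gB M σ (x + 7 * (8 * σ)) + gB M σ (x + 7 * (8 * σ) + 8 * σ)) := by
    have e0 : x + 0 * (8 * (σ:ℤ)) = x := by ring
    have e1 : x + 0 * (8 * (σ:ℤ)) + 8 * σ = x + 1 * (8 * σ) := by ring
    have e2 : x + 1 * (8 * (σ:ℤ)) + 8 * σ = x + 2 * (8 * σ) := by ring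
    have e3 : x + 2 * (8 * (σ:ℤ)) + 8 * σ = x + 3 * (8 * σ) := by ring
    have e4 : x + 3 * (8 * (σ:ℤ)) + 8 * σ = x + 4 * (8 * σ) := by ring
    have e5 : x + 4 * (8 * (σ:ℤ)) + 8 * σ = x + 5 * (8 * σ) := by ring
    have e6 : x + 5 * (8 * (σ:ℤ)) + 8 * σ = x + 6 * (8 * σ) := by ring
    have e7 : x + 6 * (8 * (σ:ℤ)) + 8 * σ = x + 7 * (8 * σ) := by ring
    have e8 : x + 7 * (8 * (σ:ℤ)) + 8 * σ = x + 64 * σ := by ring
    rw [e1, e2, e3, e4, e5, e6, e7, e8, e0]; ring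
  rw [e]
  have a0 := abs_le.mp (h 0)
  have a1 := abs_le.mp (h 1)
  have a2 := abs_le.mp (h 2)
  have a3 := abs_le.mp (h 3)
  have a4 := abs_le.mp (h 4)
  have a5 := abs_le.mp (h 5)
  have a6 := abs_le.mp (h 6)
  have a7 := abs_le.mp (h 7)
  have e9 : 128 / (M:ℝ)^3 = 8 * (16 / (M:ℝ)^3) := by ring
  rw [abs_le, e9]
  constructor <;> linarith [a0.1, a0.2, a1.1, a1.2, a2.1, a2.2, a3.1, a3.2, a4.1, a4.2, a5.1, a5.2, a6.1, a6.2, a7.1, a7.2]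

omit hM hσ in
lemma QB_step (x : ℤ) : QB M σ (x + 1) - QB M σ x = gB M σ (x / 8) := by
  unfold QB gB
  rcases (by omega : (x % 8 < 7 ∧ (x + 1) % 8 = x % 8 + 1 ∧ (x + 1) / 8 = x / 8) ∨
    (x % 8 = 7 ∧ (x + 1) % 8 = 0 ∧ (x + 1) / 8 = x / 8 + 1)) with ⟨_, h2, h3⟩ | ⟨h1, h2, h3⟩
  · rw [h2, h3]; push_cast; ring
  · rw [h2, h3, h1]; push_cast; ring

omit hM hσ in
lemma QB_8 (j : ℤ) : QB M σ (8 * j) = 8 * pB M σ j := by
  unfold QB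
  have h1 : (8 * j) % 8 = 0 := by omega
  have h2 : (8 * j) / 8 = j := by omega
  rw [h1, h2]; push_cast; ring

lemma QB_anti (x : ℤ) : |QB M σ x + QB M σ (x + 64 * σ)| ≤ 256 * σ / (M:ℝ)^3 := by
  have h1 := pB_anti M σ hM hσ (x / 8)
  have h2 := pB_anti M σ hM hσ (x / 8 + 1)
  have e1 : (x + 64 * (σ:ℤ)) / 8 = x / 8 + 8 * σ := by omega
  have e2 : (x + 64 * (σ:ℤ)) % 8 = x % 8 := by omega
  have e3 : x / 8 + 8 * (σ:ℤ) + 1 = x / 8 + 1 + 8 * σ := by ring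
  unfold QB
  rw [e1, e2, e3]
  have hr0 : (0:ℝ) ≤ ((x % 8 : ℤ) : ℝ) := by
    have : 0 ≤ x % 8 := by omega
    exact_mod_cast this
  have hr8 : ((x % 8 : ℤ) : ℝ) ≤ 8 := by
    have : x % 8 ≤ 8 := by omega
    exact_mod_cast this
  have e4 : (8 - ((x % 8 : ℤ) : ℝ)) * pB M σ (x / 8) + ((x % 8 : ℤ) : ℝ) * pB M σ (x / 8 + 1)
      + ((8 - ((x % 8 : ℤ) : ℝ)) * pB M σ (x / 8 + 8 * σ) + ((x % 8 : ℤ) : ℝ) * pB M σ (x / 8 + 1 + 8 * σ))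
      = (8 - ((x % 8 : ℤ) : ℝ)) * (pB M σ (x / 8) + pB M σ (x / 8 + 8 * σ))
      + ((x % 8 : ℤ) : ℝ) * (pB M σ (x / 8 + 1) + pB M σ (x / 8 + 1 + 8 * σ)) := by ring
  rw [e4]
  have b0 := abs_add_le ((8 - ((x % 8 : ℤ) : ℝ)) * (pB M σ (x / 8) + pB M σ (x / 8 + 8 * σ)))
      (((x % 8 : ℤ) : ℝ) * (pB M σ (x / 8 + 1) + pB M σ (x / 8 + 1 + 8 * σ)))
  rw [abs_mul, abs_mul, abs_of_nonneg hr0, abs_of_nonneg (by linarith : (0:ℝ) ≤ 8 - ((x % 8 : ℤ) : ℝ))] at b0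
  have b1 := mul_le_mul_of_nonneg_left h1 (by linarith : (0:ℝ) ≤ 8 - ((x % 8 : ℤ) : ℝ))
  have b2 := mul_le_mul_of_nonneg_left h2 hr0
  have e5 : 256 * (σ:ℝ) / (M:ℝ)^3 = 8 * (32 * σ / (M:ℝ)^3) := by ring
  rw [e5]
  nlinarith

end

end Pool.Agent.C8
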