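import Pool.Agent.C8.Base

set_option autoImplicit false

namespace Pool.Agent.C8

open Finset

noncomputable section

lemma sum_K_mul (n : ℕ) (f g H : ℕ → ℝ) :
    ∑ z ∈ range (9 * n), K n f g z * H z
      = ∑ x ∈ range n, ∑ y ∈ range n, f x * g y * H (x + 8 * y) := by
  simp only [K, Finset.sum_mul]
  rw [Finset.sum_comm]
  refine Finset.sum_congr rfl fun a ha => ?_
  rw [Finset.sum_comm]
  refine Finset.sum_congr rfl fun b hb => ?_
  rw [mem_range] at ha hb
  have hmem : a + 8 * b ∈ range (9 * n) := by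
    rw [mem_range]; omega
  rw [Finset.sum_eq_single_of_mem (a + 8 * b) hmem]
  · rw [if_pos rfl]
  · intro z _ hz
    have h'' : ¬ (a + 8 * b = z) := fun h' => hz h'.symm
    rw [if_neg h'']; ring

/-- evaluate K by y. -/
lemma K_eq (n : ℕ) (f g : ℕ → ℝ) (z : ℕ) :
    K n f g z = ∑ y ∈ range n, if 8 * y ≤ z ∧ z < 8 * y + n then f (z - 8 * y) * g y else 0 := by
  rw [K, Finset.sum_comm]
  refine Finset.sum_congr rfl fun y hy => ?_
  split_ifs with h
  · rw [Finset.sum_eq_single_of_mem (z - 8 * y) (by rw [mem_range]; omega)]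
    · rw [if_pos (by omega)]
    · intro x _ hx
      rw [if_neg (by omega)]
  · apply Finset.sum_eq_zero
    intro x hx
    rw [mem_range] at hx
    rw [if_neg (by omega)]

/-- primitive -/
def PP (e : ℕ → ℝ) (j : ℕ) : ℝ := ∑ i ∈ range j, e i

lemma PP_zero (e : ℕ → ℝ) : PP e 0 = 0 := by simp [PP]

lemma PP_succ (e : ℕ → ℝ) (j : ℕ) : PP e (j + 1) = PP e j + e j := by
  simp [PP, Finset.sum_range_succ]

lemma PP_const (e : ℕ → ℝ) (n : ℕ) (he : ∀ i, n ≤ i → e i = 0) (j : ℕ) (hj : n ≤ j) :
    PP e j = PP e n := by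
  induction j, hj using Nat.le_induction with
  | base => rfl
  | succ k hk ih => rw [PP_succ, ih, he k hk, add_zero]

lemma sum_if_lt (e : ℕ → ℝ) (n a : ℕ) (he : ∀ i, n ≤ i → e i = 0) :
    ∑ x ∈ range n, (if x < a then e x else 0) = PP e a := by
  rw [← Finset.sum_filter, PP]
  rcases le_total a n with h | h
  · apply Finset.sum_congr _ (fun _ _ => rfl)
    ext x; simp; omega
  · have : PP e a = PP e n := PP_const e n he a h
    rw [PP, PP] at this
    rw [this]
    apply Finset.sum_congr _ (fun _ _ => rfl)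
    ext x; simp; omega

lemma sum_if_ge (e : ℕ → ℝ) (n a : ℕ) (he : ∀ i, n ≤ i → e i = 0) :
    ∑ x ∈ range n, (if a ≤ x then e x else 0) = PP e n - PP e a := by
  have h := sum_if_lt e n a he
  rw [← h]
  rw [PP, ← Finset.sum_sub_distrib]
  refine Finset.sum_congr rfl fun x _ => ?_
  by_cases hx : x < a
  · rw [if_pos hx, if_neg (by omega)]; ring
  · rw [if_neg hx, if_pos (by omega)]; ring

lemma S1 (n : ℕ) (e : ℕ → ℝ) (he : ∀ i, n ≤ i → e i = 0) :
    ∑ z ∈ range (9 * n), K n e e z * K n (fun _ => 1) (fun _ => 1) z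
      = ∑ d ∈ range n, (PP e n - PP e (8 * d)) * PP e (n - d)
        + ∑ d ∈ range n, PP e (n - 8 * (d + 1)) * (PP e n - PP e (d + 1)) := by
  rw [sum_K_mul]
  have h1 : ∑ x ∈ range n, ∑ y ∈ range n,
        e x * e y * K n (fun _ => 1) (fun _ => 1) (x + 8 * y)
      = ∑ y' ∈ range n, e y' * ∑ y ∈ range n,
          (if y' ≤ y then PP e n - PP e (8 * (y - y')) else PP e (n - 8 * (y' - y))) := by
    rw [Finset.sum_comm]
    refine Finset.sum_congr rfl fun y' hy' => ?_
    have h2 : ∀ x ∈ range n, e x * e y' * K n (fun _ => 1) (fun _ => 1) (x + 8 * y')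
        = ∑ y ∈ range n, e y' * (if 8 * y ≤ x + 8 * y' ∧ x + 8 * y' < 8 * y + n then e x else 0) := by
      intro x hx
      rw [K_eq, Finset.mul_sum]
      refine Finset.sum_congr rfl fun y _ => ?_
      split_ifs <;> ring
    rw [Finset.sum_congr rfl h2, Finset.sum_comm, Finset.mul_sum]
    refine Finset.sum_congr rfl fun y hy => ?_
    rw [← Finset.mul_sum]
    congr 1
    by_cases hyy : y' ≤ y
    · rw [if_pos hyy, ← sum_if_ge e n (8 * (y - y')) he]
      refine Finset.sum_congr rfl fun x hx => ?_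
      rw [mem_range] at hx
      by_cases h : 8 * (y - y') ≤ x
      · rw [if_pos h, if_pos (by omega)]
      · rw [if_neg h, if_neg (by omega)]
    · rw [if_neg hyy, ← sum_if_lt e n (n - 8 * (y' - y)) he]
      refine Finset.sum_congr rfl fun x hx => ?_
      rw [mem_range] at hx
      by_cases h : x < n - 8 * (y' - y)
      · rw [if_pos h, if_pos (by omega)]
      · rw [if_neg h, if_neg (by omega)]
  rw [h1]
  have h3 : ∀ y' ∈ range n, e y' * ∑ y ∈ range n,
          (if y' ≤ y then PP e n - PP e (8 * (y - y')) else PP e (n - 8 * (y' - y)))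
      = ∑ d ∈ range (n - y'), e y' * (PP e n - PP e (8 * d))
        + ∑ d ∈ range y', e y' * PP e (n - 8 * (d + 1)) := by
    intro y' hy'
    rw [mem_range] at hy'
    have hn : n = y' + (n - y') := by omega
    have : ∑ y ∈ range n,
          (if y' ≤ y then PP e n - PP e (8 * (y - y')) else PP e (n - 8 * (y' - y)))
        = ∑ y ∈ range y', PP e (n - 8 * (y' - y)) + ∑ d ∈ range (n - y'), (PP e n - PP e (8 * d)) := by
      conv_lhs => rw [hn, Finset.sum_range_add]
      congr 1
      · refine Finset.sum_congr rfl fun y hy => ?_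
        rw [mem_range] at hy
        rw [if_neg (by omega)]
        congr 2
        omega
      · refine Finset.sum_congr rfl fun y hy => ?_
        rw [if_pos (by omega)]
        congr 3
        · omega
        · omega
    rw [this, mul_add, Finset.mul_sum, Finset.mul_sum, add_comm]
    congr 1
    rw [← Finset.sum_range_reflect]
    refine Finset.sum_congr rfl fun d hd => ?_
    rw [mem_range] at hd
    congr 3
    omega
  rw [Finset.sum_congr rfl h3, Finset.sum_add_distrib]
  congr 1
  · have : ∑ y' ∈ range n, ∑ d ∈ range (n - y'), e y' * (PP e n - PP e (8 * d))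
        = ∑ d ∈ range n, ∑ y' ∈ range (n - d), e y' * (PP e n - PP e (8 * d)) := by
      apply Finset.sum_comm'
      intro x y
      simp only [mem_range]
      omega
    rw [this]
    refine Finset.sum_congr rfl fun d _ => ?_
    rw [← Finset.sum_mul, mul_comm, PP, PP, PP]
  · have : ∑ y' ∈ range n, ∑ d ∈ range y', e y' * PP e (n - 8 * (d + 1))
        = ∑ d ∈ range n, ∑ y' ∈ Ico (d + 1) n, e y' * PP e (n - 8 * (d + 1)) := by
      apply Finset.sum_comm'
      intro x y
      simp only [mem_range, mem_Ico]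
      omega
    rw [this]
    refine Finset.sum_congr rfl fun d hd => ?_
    rw [mem_range] at hd
    rw [← Finset.sum_mul, Finset.sum_Ico_eq_sub _ (by omega), mul_comm, PP, PP, PP]

end

end Pool.Agent.C8
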