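import Pool.Agent.C8.Cross

set_option autoImplicit false
set_option linter.unusedSectionVars false

namespace Pool.Agent.C8

open Finset

noncomputable section

lemma polyA (h : ℝ) (m : ℕ) : ∑ y ∈ range m, (y:ℝ) * (2 * h - y) * (y - h / 2)
    = -((m:ℝ)^2 * (m - 1)^2) / 4 + (5 * h / 12) * ((m - 1) * m * (2 * m - 1)) - h^2 * m * (m - 1) / 2 := by
  induction m with
  | zero => simp
  | succ k ih => rw [Finset.sum_range_succ, ih]; push_cast; ring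

lemma polyB (h : ℝ) (m : ℕ) : ∑ y ∈ range m, (h + (y:ℝ)) * (h - y) * ((h - y) - h / 2)
    = m * h^3 / 2 - h^2 * m * (m - 1) / 2 - (h / 12) * ((m - 1) * m * (2 * m - 1)) + ((m:ℝ)^2 * (m - 1)^2) / 4 := by
  induction m with
  | zero => simp
  | succ k ih => rw [Finset.sum_range_succ, ih]; push_cast; ring

lemma poly_main (H : ℕ) : ∑ y ∈ range (2 * H), (y:ℝ) * (2 * H - y) * (min (y:ℝ) (2 * H - y) - H / 2)
    = (H:ℝ)^2 * ((H:ℝ)^2 + 2) / 6 := by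
  rw [two_mul, Finset.sum_range_add]
  have h1 : ∀ y ∈ range H, (y:ℝ) * (2 * H - y) * (min (y:ℝ) (2 * H - y) - H / 2)
      = (y:ℝ) * (2 * H - y) * (y - H / 2) := by
    intro y hy
    rw [mem_range] at hy
    have : (y:ℝ) ≤ H := by exact_mod_cast hy.le
    rw [min_eq_left (by linarith)]
  have h2 : ∀ y ∈ range H, ((H + y : ℕ):ℝ) * (2 * H - ((H + y : ℕ):ℝ)) * (min ((H + y : ℕ):ℝ) (2 * H - ((H + y : ℕ):ℝ)) - H / 2)
      = ((H:ℝ) + (y:ℝ)) * (H - y) * ((H - y) - H / 2) := by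
    intro y hy
    push_cast
    rw [min_eq_right (by have : (0:ℝ) ≤ y := by positivity
                         linarith)]
    ring
  rw [Finset.sum_congr rfl h1, Finset.sum_congr rfl h2, polyA, polyB]
  ring

lemma wZ_refl (σ : ℕ) (_hσ : 0 < σ) (q : ℤ) (y : ℤ) (h0 : 0 ≤ y) (h1 : y < 128 * σ) :
    wZ σ (128 * σ * q - y) = 32 * σ - min y (128 * σ - y) := by
  unfold wZ
  rcases h0.eq_or_lt with h | h
  · subst h
    have : (128 * (σ:ℤ) * q - 0) % (128 * σ) = 0 := by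
      rw [sub_zero]; exact Int.mul_emod_right _ _
    rw [this]
  · have e : 128 * (σ:ℤ) * q - y = (128 * σ - y) + 128 * σ * (q - 1) := by ring
    have : (128 * (σ:ℤ) * q - y) % (128 * σ) = 128 * σ - y := by
      rw [e, Int.add_mul_emod_self_left]
      exact Int.emod_eq_of_lt (by omega) (by omega)
    rw [this]
    omega

namespace Par
variable (P : Par)

lemma a_val (m y : ℕ) (hm : m < P.K0) (hy : y < P.T) :
    P.a ((m * P.T + y : ℕ) : ℤ) = -((y:ℝ) * (P.T - y)) / (2 * P.K0 * P.T) := by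
  have hTz : (0:ℤ) < P.T := by exact_mod_cast P.hT
  have hxN : m * P.T + y ≤ P.K0 * P.T := by
    have : (m + 1) * P.T ≤ P.K0 * P.T := Nat.mul_le_mul_right P.T hm
    nlinarith
  have hmod : ((m * P.T + y : ℕ) : ℤ) % P.T = y := by
    push_cast
    rw [add_comm, Int.add_mul_emod_self_right]
    exact Int.emod_eq_of_lt (by positivity) (by exact_mod_cast hy)
  unfold a aF
  rw [if_pos ⟨by positivity, by exact_mod_cast hxN⟩, hmod]
  push_cast; ring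

def wm (i : ℤ) : ℝ := ((wZ P.σ (P.N - i) : ℤ) : ℝ)

lemma wm_val (m y : ℕ) (hy : y < P.T) :
    P.wm ((m * P.T + y : ℕ) : ℤ) = P.T / 4 - min (y:ℝ) (P.T - y) := by
  unfold wm
  have hTe : (P.T : ℤ) = 128 * P.σ := by unfold T; push_cast; ring
  have e : (P.N:ℤ) - ((m * P.T + y : ℕ) : ℤ) = 128 * P.σ * ((P.M:ℤ)^2 - m) - y := by
    unfold N T; push_cast; ring
  rw [e, wZ_refl P.σ P.hσ _ _ (by positivity) (by rw [← hTe]; exact_mod_cast hy)]
  have hTr : (P.T : ℝ) = 128 * P.σ := by unfold T; push_cast; ring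
  rw [hTr]
  push_cast; ring

lemma main_sum : (P.T:ℝ)^3 / 192 ≤ ∑ i ∈ range (P.K0 * P.T), P.a i * P.wm i := by
  have hK := P.Kr
  have hT := P.Tr
  rw [sum_range_mul_blocks (fun i => P.a i * P.wm i)]
  have h1 : ∀ m ∈ range P.K0, ∑ y ∈ range P.T, P.a ((m * P.T + y : ℕ) : ℤ) * P.wm ((m * P.T + y : ℕ) : ℤ)
      = (1 / (2 * P.K0 * P.T)) * (((64 * P.σ : ℕ):ℝ)^2 * (((64 * P.σ : ℕ):ℝ)^2 + 2) / 6) := by
    intro m hm
    rw [mem_range] at hm
    rw [← poly_main, Finset.mul_sum]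
    have hTT : P.T = 2 * (64 * P.σ) := by unfold T; ring
    have hTr : (P.T:ℝ) = 2 * ((64 * P.σ : ℕ):ℝ) := by rw [hTT]; push_cast; ring
    rw [← hTT]
    refine Finset.sum_congr rfl fun y hy => ?_
    rw [mem_range] at hy
    rw [P.a_val m y hm hy, P.wm_val m y hy]
    rw [← hTr]
    have : ((64 * P.σ : ℕ):ℝ) / 2 = P.T / 4 := by rw [hTr]; ring
    rw [this]; ring
  rw [Finset.sum_congr rfl h1, Finset.sum_const, card_range, nsmul_eq_mul]
  have hTr : ((64 * P.σ : ℕ):ℝ) = P.T / 2 := by unfold T; push_cast; ring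
  rw [hTr]
  have e : (P.K0:ℝ) * ((1 / (2 * P.K0 * P.T)) * ((P.T / 2)^2 * ((P.T / 2)^2 + 2) / 6))
      = (P.T:ℝ)^3 / 192 + P.T / 24 := by field_simp; ring
  rw [e]
  have : (0:ℝ) ≤ P.T / 24 := by positivity
  linarith

lemma Qb_approx (i : ℕ) (hi : i ≤ P.K0 * P.T) : |P.Qb (P.N - i) - P.wm i / P.M| ≤ 544 * P.C * P.σ / (P.M:ℝ)^2 := by
  have hM := Mpos P.M P.σ P.hM P.hσ
  have hσ1 : (1:ℝ) ≤ P.σ := by exact_mod_cast P.hσ
  have hC1 : (1:ℝ) ≤ P.C := by exact_mod_cast P.hC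
  have hM1 : (1:ℝ) ≤ P.M := by
    have := P.hM
    have : 1 ≤ P.M := by omega
    exact_mod_cast this
  set z : ℤ := P.N - i with hz
  set j : ℤ := z / 8 with hj
  set r : ℤ := z % 8 with hr
  have hr0 : 0 ≤ r := by omega
  have hr8 : r < 8 := by omega
  have hzj : z = 8 * j + r := by omega
  have hlin := wZ_lin P.σ P.hσ j r hr0 hr8
  rw [← hzj] at hlin
  have hlinR : 8 * ((wZ P.σ z : ℤ) : ℝ) = (8 - (r:ℝ)) * ((wZ P.σ (8 * j) : ℤ) : ℝ) + (r:ℝ) * ((wZ P.σ (8 * (j + 1)) : ℤ) : ℝ) := by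
    exact_mod_cast hlin
  have hr0R : (0:ℝ) ≤ (r:ℝ) := by exact_mod_cast hr0
  have hr8R : (r:ℝ) ≤ 8 := by exact_mod_cast hr8.le
  -- envelope
  have henv : ∀ x : ℤ, (x = j ∨ x = j + 1) → |env P.M P.σ x - 1| ≤ 17 * P.C / P.M := by
    intro x hx
    have h1 := env_one P.M P.σ P.hM P.hσ x
    have h2 := env_le_one P.M P.σ P.hM P.hσ x
    rw [abs_of_nonpos (by linarith)]
    have hN := P.Nz
    have h3 : 8 * |x - 16 * (P.L:ℤ)| ≤ P.K0 * P.T + 8 := by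
      have hi' : (i:ℤ) ≤ P.K0 * P.T := by exact_mod_cast hi
      rcases abs_cases (x - 16 * (P.L:ℤ)) with ⟨h, _⟩ | ⟨h, _⟩ <;> rw [h] <;> rcases hx with hx | hx <;> omega
    have h3R : 8 * |(x:ℝ) - 16 * (P.L:ℝ)| ≤ P.K0 * P.T + 8 := by exact_mod_cast h3
    have h4 : (P.K0:ℝ) * P.T + 8 ≤ 136 * (P.C * P.M * P.σ) := by
      unfold K0 T
      push_cast
      have : (1:ℝ) ≤ P.C * P.M * P.σ := by
        have : (1:ℝ) ≤ P.C * P.M := by nlinarith
        nlinarith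
      nlinarith
    have h5 : |(x:ℝ) - 16 * LL P.M P.σ| / LL P.M P.σ ≤ 17 * P.C / P.M := by
      rw [P.LL_eq]
      have hLr : (0:ℝ) < P.L := by exact_mod_cast P.hL
      rw [div_le_div_iff₀ hLr hM]
      have e : (P.L:ℝ) = (P.M:ℝ)^2 * P.σ := by unfold L; push_cast; ring
      have h6 : |(x:ℝ) - 16 * (P.L:ℝ)| ≤ 17 * (P.C * P.M * P.σ) := by linarith
      calc |(x:ℝ) - 16 * (P.L:ℝ)| * P.M ≤ (17 * (P.C * P.M * P.σ)) * P.M := mul_le_mul_of_nonneg_right h6 hM.le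
        _ = 17 * P.C * ((P.M:ℝ)^2 * P.σ) := by ring
        _ = 17 * P.C * P.L := by rw [e]
    linarith
  have he1 := henv j (Or.inl rfl)
  have he2 := henv (j + 1) (Or.inr rfl)
  have hw1 := wR_abs P.M P.σ P.hM P.hσ (8 * j)
  have hw2 := wR_abs P.M P.σ P.hM P.hσ (8 * (j + 1))
  have e : P.Qb z - P.wm i / P.M = ((8 - (r:ℝ)) * ((env P.M P.σ j - 1) * ((wZ P.σ (8 * j) : ℤ) : ℝ))
      + (r:ℝ) * ((env P.M P.σ (j + 1) - 1) * ((wZ P.σ (8 * (j + 1)) : ℤ) : ℝ))) / (8 * P.M) := by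
    unfold wm Qb QB pB
    rw [← hz, ← hj, ← hr]
    field_simp
    linear_combination (-1) * hlinR
  rw [e, abs_div, abs_of_pos (by positivity : (0:ℝ) < 8 * P.M), div_le_div_iff₀ (by positivity) (by positivity)]
  have b0 := abs_add_le ((8 - (r:ℝ)) * ((env P.M P.σ j - 1) * ((wZ P.σ (8 * j) : ℤ) : ℝ)))
    ((r:ℝ) * ((env P.M P.σ (j + 1) - 1) * ((wZ P.σ (8 * (j + 1)) : ℤ) : ℝ)))
  rw [abs_mul, abs_mul, abs_mul, abs_mul, abs_of_nonneg hr0R, abs_of_nonneg (by linarith : (0:ℝ) ≤ 8 - (r:ℝ))] at b0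
  have c1 := mul_le_mul he1 hw1 (abs_nonneg _) (by positivity)
  have c2 := mul_le_mul he2 hw2 (abs_nonneg _) (by positivity)
  have d1 := mul_le_mul_of_nonneg_left c1 (by linarith : (0:ℝ) ≤ 8 - (r:ℝ))
  have d2 := mul_le_mul_of_nonneg_left c2 hr0R
  have hfin : |(8 - (r:ℝ)) * ((env P.M P.σ j - 1) * ((wZ P.σ (8 * j) : ℤ) : ℝ))
      + (r:ℝ) * ((env P.M P.σ (j + 1) - 1) * ((wZ P.σ (8 * (j + 1)) : ℤ) : ℝ))| ≤ 8 * (17 * P.C / P.M * (32 * P.σ)) := by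
    linarith
  calc _ ≤ (8 * (17 * P.C / P.M * (32 * P.σ))) * (P.M:ℝ)^2 := mul_le_mul_of_nonneg_right hfin (by positivity)
    _ = 544 * P.C * P.σ * (8 * P.M) := by field_simp; ring

lemma Sg_lower : (P.T:ℝ)^3 / (192 * P.M) - 1114112 * P.C * (P.σ:ℝ)^3 / (P.M:ℝ)^2 ≤ P.Sg := by
  have hM := Mpos P.M P.σ P.hM P.hσ
  have hK := P.Kr
  have hT := P.Tr
  have hKN : P.K0 * P.T ≤ P.N := by
    have h := P.KT_le
    have h2 := P.N_eq
    omega
  have h0 : P.Sg = ∑ i ∈ range (P.K0 * P.T), P.a i * P.Qb (P.N - i) := by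
    unfold Sg
    symm
    apply Finset.sum_subset
    · intro x; simp only [mem_range]; omega
    · intro x _ hx
      rw [mem_range] at hx
      rw [P.a_supp x (Or.inr (by exact_mod_cast (not_lt.mp hx)))]; ring
  have h1 : ∀ i ∈ range (P.K0 * P.T), P.a i * P.wm i / P.M - (P.T / (8 * P.K0)) * (544 * P.C * P.σ / (P.M:ℝ)^2)
      ≤ P.a i * P.Qb (P.N - i) := by
    intro i hi
    rw [mem_range] at hi
    have h2 := P.Qb_approx i hi.le
    have h3 := P.a_abs i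
    have h4 : |P.a i * (P.Qb (P.N - i) - P.wm i / P.M)| ≤ (P.T / (8 * P.K0)) * (544 * P.C * P.σ / (P.M:ℝ)^2) := by
      rw [abs_mul]
      exact mul_le_mul h3 h2 (abs_nonneg _) (by positivity)
    have h5 := (abs_le.mp h4).1
    have e : P.a i * (P.Qb (P.N - i) - P.wm i / P.M) = P.a i * P.Qb (P.N - i) - P.a i * P.wm i / P.M := by ring
    linarith
  rw [h0]
  refine le_trans ?_ (Finset.sum_le_sum h1)
  rw [Finset.sum_sub_distrib, ← Finset.sum_div, Finset.sum_const, card_range, nsmul_eq_mul]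
  have h6 := P.main_sum
  have h7 : (P.T:ℝ)^3 / 192 / P.M ≤ (∑ i ∈ range (P.K0 * P.T), P.a i * P.wm i) / P.M :=
    div_le_div_of_nonneg_right h6 hM.le
  have e1 : (P.T:ℝ)^3 / (192 * P.M) = (P.T:ℝ)^3 / 192 / P.M := by field_simp
  have e2 : ((P.K0 * P.T : ℕ) : ℝ) * ((P.T / (8 * P.K0)) * (544 * P.C * P.σ / (P.M:ℝ)^2))
      = 1114112 * P.C * (P.σ:ℝ)^3 / (P.M:ℝ)^2 := by
    have hTr : (P.T:ℝ) = 128 * P.σ := by unfold T; push_cast; ring
    push_cast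
    rw [hTr]; field_simp; ring
  rw [e1, e2]
  linarith

end Par

end

end Pool.Agent.C8
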