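import Pool.Agent.C8.Quad

set_option autoImplicit false

namespace Pool.Agent.C8

open Finset

noncomputable section

def one : ℕ → ℝ := fun _ => 1

lemma card_sol (n : ℕ) : ((sol n).card : ℝ) = ∑ z ∈ range (9 * n), K n (fun _ => 1) (fun _ => 1) z ^ 2 := by
  have := sum_sol n (fun _ => 1) (fun _ => 1) (fun _ => 1) (fun _ => 1)
  simp only [mul_one, Finset.sum_const, nsmul_eq_mul] at this
  rw [this]
  refine Finset.sum_congr rfl fun z _ => by ring

lemma sum_K_one (n : ℕ) : ∑ z ∈ range (9 * n), K n (fun _ => 1) (fun _ => 1) z = (n:ℝ)^2 := by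
  have := sum_K_mul n (fun _ => 1) (fun _ => 1) (fun _ => 1)
  simp only [mul_one, Finset.sum_const, card_range, nsmul_eq_mul] at this
  rw [this]; ring

lemma K_one_nonneg (n z : ℕ) : 0 ≤ K n (fun _ => 1) (fun _ => 1) z := by
  unfold K
  apply Finset.sum_nonneg; intro x _
  apply Finset.sum_nonneg; intro y _
  split_ifs <;> norm_num

lemma card_sol_lower (n : ℕ) : (n:ℝ)^3 ≤ 9 * (sol n).card := by
  rcases Nat.eq_zero_or_pos n with h | h
  · subst h; simp
  have h1 := sq_sum_le_card_mul_sum_sq (s := range (9 * n))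
      (f := fun z => K n (fun _ => 1) (fun _ => 1) z)
  rw [sum_K_one, card_range, ← card_sol] at h1
  push_cast at h1
  have hn : (0:ℝ) < n := by exact_mod_cast h
  have : (n:ℝ) * (n:ℝ)^3 ≤ n * (9 * (sol n).card) := by nlinarith
  exact le_of_mul_le_mul_left this hn

lemma inner_le_one_y (n x z : ℕ) :
    ∑ y ∈ range n, (if x + 8 * y = z then (1:ℝ) * 1 else 0) ≤ 1 := by
  by_cases h : ∃ y ∈ range n, x + 8 * y = z
  · obtain ⟨y, hy, hyz⟩ := h
    rw [Finset.sum_eq_single_of_mem y hy]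
    · rw [if_pos hyz]; norm_num
    · intro y' _ hne
      rw [if_neg (by omega)]
  · push_neg at h
    rw [Finset.sum_eq_zero]
    · norm_num
    · intro y hy; rw [if_neg (h y hy)]

lemma inner_le_one_x (n y z : ℕ) :
    ∑ x ∈ range n, (if x + 8 * y = z then (1:ℝ) * 1 else 0) ≤ 1 := by
  by_cases h : ∃ x ∈ range n, x + 8 * y = z
  · obtain ⟨x, hx, hxz⟩ := h
    rw [Finset.sum_eq_single_of_mem x hx]
    · rw [if_pos hxz]; norm_num
    · intro x' _ hne
      rw [if_neg (by omega)]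
  · push_neg at h
    rw [Finset.sum_eq_zero]
    · norm_num
    · intro x hx; rw [if_neg (h x hx)]

lemma K_compare (a b z : ℕ) :
    K (a + b) (fun _ => 1) (fun _ => 1) z ≤ K a (fun _ => 1) (fun _ => 1) z + 2 * b := by
  unfold K
  rw [Finset.sum_range_add]
  have h1 : ∑ x ∈ range b, ∑ y ∈ range (a + b), (if a + x + 8 * y = z then (1:ℝ) * 1 else 0) ≤ b := by
    calc _ ≤ ∑ x ∈ range b, (1:ℝ) := Finset.sum_le_sum fun x _ => inner_le_one_y _ _ _
      _ = b := by simp
  have h2 : ∑ x ∈ range a, ∑ y ∈ range (a + b), (if x + 8 * y = z then (1:ℝ) * 1 else 0)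
      ≤ ∑ x ∈ range a, ∑ y ∈ range a, (if x + 8 * y = z then (1:ℝ) * 1 else 0) + b := by
    have h3 : ∀ x ∈ range a, ∑ y ∈ range (a + b), (if x + 8 * y = z then (1:ℝ) * 1 else 0)
        = ∑ y ∈ range a, (if x + 8 * y = z then (1:ℝ) * 1 else 0)
          + ∑ y ∈ range b, (if x + 8 * (a + y) = z then (1:ℝ) * 1 else 0) := by
      intro x _
      rw [Finset.sum_range_add]
    rw [Finset.sum_congr rfl h3, Finset.sum_add_distrib]
    have h4 : ∑ x ∈ range a, ∑ y ∈ range b, (if x + 8 * (a + y) = z then (1:ℝ) * 1 else 0) ≤ b := by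
      rw [Finset.sum_comm]
      calc _ ≤ ∑ y ∈ range b, (1:ℝ) := Finset.sum_le_sum fun x _ => inner_le_one_x _ _ _
        _ = b := by simp
    linarith
  linarith

lemma K_large (n z : ℕ) (f g : ℕ → ℝ) (hz : 9 * n ≤ z) : K n f g z = 0 := by
  unfold K
  apply Finset.sum_eq_zero; intro x hx
  apply Finset.sum_eq_zero; intro y hy
  rw [mem_range] at hx hy
  rw [if_neg (by omega)]

lemma card_sol_compare (a b : ℕ) :
    ((sol (a + b)).card : ℝ) ≤ (sol a).card + 4 * b * ((a + b : ℕ) : ℝ)^2 := by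
  have h0 : ((sol a).card : ℝ) = ∑ z ∈ range (9 * (a + b)), K a (fun _ => 1) (fun _ => 1) z ^ 2 := by
    rw [card_sol]
    apply Finset.sum_subset
    · intro x; simp only [mem_range]; omega
    · intro x _ hx
      rw [mem_range] at hx
      rw [K_large a x _ _ (by omega)]; norm_num
  rw [h0, card_sol, ← sum_K_one, Finset.mul_sum, ← Finset.sum_add_distrib]
  apply Finset.sum_le_sum
  intro z _
  have h1 := K_compare a b z
  have h2 := K_one_nonneg a z
  have h3 := K_one_nonneg (a + b) z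
  have hb : (0:ℝ) ≤ b := by positivity
  rcases le_total (K (a + b) (fun _ => 1) (fun _ => 1) z) (K a (fun _ => 1) (fun _ => 1) z) with h | h
  · nlinarith [mul_nonneg hb h3]
  · nlinarith [mul_nonneg hb h3]

def mono (n r : ℕ) (c : Fin n → Fin r) : Finset (Fin 4 → Fin n) :=
  Finset.univ.filter (fun x : Fin 4 → Fin n => ∑ i, coef i * (((x i : ℕ) : ℤ) + 1) = 0 ∧
    ∀ i j : Fin 4, c (x i) = c (x j))

lemma mono_lower (n : ℕ) (c : Fin n → Fin 2) :
    ((sol n).card : ℝ) - 50 * (n:ℝ)^2 ≤ 8 * (mono n 2 c).card := by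
  set N := n / 8 with hN
  have hNn : 8 * N ≤ n := by omega
  set e : ℕ → ℝ := fun i => if h : i < 8 * N then (if c ⟨i, lt_of_lt_of_le h hNn⟩ = 0 then 1 else -1) else 0 with he
  have he0 : ∀ i, 8 * N ≤ i → e i = 0 := by
    intro i hi
    simp only [he]
    rw [dif_neg (by omega)]
  have heb : ∀ i, |e i| ≤ 1 := by
    intro i
    simp only [he]
    split_ifs <;> simp
  have hq := quad_lower N e he0 heb
  -- solutions in 8N
  set S := sol (8 * N) with hS
  let emb : (Fin 4 → Fin (8 * N)) → (Fin 4 → Fin n) := fun x i => Fin.castLE hNn (x i)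
  have hemb : Function.Injective emb := by
    intro x y hxy
    funext i
    have := congrFun hxy i
    simpa [emb] using this
  set S' := S.filter (fun x => e (x 0) = e (x 1) ∧ e (x 0) = e (x 2) ∧ e (x 0) = e (x 3)) with hS'
  have hval : ∀ y : Fin (8 * N), (e y = 1 ∧ c (Fin.castLE hNn y) = 0) ∨ (e y = -1 ∧ c (Fin.castLE hNn y) = 1) := by
    intro y
    have hy := y.2
    simp only [he]
    rw [dif_pos hy]
    have : (⟨(y:ℕ), lt_of_lt_of_le hy hNn⟩ : Fin n) = Fin.castLE hNn y := rfl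
    rw [this]
    by_cases h : c (Fin.castLE hNn y) = 0
    · left; rw [if_pos h]; exact ⟨rfl, h⟩
    · right; rw [if_neg h]; refine ⟨rfl, ?_⟩
      omega
  have hcard : (S'.card : ℝ) ≤ (mono n 2 c).card := by
    have : S'.card ≤ (mono n 2 c).card := by
      apply Finset.card_le_card_of_injOn emb
      · intro x hx
        rw [Finset.mem_coe, hS', mem_filter, hS, mem_sol] at hx
        obtain ⟨hx1, h01, h02, h03⟩ := hx
        have hcol : ∀ i, c (emb x i) = c (emb x 0) := by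
          have key : ∀ y y' : Fin (8 * N), e y = e y' → c (Fin.castLE hNn y') = c (Fin.castLE hNn y) := by
            intro y y' hyy
            rcases hval y with ⟨h1, h2⟩ | ⟨h1, h2⟩ <;> rcases hval y' with ⟨h3, h4⟩ | ⟨h3, h4⟩
            · rw [h2, h4]
            · exfalso; rw [h1, h3] at hyy; norm_num at hyy
            · exfalso; rw [h1, h3] at hyy; norm_num at hyy
            · rw [h2, h4]
          intro i
          fin_cases i
          · rfl
          · exact key _ _ h01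
          · exact key _ _ h02
          · exact key _ _ h03
        rw [Finset.mem_coe, mono, mem_filter]
        refine ⟨mem_univ _, ?_, ?_⟩
        · have := (mem_sol (emb x)).mpr (by simpa [emb] using hx1)
          rw [sol, mem_filter] at this
          exact this.2
        · intro i j; rw [hcol i, hcol j]
      · exact hemb.injOn
    exact_mod_cast this
  have hpt : ∑ x ∈ S, (1 + e (x 0) * e (x 1) + e (x 0) * e (x 2) + e (x 0) * e (x 3)
      + e (x 1) * e (x 2) + e (x 1) * e (x 3) + e (x 2) * e (x 3)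
      + e (x 0) * e (x 1) * e (x 2) * e (x 3)) = 8 * S'.card := by
    rw [hS', Finset.card_filter]
    push_cast
    rw [Finset.mul_sum]
    refine Finset.sum_congr rfl fun x _ => ?_
    rcases hval (x 0) with ⟨h0, _⟩ | ⟨h0, _⟩ <;> rcases hval (x 1) with ⟨h1, _⟩ | ⟨h1, _⟩ <;>
    rcases hval (x 2) with ⟨h2, _⟩ | ⟨h2, _⟩ <;> rcases hval (x 3) with ⟨h3, _⟩ | ⟨h3, _⟩ <;>
    rw [h0, h1, h2, h3] <;> norm_num
  have hexp : ∑ x ∈ S, (1 + e (x 0) * e (x 1) + e (x 0) * e (x 2) + e (x 0) * e (x 3)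
      + e (x 1) * e (x 2) + e (x 1) * e (x 3) + e (x 2) * e (x 3)
      + e (x 0) * e (x 1) * e (x 2) * e (x 3))
      = S.card + ∑ z ∈ range (9 * (8 * N)),
      (2 * (K (8 * N) e e z * K (8 * N) (fun _ => 1) (fun _ => 1) z)
        + (K (8 * N) e (fun _ => 1) z + K (8 * N) (fun _ => 1) e z)^2)
      + ∑ z ∈ range (9 * (8 * N)), (K (8 * N) e e z)^2 := by
    have h01 := sum_sol (8 * N) e e (fun _ => 1) (fun _ => 1)
    have h02 := sum_sol (8 * N) e (fun _ => 1) e (fun _ => 1)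
    have h03 := sum_sol (8 * N) e (fun _ => 1) (fun _ => 1) e
    have h12 := sum_sol (8 * N) (fun _ => 1) e e (fun _ => 1)
    have h13 := sum_sol (8 * N) (fun _ => 1) e (fun _ => 1) e
    have h23 := sum_sol (8 * N) (fun _ => 1) (fun _ => 1) e e
    have h4 := sum_sol (8 * N) e e e e
    simp only [mul_one, one_mul] at h01 h02 h03 h12 h13 h23 h4
    rw [← hS] at h01 h02 h03 h12 h13 h23 h4
    rw [Finset.sum_add_distrib, Finset.sum_add_distrib, Finset.sum_add_distrib,
      Finset.sum_add_distrib, Finset.sum_add_distrib, Finset.sum_add_distrib,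
      Finset.sum_add_distrib, h01, h02, h03, h12, h13, h23, h4, Finset.sum_const, nsmul_eq_mul,
      mul_one]
    rw [add_assoc (S.card : ℝ), ← Finset.sum_add_distrib]
    simp only [add_assoc]
    rw [← Finset.sum_add_distrib, ← Finset.sum_add_distrib, ← Finset.sum_add_distrib,
      ← Finset.sum_add_distrib, ← Finset.sum_add_distrib, ← Finset.sum_add_distrib]
    congr 1
    refine Finset.sum_congr rfl fun z _ => ?_
    ring
  have hsq : 0 ≤ ∑ z ∈ range (9 * (8 * N)), (K (8 * N) e e z)^2 :=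
    Finset.sum_nonneg fun z _ => sq_nonneg _
  have hcomp := card_sol_compare (8 * N) (n - 8 * N)
  have hsum : 8 * N + (n - 8 * N) = n := by omega
  rw [hsum] at hcomp
  have hb7 : ((n - 8 * N : ℕ) : ℝ) ≤ 7 := by
    have : n - 8 * N ≤ 7 := by omega
    exact_mod_cast this
  have hNr : (N : ℝ) ≤ n / 8 := by
    have : (8 * N : ℝ) ≤ n := by exact_mod_cast hNn
    linarith
  have hN0 : (0:ℝ) ≤ N := by positivity
  have hN2 : 400 * (N:ℝ)^2 ≤ 7 * (n:ℝ)^2 := by nlinarith
  have hn2 : 4 * ((n - 8 * N : ℕ) : ℝ) * (n:ℝ)^2 ≤ 28 * (n:ℝ)^2 := by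
    nlinarith [sq_nonneg (n:ℝ)]
  have : (8:ℝ) * S'.card ≤ 8 * (mono n 2 c).card := by linarith
  nlinarith [sq_nonneg (n:ℝ)]

theorem two_common : ∀ ε : ℝ, 0 < ε → ∃ N : ℕ, ∀ n : ℕ, N ≤ n → ∀ c : Fin n → Fin 2,
    ((((2:ℕ) : ℝ) ^ (4 - 1))⁻¹ - ε) * ((sol n).card : ℝ) ≤ ((mono n 2 c).card : ℝ) := by
  intro ε hε
  obtain ⟨N, hN⟩ := exists_nat_gt (57 / ε)
  refine ⟨N, fun n hn c => ?_⟩
  have h1 := mono_lower n c
  have h2 := card_sol_lower n
  have hnN : (N:ℝ) ≤ n := by exact_mod_cast hn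
  have hn1 : 57 / ε < n := lt_of_lt_of_le hN hnN
  rw [div_lt_iff₀ hε] at hn1
  have h3 : 57 * (n:ℝ)^2 ≤ ε * (n:ℝ)^3 := by nlinarith [sq_nonneg (n:ℝ)]
  have h4 : ε * (n:ℝ)^3 ≤ ε * (9 * (sol n).card) := mul_le_mul_of_nonneg_left h2 hε.le
  norm_num
  nlinarith [sq_nonneg (n:ℝ)]

end

end Pool.Agent.C8
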