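import Pool.Agent.C8.Conv

set_option autoImplicit false
set_option linter.unusedSectionVars false

namespace Pool.Agent.C8

open Finset

noncomputable section

lemma sum_shift (A c : ℕ) (f : ℤ → ℝ) (h0 : ∀ x : ℤ, x < c → f x = 0) (h1 : ∀ x : ℤ, (A:ℤ) ≤ x → f x = 0) :
    ∑ y ∈ range A, f ((y:ℤ) + c) = ∑ y ∈ range A, f (y:ℤ) := by
  have e1 : ∑ y ∈ range (c + A), f (y:ℤ) = ∑ y ∈ range c, f (y:ℤ) + ∑ y ∈ range A, f ((c + y : ℕ) : ℤ) :=
    Finset.sum_range_add (fun y : ℕ => f (y:ℤ)) c A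
  have e2 : ∑ y ∈ range (A + c), f (y:ℤ) = ∑ y ∈ range A, f (y:ℤ) + ∑ y ∈ range c, f ((A + y : ℕ) : ℤ) :=
    Finset.sum_range_add (fun y : ℕ => f (y:ℤ)) A c
  have z1 : ∑ y ∈ range c, f (y:ℤ) = 0 := by
    apply Finset.sum_eq_zero
    intro y hy; rw [mem_range] at hy
    exact h0 _ (by omega)
  have z2 : ∑ y ∈ range c, f ((A + y : ℕ) : ℤ) = 0 := by
    apply Finset.sum_eq_zero
    intro y hy
    exact h1 _ (by omega)
  rw [z1, zero_add] at e1
  rw [z2, add_zero] at e2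
  rw [← e2, add_comm A c, e1]
  refine Finset.sum_congr rfl fun y _ => ?_
  congr 1; push_cast; ring

/-- sums of a function supported in `[0, A)` along an injective sequence -/
lemma supp_sum (φ : ℕ → ℤ) (hφ : Function.Injective φ) (h : ℤ → ℝ) (B : ℝ) (hB0 : 0 ≤ B) (A : ℕ)
    (hB : ∀ x, h x ≤ B) (h0 : ∀ x : ℤ, (x < 0 ∨ (A:ℤ) ≤ x) → h x = 0) (m : ℕ) :
    ∑ k ∈ range m, h (φ k) ≤ A * B := by
  have h1 : ∑ k ∈ range m, h (φ k) ≤ ∑ k ∈ range m, (if 0 ≤ φ k ∧ φ k < A then B else 0) := by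
    apply Finset.sum_le_sum
    intro k _
    split_ifs with hc
    · exact hB _
    · rw [h0 _ (by omega)]
  refine h1.trans ?_
  rw [← Finset.sum_filter, Finset.sum_const, nsmul_eq_mul]
  apply mul_le_mul_of_nonneg_right _ hB0
  have : (Finset.filter (fun k => 0 ≤ φ k ∧ φ k < A) (range m)).card ≤ (range A).card := by
    apply Finset.card_le_card_of_injOn (fun k => (φ k).toNat)
    · intro k hk
      simp only [coe_filter, Set.mem_ofPred_eq, coe_range, Set.mem_Iio] at *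
      omega
    · intro k1 h1 k2 h2 heq
      simp only [coe_filter, Set.mem_ofPred_eq] at *
      apply hφ; omega
  rw [card_range] at this
  exact_mod_cast this

namespace Par
variable (P : Par)

lemma X6_bound (k : ℕ) : |conv P.N P.gb P.gb k| ≤ 147456 * P.σ / (P.M:ℝ)^2 := by
  have hMr := Mpos P.M P.σ P.hM P.hσ
  have hσr : (0:ℝ) < P.σ := by exact_mod_cast P.hσ
  have hN := P.Nz
  have hL := P.Lz
  have hσL := P.σLz
  set f : ℤ → ℝ := fun y => P.gb (k - y) * P.gb (y / 8) with hf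
  have h1 : conv P.N P.gb P.gb k = ∑ y ∈ range (8 * P.N), f (y:ℤ) := by
    unfold conv
    refine Finset.sum_congr rfl fun y _ => ?_
    rw [hf]; simp
  have hsh := sum_shift (8 * P.N) (64 * P.σ) f
    (by
      intro x hx
      rw [hf]; simp only
      rw [P.gb_zero (x / 8) (by push_cast at hx; omega)]; ring)
    (by
      intro x hx
      rw [hf]; simp only
      rw [P.gb_zero (x / 8) (by push_cast at hx; omega)]; ring)
  have h2 : 2 * conv P.N P.gb P.gb k = ∑ y ∈ range (8 * P.N), (f (y:ℤ) + f ((y:ℤ) + (64 * P.σ : ℕ))) := by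
    rw [Finset.sum_add_distrib, hsh, h1]; ring
  have h3 : ∀ y ∈ range (8 * P.N), |f (y:ℤ) + f ((y:ℤ) + (64 * P.σ : ℕ))| ≤ 288 / (P.M:ℝ)^4 := by
    intro y _
    have e0 : ((y:ℤ) + (64 * P.σ : ℕ)) / 8 = (y:ℤ) / 8 + 8 * P.σ := by push_cast; omega
    have e : f (y:ℤ) + f ((y:ℤ) + (64 * P.σ : ℕ)) =
        P.gb (k - y) * (P.gb ((y:ℤ) / 8) + P.gb ((y:ℤ) / 8 + 8 * P.σ))
        + (P.gb (k - y - 64 * P.σ) - P.gb (k - y - 64 * P.σ + 64 * P.σ)) * P.gb ((y:ℤ) / 8 + 8 * P.σ) := by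
      rw [hf]; simp only
      rw [e0]
      have e1 : (k:ℤ) - (y + (64 * P.σ : ℕ)) = k - y - 64 * P.σ := by push_cast; ring
      have e2 : (k:ℤ) - y - 64 * P.σ + 64 * P.σ = k - y := by ring
      rw [e1, e2]; ring
    rw [e]
    have b1 : |P.gb (k - y)| ≤ 2 / P.M := gB_bound P.M P.σ P.hM P.hσ _
    have b2 : |P.gb ((y:ℤ) / 8) + P.gb ((y:ℤ) / 8 + 8 * P.σ)| ≤ 16 / (P.M:ℝ)^3 := gB_anti P.M P.σ P.hM P.hσ _
    have b3 : |P.gb (k - y - 64 * P.σ) - P.gb (k - y - 64 * P.σ + 64 * P.σ)| ≤ 128 / (P.M:ℝ)^3 := gB_64 P.M P.σ P.hM P.hσ _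
    have b4 : |P.gb ((y:ℤ) / 8 + 8 * P.σ)| ≤ 2 / P.M := gB_bound P.M P.σ P.hM P.hσ _
    refine (abs_add_le _ _).trans ?_
    rw [abs_mul, abs_mul]
    have c1 := mul_le_mul b1 b2 (abs_nonneg _) (by positivity)
    have c2 := mul_le_mul b3 b4 (abs_nonneg _) (by positivity)
    refine (add_le_add c1 c2).trans (le_of_eq ?_)
    field_simp; norm_num
  have h4 : |2 * conv P.N P.gb P.gb k| ≤ (8 * P.N) * (288 / (P.M:ℝ)^4) := by
    rw [h2]
    refine (Finset.abs_sum_le_sum_abs _ _).trans ((Finset.sum_le_sum h3).trans (le_of_eq ?_))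
    rw [Finset.sum_const, card_range, nsmul_eq_mul]; push_cast; ring
  rw [abs_mul, abs_two] at h4
  have e5 : (8 * (P.N:ℝ)) * (288 / (P.M:ℝ)^4) = 2 * (147456 * P.σ / (P.M:ℝ)^2) := by
    unfold N; push_cast; field_simp; norm_num
  rw [e5] at h4
  linarith

/-! ### X1, X2, X3 -/

lemma a_supp (x : ℤ) (hx : x < 0 ∨ ((P.K0 * P.T : ℕ):ℤ) ≤ x) : P.a x = 0 := by
  rcases hx with h | h
  · exact P.a_left x h.le
  · exact P.a_right x (by push_cast at h; exact h)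

lemma s_supp (x : ℤ) (hx : x < 0 ∨ ((P.K0 * P.T : ℕ):ℤ) ≤ x) : P.s x = 0 := by
  rcases hx with h | h
  · exact P.s_left x h
  · exact P.s_right x (by push_cast at h; exact h)

def Qa (x : ℤ) : ℝ := (8 - ((x % 8 : ℤ) : ℝ)) * P.a (x / 8) + ((x % 8 : ℤ) : ℝ) * P.a (x / 8 + 1)

lemma Qa_supp (x : ℤ) (hx : x < 0 ∨ ((8 * (P.K0 * P.T) : ℕ):ℤ) ≤ x) : P.Qa x = 0 := by
  unfold Qa
  rcases hx with h | h
  · rw [P.a_left _ (by omega), P.a_left _ (by omega)]; ring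
  · push_cast at h
    rw [P.a_right _ (by omega), P.a_right _ (by omega)]; ring

lemma a_abs (x : ℤ) : |P.a x| ≤ P.T / (8 * P.K0) := aF_bound P.K0 P.T P.hK P.hT x

lemma Kr : (0:ℝ) < P.K0 := by exact_mod_cast P.hK
lemma Tr : (0:ℝ) < P.T := by exact_mod_cast P.hT

lemma Qa_abs (x : ℤ) : |P.Qa x| ≤ P.T / P.K0 := by
  have hK := P.Kr
  have hr0 : (0:ℝ) ≤ ((x % 8 : ℤ) : ℝ) := by
    have : 0 ≤ x % 8 := by omega
    exact_mod_cast this
  have hr8 : ((x % 8 : ℤ) : ℝ) ≤ 8 := by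
    have : x % 8 ≤ 8 := by omega
    exact_mod_cast this
  unfold Qa
  have b0 := abs_add_le ((8 - ((x % 8 : ℤ) : ℝ)) * P.a (x / 8)) (((x % 8 : ℤ) : ℝ) * P.a (x / 8 + 1))
  rw [abs_mul, abs_mul, abs_of_nonneg hr0, abs_of_nonneg (by linarith : (0:ℝ) ≤ 8 - ((x % 8 : ℤ) : ℝ))] at b0
  have b1 := mul_le_mul_of_nonneg_left (P.a_abs (x / 8)) (by linarith : (0:ℝ) ≤ 8 - ((x % 8 : ℤ) : ℝ))
  have b2 := mul_le_mul_of_nonneg_left (P.a_abs (x / 8 + 1)) hr0
  have e5 : (P.T:ℝ) / P.K0 = 8 * (P.T / (8 * P.K0)) := by field_simp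
  rw [e5]
  nlinarith

lemma Qa_nonpos (x : ℤ) : P.Qa x ≤ 0 := by
  have hr0 : (0:ℝ) ≤ ((x % 8 : ℤ) : ℝ) := by
    have : 0 ≤ x % 8 := by omega
    exact_mod_cast this
  have hr8 : ((x % 8 : ℤ) : ℝ) ≤ 8 := by
    have : x % 8 ≤ 8 := by omega
    exact_mod_cast this
  have h1 : P.a (x / 8) ≤ 0 := aF_nonpos P.K0 P.T P.hK P.hT _
  have h2 : P.a (x / 8 + 1) ≤ 0 := aF_nonpos P.K0 P.T P.hK P.hT _
  unfold Qa
  nlinarith

/-- the primitive of the layer part -/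
def QA (x : ℤ) : ℝ := P.Qa x - P.Qa (8 * P.N - x)

lemma QA_eq (x : ℤ) : P.QA x = (8 - ((x % 8 : ℤ) : ℝ)) * P.pA (x / 8) + ((x % 8 : ℤ) : ℝ) * P.pA (x / 8 + 1) := by
  unfold QA Qa pA
  by_cases h : x % 8 = 0
  · have e1 : (8 * (P.N:ℤ) - x) % 8 = 0 := by omega
    have e2 : (8 * (P.N:ℤ) - x) / 8 = P.N - x / 8 := by omega
    rw [e1, e2, h]; push_cast; ring
  · have e1 : (8 * (P.N:ℤ) - x) % 8 = 8 - x % 8 := by omega
    have e2 : (8 * (P.N:ℤ) - x) / 8 = P.N - (x / 8 + 1) := by omega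
    have e3 : (P.N:ℤ) - (x / 8 + 1) + 1 = P.N - x / 8 := by ring
    rw [e1, e2, e3]; push_cast; ring

lemma QA_step (x : ℤ) : P.QA (x + 1) - P.QA x = P.gA (x / 8) := by
  rw [QA_eq, QA_eq]
  unfold gA
  rcases (by omega : (x % 8 < 7 ∧ (x + 1) % 8 = x % 8 + 1 ∧ (x + 1) / 8 = x / 8) ∨
    (x % 8 = 7 ∧ (x + 1) % 8 = 0 ∧ (x + 1) / 8 = x / 8 + 1)) with ⟨_, h2, h3⟩ | ⟨h1, h2, h3⟩
  · rw [h2, h3]; push_cast; ring
  · rw [h2, h3, h1]; push_cast; ring

lemma X1_eq (k : ℕ) : conv P.N P.gA P.one k = P.pA (k + 1) - P.pA (k + 1 - 8 * P.N) := by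
  unfold conv
  have h1 : ∀ y ∈ range (8 * P.N), P.gA ((k:ℤ) - y) * P.one ((y / 8 : ℕ) : ℤ)
      = (fun y : ℕ => P.pA (k + 1 - y)) y - (fun y : ℕ => P.pA (k + 1 - y)) (y + 1) := by
    intro y hy
    rw [mem_range] at hy
    have : P.one ((y / 8 : ℕ) : ℤ) = 1 := by
      unfold one; rw [if_pos (by omega)]
    rw [this]
    simp only
    unfold gA
    have e1 : (k:ℤ) - y + 1 = k + 1 - y := by ring
    have e2 : (k:ℤ) + 1 - ((y + 1 : ℕ) : ℤ) = k - y := by push_cast; ring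
    rw [e1, e2]; ring
  rw [Finset.sum_congr rfl h1, Finset.sum_range_sub']
  simp

lemma X2_eq (k : ℕ) : conv P.N P.one P.gA k = P.QA (k + 1) - P.QA (k + 1 - P.N) := by
  have h3 : conv P.N P.one P.gA k = ∑ y ∈ range (8 * P.N), P.one ((k:ℤ) - y) * (fun y => P.gA (y / 8)) (y:ℤ) := by
    unfold conv
    refine Finset.sum_congr rfl fun y _ => ?_
    simp
  have h2 := reindex P.N (8 * P.N) P.one (fun y => P.gA (y / 8)) (fun x hx => P.one_zero x hx)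
      (by
        intro y hy
        apply P.gA_zero
        push_cast at hy
        omega) k
  rw [h3, h2]
  have h1 : ∀ x ∈ range P.N, P.one (x:ℤ) * (fun y => P.gA (y / 8)) ((k:ℤ) - x)
      = (fun y : ℕ => P.QA (k + 1 - y)) x - (fun y : ℕ => P.QA (k + 1 - y)) (x + 1) := by
    intro x hx
    rw [mem_range] at hx
    have : P.one (x : ℤ) = 1 := by
      unfold one; rw [if_pos (by omega)]
    rw [this]
    simp only
    have e := P.QA_step ((k:ℤ) - x)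
    have e1 : (k:ℤ) - x + 1 = k + 1 - x := by ring
    have e2 : (k:ℤ) + 1 - ((x + 1 : ℕ) : ℤ) = k - x := by push_cast; ring
    rw [e1] at e
    rw [e2, ← e]; ring
  rw [Finset.sum_congr rfl h1, Finset.sum_range_sub']
  simp

lemma sq4 (a b c d : ℝ) : (a - b - (c - d))^2 ≤ 4 * (a^2 + b^2 + c^2 + d^2) := by
  nlinarith [sq_nonneg (a + b), sq_nonneg (a + c), sq_nonneg (a - d), sq_nonneg (b - c), sq_nonneg (b + d), sq_nonneg (c + d)]

lemma X1_sum (m : ℕ) : ∑ k ∈ range m, (conv P.N P.gA P.one k)^2 ≤ (P.T:ℝ)^3 / (4 * P.K0) := by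
  have hK := P.Kr
  have hT := P.Tr
  have key : ∀ φ : ℕ → ℤ, Function.Injective φ →
      ∑ k ∈ range m, (P.a (φ k))^2 ≤ ((P.K0 * P.T : ℕ) : ℝ) * (P.T / (8 * P.K0))^2 := by
    intro φ hφ
    apply supp_sum φ hφ (fun x => (P.a x)^2) _ (by positivity) (P.K0 * P.T)
    · intro x
      have := P.a_abs x
      rw [← sq_abs]
      exact pow_le_pow_left₀ (abs_nonneg _) this 2
    · intro x hx
      rw [P.a_supp x hx]; ring
  have h1 : ∀ k ∈ range m, (conv P.N P.gA P.one k)^2 ≤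
      4 * ((P.a (k + 1))^2 + (P.a (P.N - (k + 1)))^2 + (P.a (k + 1 - 8 * P.N))^2 + (P.a (P.N - (k + 1 - 8 * P.N)))^2) := by
    intro k _
    rw [X1_eq]; unfold pA
    exact sq4 _ _ _ _
  refine (Finset.sum_le_sum h1).trans ?_
  rw [← Finset.mul_sum, Finset.sum_add_distrib, Finset.sum_add_distrib, Finset.sum_add_distrib]
  have k1 := key (fun k => (k:ℤ) + 1) (fun x y h => by simpa using h)
  have k2 := key (fun k => (P.N:ℤ) - (k + 1)) (fun x y h => by simp only at h; omega)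
  have k3 := key (fun k => (k:ℤ) + 1 - 8 * P.N) (fun x y h => by simp only at h; omega)
  have k4 := key (fun k => (P.N:ℤ) - (k + 1 - 8 * P.N)) (fun x y h => by simp only at h; omega)
  have e : (P.T:ℝ)^3 / (4 * P.K0) = 16 * (((P.K0 * P.T : ℕ) : ℝ) * (P.T / (8 * P.K0))^2) := by
    push_cast; field_simp; norm_num
  rw [e]
  linarith

lemma X2_sum (m : ℕ) : ∑ k ∈ range m, (conv P.N P.one P.gA k)^2 ≤ 128 * (P.T:ℝ)^3 / P.K0 := by
  have hK := P.Kr
  have hT := P.Tr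
  have key : ∀ φ : ℕ → ℤ, Function.Injective φ →
      ∑ k ∈ range m, (P.Qa (φ k))^2 ≤ ((8 * (P.K0 * P.T) : ℕ) : ℝ) * (P.T / P.K0)^2 := by
    intro φ hφ
    apply supp_sum φ hφ (fun x => (P.Qa x)^2) _ (by positivity) (8 * (P.K0 * P.T))
    · intro x
      have := P.Qa_abs x
      rw [← sq_abs]
      exact pow_le_pow_left₀ (abs_nonneg _) this 2
    · intro x hx
      rw [P.Qa_supp x hx]; ring
  have h1 : ∀ k ∈ range m, (conv P.N P.one P.gA k)^2 ≤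
      4 * ((P.Qa (k + 1))^2 + (P.Qa (8 * P.N - (k + 1)))^2 + (P.Qa (k + 1 - P.N))^2 + (P.Qa (8 * P.N - (k + 1 - P.N)))^2) := by
    intro k _
    rw [X2_eq]; unfold QA
    exact sq4 _ _ _ _
  refine (Finset.sum_le_sum h1).trans ?_
  rw [← Finset.mul_sum, Finset.sum_add_distrib, Finset.sum_add_distrib, Finset.sum_add_distrib]
  have k1 := key (fun k => (k:ℤ) + 1) (fun x y h => by simpa using h)
  have k2 := key (fun k => 8 * (P.N:ℤ) - (k + 1)) (fun x y h => by simp only at h; omega)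
  have k3 := key (fun k => (k:ℤ) + 1 - P.N) (fun x y h => by simp only at h; omega)
  have k4 := key (fun k => 8 * (P.N:ℤ) - (k + 1 - P.N)) (fun x y h => by simp only at h; omega)
  have e : 128 * (P.T:ℝ)^3 / P.K0 = 16 * (((8 * (P.K0 * P.T) : ℕ) : ℝ) * (P.T / P.K0)^2) := by
    push_cast; field_simp; norm_num
  rw [e]
  linarith

end Par

end

end Pool.Agent.C8
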